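import Pool.Agent.Work.MP_5955e5_nt.C.Left
import Pool.Agent.Work.MP_5955e5_nt.C.Dat0
import Pool.Agent.Work.MP_5955e5_nt.C.Dat1
import Pool.Agent.Work.MP_5955e5_nt.C.Dat2
import Pool.Agent.Work.MP_5955e5_nt.C.Dat3
import Pool.Agent.Work.MP_5955e5_nt.C.Dat4

/-!
# Cell RV, block (c): the final sum (helper17; certificate by helper55)
-/

set_option autoImplicit false

open Complex

namespace Pool.RV.C

open Kw

/-- all T items -/
def lT : List TB := [tb0, tb1, tb2, tb3, tb4, tb5, tb6, tb7, tb8, tb9, tb10, tb11, tb12]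

/-- all R2 items -/
def lR : List RI := [ri0, ri1]

/-- all D items -/
def lD : List DI := [di0, di1, di2, di3, di4, di5, di6, di7, di8, di9, di10, di11]

/-- all DJ items -/
def lJ : List DJI := [dj0, dj1, dj2, dj3]

/-- all two-loop terms -/
def allT : List Tm :=
  ⟨⟨-104822915078710886400, 0⟩, true, true, WT⟩ :: (lT.flatMap TB.tms ++ (lR.flatMap RI.tms ++ lD.flatMap DI.tms))

/-- all one-loop terms -/
def allJ : List Jm := lT.flatMap TB.jms ++ lJ.flatMap DJI.jms

theorem allT_zero : zeroOK allT = true := by decide +kernel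

theorem allJ_const : constOK allJ ⟨8573479165388390400, 0⟩ ⟨-895362399630655488000, 0⟩ = true := by decide +kernel

lemma sum_flat {α β : Type*} (l : List α) (F : α → List β) (v : β → ℂ) :
    ((l.flatMap F).map v).sum = (l.map fun a => ((F a).map v).sum).sum := by
  induction l with
  | nil => simp
  | cons a l ih => simp [List.flatMap_cons, ih]

lemma sum_flat_zero {α β : Type*} {l : List α} {F : α → List β} {v : β → ℂ}
    (h : ∀ a ∈ l, ((F a).map v).sum = 0) : ((l.flatMap F).map v).sum = 0 := by
  rw [sum_flat]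
  apply List.sum_eq_zero
  intro x hx
  obtain ⟨a, ha, rfl⟩ := List.mem_map.mp hx
  exact h a ha

theorem lT_sum : ((lT.flatMap TB.tms).map Tm.val).sum = ((lT.flatMap TB.jms).map Jm.val).sum := by
  rw [sum_flat, sum_flat]
  congr 1
  apply List.map_congr_left
  intro t ht
  have h : t.ok 2985984 = true := by
    simp only [lT, List.mem_cons, List.not_mem_nil, or_false] at ht
    rcases ht with rfl | rfl | rfl | rfl | rfl | rfl | rfl | rfl | rfl | rfl | rfl | rfl | rfl
    · exact tb0_ok
    · exact tb1_ok
    · exact tb2_ok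
    · exact tb3_ok
    · exact tb4_ok
    · exact tb5_ok
    · exact tb6_ok
    · exact tb7_ok
    · exact tb8_ok
    · exact tb9_ok
    · exact tb10_ok
    · exact tb11_ok
    · exact tb12_ok
  exact TB.sound h

theorem lR_sum : ((lR.flatMap RI.tms).map Tm.val).sum = 0 :=
  sum_flat_zero fun r _ => r.sum

theorem lD_sum : ((lD.flatMap DI.tms).map Tm.val).sum = 0 := by
  refine sum_flat_zero fun t ht => DI.sum ?_
  simp only [lD, List.mem_cons, List.not_mem_nil, or_false] at ht
  rcases ht with rfl | rfl | rfl | rfl | rfl | rfl | rfl | rfl | rfl | rfl | rfl | rfl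
  · exact di0_ok
  · exact di1_ok
  · exact di2_ok
  · exact di3_ok
  · exact di4_ok
  · exact di5_ok
  · exact di6_ok
  · exact di7_ok
  · exact di8_ok
  · exact di9_ok
  · exact di10_ok
  · exact di11_ok

theorem lJ_sum : ((lJ.flatMap DJI.jms).map Jm.val).sum = 0 := by
  refine sum_flat_zero fun t ht => DJI.sum ?_
  simp only [lJ, List.mem_cons, List.not_mem_nil, or_false] at ht
  rcases ht with rfl | rfl | rfl | rfl
  · exact dj0_ok
  · exact dj1_ok
  · exact dj2_ok
  · exact dj3_ok

end Pool.RV.C

namespace Pool.RV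

open Pool.RV.C Kw in
/-- **Block (c) of the cell RV.** -/
theorem block_c : Tplus w0 = 477 / 16 * KO - 205 / 48 * KL := by
  have h0 := sum_val_zero allT_zero
  have h1 := sum_jval_const allJ_const
  rw [allT, List.map_cons, List.sum_cons, List.map_append, List.sum_append, List.map_append,
    List.sum_append, lT_sum, lR_sum, lD_sum, Tm.val] at h0
  rw [allJ, List.map_append, List.sum_append, lJ_sum] at h1
  have h2 := left_end
  simp only [ev] at h0 h1
  push_cast at h0 h1
  linear_combination (1 / 2) * h2 + (287580013933363200 : ℂ)⁻¹ * (h1 - h0)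

end Pool.RV
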