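import Pool.Agent.Work.MP_5955e5_nt.B.Lat

/-!
# Cell RV, block (c): the three types of two-loop terms and `2 T₊` as a sum with an integer weight
(helper52)
-/

set_option autoImplicit false

open Complex

namespace Pool.RV.C

/-- type `A`: `x⁻² y⁻² ȳ⁻¹ z̄⁻¹` -/
noncomputable def fA (x y z : ℂ) : ℂ :=
  x⁻¹ ^ 2 * (y⁻¹ ^ 2 * ((starRingEnd ℂ) y)⁻¹) * ((starRingEnd ℂ) z)⁻¹

/-- type `B`: `x⁻³ y⁻¹ ȳ⁻¹ z̄⁻¹` -/
noncomputable def fB (x y z : ℂ) : ℂ :=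
  x⁻¹ ^ 3 * (y⁻¹ * ((starRingEnd ℂ) y)⁻¹) * ((starRingEnd ℂ) z)⁻¹

/-- type `C`: `x⁻² y⁻¹ ȳ⁻¹ z⁻¹ z̄⁻¹` -/
noncomputable def fC (x y z : ℂ) : ℂ :=
  x⁻¹ ^ 2 * (y⁻¹ * ((starRingEnd ℂ) y)⁻¹) * (z⁻¹ * ((starRingEnd ℂ) z)⁻¹)

lemma fC_swap (x y z : ℂ) : fC x y z = fC x z y := by
  rw [fC, fC]; ring

/-- `C(x;y,z) = -B(x;y;z) - B(x;z;y)` for `x + y + z = 0` (always, with `0⁻¹ = 0`) -/
lemma fC_eq {x y z : ℂ} (h : x + y + z = 0) : fC x y z = -fB x y z - fB x z y := by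
  by_cases hx : x = 0
  · subst hx; simp [fC, fB]
  by_cases hy : y = 0
  · subst hy; simp [fC, fB]
  by_cases hz : z = 0
  · subst hz; simp [fC, fB]
  have hx' : x = -(y + z) := by linear_combination h
  have h1 : x⁻¹ * (y⁻¹ + z⁻¹) = -(y⁻¹ * z⁻¹) := by
    field_simp
    linear_combination h
  have h2 : fB x y z + fB x z y
      = x⁻¹ ^ 2 * ((starRingEnd ℂ) y)⁻¹ * ((starRingEnd ℂ) z)⁻¹ * (x⁻¹ * (y⁻¹ + z⁻¹)) := by
    rw [fB, fB]; ring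
  rw [h1] at h2
  have h3 : fC x y z = -(fB x y z + fB x z y) := by
    rw [h2, fC]; ring
  rw [h3]; ring

/-- relation (R2), for `x + y + z = 0` (always, with `0⁻¹ = 0`) -/
lemma fA_add {x y z : ℂ} (h : x + y + z = 0) :
    fA x y z + fA z y x = fC y x z - fC x y z - fC z x y := by
  by_cases hx : x = 0
  · subst hx; simp [fC, fA]
  by_cases hy : y = 0
  · subst hy; simp [fC, fA]
  by_cases hz : z = 0
  · subst hz; simp [fC, fA]
  have hy' : y = -(x + z) := by linear_combination h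
  have hx2 : (starRingEnd ℂ) x ≠ 0 := (map_ne_zero _).mpr hx
  have hy2 : (starRingEnd ℂ) y ≠ 0 := (map_ne_zero _).mpr hy
  have hz2 : (starRingEnd ℂ) z ≠ 0 := (map_ne_zero _).mpr hz
  have hyc : (starRingEnd ℂ) y = -((starRingEnd ℂ) x + (starRingEnd ℂ) z) := by
    rw [hy', map_neg, map_add]
  simp only [fA, fC]
  generalize (starRingEnd ℂ) x = x' at *
  generalize (starRingEnd ℂ) y = y' at *
  generalize (starRingEnd ℂ) z = z' at *
  field_simp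
  subst hy' hyc
  ring

/-! ### `2 T(a,b)` with an integer weight -/

/-- `2 cos (2 π k / 6)` as an integer -/
def cs (k : ZMod 6) : ℤ :=
  if k = 0 then 2 else if k = 1 then 1 else if k = 2 then -1 else
    if k = 3 then -2 else if k = 4 then -1 else 1

/-- `z = e^{2 π i / 6}` -/
noncomputable def z6 : ℂ := exp (2 * (Real.pi : ℂ) * I / 6)

lemma z6_eq : z6 = 1 / 2 + (Real.sqrt 3 : ℂ) / 2 * I := by
  have h : 2 * (Real.pi : ℂ) * I / 6 = ((Real.pi / 3 : ℝ) : ℂ) * I := by push_cast; ring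
  rw [z6, h, exp_mul_I, ← ofReal_cos, ← ofReal_sin, Real.cos_pi_div_three, Real.sin_pi_div_three]
  push_cast
  ring

lemma z6_sq : z6 ^ 2 = z6 - 1 := by
  have h3 : (Real.sqrt 3 : ℂ) ^ 2 = 3 := by
    rw [← ofReal_pow, Real.sq_sqrt (by norm_num)]
    norm_num
  rw [z6_eq]
  have hI : I ^ 2 = -1 := I_sq
  linear_combination (1 / 4) * I ^ 2 * h3 + (3 / 4) * hI

lemma z6_pow3 : z6 ^ 3 = -1 := by
  have : z6 ^ 3 = z6 * z6 ^ 2 := by ring
  rw [this, z6_sq]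
  have := z6_sq
  linear_combination this

lemma ch_eq_zpow (a v : ℤ × ℤ) : ch a v = z6 ^ (a.1 * v.1 + a.2 * v.2) := by
  rw [ch, z6, ← exp_int_mul]
  congr 1
  ring

lemma z6_zpow_six (k : ℤ) : z6 ^ (6 * k) = 1 := by
  have h : z6 ^ (6 : ℤ) = 1 := by
    have h6 : z6 ^ 6 = 1 := by
      have : z6 ^ 6 = (z6 ^ 3) ^ 2 := by ring
      rw [this, z6_pow3]; norm_num
    exact_mod_cast h6
  rw [zpow_mul, h, one_zpow]

lemma z6_ne_zero : z6 ≠ 0 := exp_ne_zero _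

/-- `χ + χ⁻¹ = 2 cos` -/
lemma z6_zpow_add (k : ℤ) : z6 ^ k + z6 ^ (-k) = ((cs (k : ZMod 6) : ℤ) : ℂ) := by
  have h1 : k = 6 * (k / 6) + k % 6 := (Int.mul_ediv_add_emod k 6).symm
  have hk : z6 ^ k = z6 ^ (k % 6) := by
    conv_lhs => rw [h1, zpow_add₀ z6_ne_zero, z6_zpow_six, one_mul]
  have hk' : z6 ^ (-k) = z6 ^ (-(k % 6)) := by
    rw [zpow_neg, zpow_neg, hk]
  have hc : ((k : ℤ) : ZMod 6) = ((k % 6 : ℤ) : ZMod 6) := by
    rw [ZMod.intCast_eq_intCast_iff_dvd_sub]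
    exact ⟨-(k / 6), by push_cast; linarith [h1]⟩
  rw [hk, hk', hc]
  have hlo := Int.emod_nonneg k (by norm_num : (6 : ℤ) ≠ 0)
  have hhi := Int.emod_lt_of_pos k (by norm_num : (0 : ℤ) < 6)
  generalize k % 6 = r at *
  have h2 := z6_sq
  have h3 := z6_pow3
  have hinv : z6⁻¹ = 1 - z6 := by
    apply inv_eq_of_mul_eq_one_right
    linear_combination -h2
  have e2 : z6 ^ (-2 : ℤ) = -z6 := by
    rw [zpow_neg, ← inv_zpow, hinv]
    have : (1 - z6) ^ (2 : ℤ) = (1 - z6) ^ 2 := by norm_cast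
    rw [this]
    linear_combination h2
  have e1 : z6 ^ (-1 : ℤ) = 1 - z6 := by rw [zpow_neg_one, hinv]
  have e3 : z6 ^ (-3 : ℤ) = -1 := by
    rw [zpow_neg]
    have : z6 ^ (3 : ℤ) = z6 ^ 3 := by norm_cast
    rw [this, h3]; norm_num
  have p2 : z6 ^ (2 : ℤ) = z6 - 1 := by
    have : z6 ^ (2 : ℤ) = z6 ^ 2 := by norm_cast
    rw [this, h2]
  have p3 : z6 ^ (3 : ℤ) = -1 := by
    have : z6 ^ (3 : ℤ) = z6 ^ 3 := by norm_cast
    rw [this, h3]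
  have p4 : z6 ^ (4 : ℤ) = -z6 := by
    have : z6 ^ (4 : ℤ) = z6 ^ 3 * z6 := by
      have : z6 ^ (4 : ℤ) = z6 ^ 4 := by norm_cast
      rw [this]; ring
    rw [this, h3]; ring
  have p5 : z6 ^ (5 : ℤ) = 1 - z6 := by
    have : z6 ^ (5 : ℤ) = z6 ^ 3 * z6 ^ 2 := by
      have : z6 ^ (5 : ℤ) = z6 ^ 5 := by norm_cast
      rw [this]; ring
    rw [this, h3, h2]; ring
  have e4 : z6 ^ (-4 : ℤ) = z6 - 1 := by
    have : z6 ^ (-4 : ℤ) = z6 ^ (-3 : ℤ) * z6 ^ (-1 : ℤ) := by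
      rw [← zpow_add₀ z6_ne_zero]; norm_num
    rw [this, e3, e1]; ring
  have e5 : z6 ^ (-5 : ℤ) = z6 := by
    have : z6 ^ (-5 : ℤ) = z6 ^ (-3 : ℤ) * z6 ^ (-2 : ℤ) := by
      rw [← zpow_add₀ z6_ne_zero]; norm_num
    rw [this, e3, e2]; ring
  interval_cases r
  · have : cs ((0 : ℤ) : ZMod 6) = 2 := by decide
    rw [this]; norm_num
  · have : cs ((1 : ℤ) : ZMod 6) = 1 := by decide
    rw [this, e1]; push_cast; rw [zpow_one]; ring
  · have : cs ((2 : ℤ) : ZMod 6) = -1 := by decide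
    rw [this, e2, p2]; push_cast; ring
  · have : cs ((3 : ℤ) : ZMod 6) = -2 := by decide
    rw [this, e3, p3]; push_cast; ring
  · have : cs ((4 : ℤ) : ZMod 6) = -1 := by decide
    rw [this, e4, p4]; push_cast; ring
  · have : cs ((5 : ℤ) : ZMod 6) = 1 := by decide
    rw [this, e5, p5]; push_cast; ring

/-- the weight of `2 T(a,b)` -/
def wt (a b : ℤ × ℤ) (x : (ℤ × ℤ) × (ℤ × ℤ)) : ℤ :=
  cs ((a.1 * x.1.1 + a.2 * x.1.2 + (b.1 * x.2.1 + b.2 * x.2.2) : ℤ) : ZMod 6)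

lemma ch_mul_add (a b : ℤ × ℤ) (x : (ℤ × ℤ) × (ℤ × ℤ)) :
    ch a x.1 * ch b x.2 + ch a (-x.1) * ch b (-x.2) = ((wt a b x : ℤ) : ℂ) := by
  rw [wt, ← z6_zpow_add, ch_eq_zpow, ch_eq_zpow, ch_eq_zpow, ch_eq_zpow,
    ← zpow_add₀ z6_ne_zero, ← zpow_add₀ z6_ne_zero]
  congr 2
  simp only [Prod.fst_neg, Prod.snd_neg]
  ring

/-- the two-loop term of type `C`, `g3 = -(g1 + g2)` being the first argument -/
noncomputable def tC (w : ℝ) (x : (ℤ × ℤ) × (ℤ × ℤ)) : ℂ :=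
  fC (-(gm w x.1 + gm w x.2)) (gm w x.1) (gm w x.2)

lemma Tterm_eq_tC (a b : ℤ × ℤ) (w : ℝ) (x : (ℤ × ℤ) × (ℤ × ℤ)) :
    Tterm a b w x = ch a x.1 * ch b x.2 * tC w x := by
  rw [Tterm_eq, tC, fC, ui, ub, ui, ub, ui, gm_add, inv_neg]
  ring

lemma tC_neg (w : ℝ) (x : (ℤ × ℤ) × (ℤ × ℤ)) : tC w (-x.1, -x.2) = tC w x := by
  have h : -(-gm w x.1 + -gm w x.2) = gm w x.1 + gm w x.2 := by ring
  simp only [tC, gm_neg]
  rw [h]
  simp only [fC, map_neg, inv_neg]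
  ring

lemma norm_tC_le (w : ℝ) (x : (ℤ × ℤ) × (ℤ × ℤ)) : ‖tC w x‖ ≤ MM w x := by
  have h := norm_Tterm_le 0 0 w x
  rw [Tterm_eq_tC, norm_ch_mul] at h
  exact h

/-- `2 T(a,b) = ∑ wt(a,b) C` -/
theorem T_eq_wt {w : ℝ} (hw : 0 < w) (a b : ℤ × ℤ) :
    HasSum (fun x => ((wt a b x : ℤ) : ℂ) * tC w x) (2 * T a b w) := by
  have h1 : HasSum (fun x => ch a x.1 * ch b x.2 * tC w x) (T a b w) := by
    have := (summable_Tterm hw a b).hasSum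
    exact this.congr_fun (fun x => (Tterm_eq_tC a b w x).symm)
  let e : (ℤ × ℤ) × (ℤ × ℤ) ≃ (ℤ × ℤ) × (ℤ × ℤ) := Equiv.neg _
  have h2 := e.hasSum_iff.mpr h1
  have h3 := h1.add h2
  rw [← two_mul] at h3
  refine h3.congr_fun ?_
  intro x
  have h4 := ch_mul_add a b x
  have h5 : (e x).1 = -x.1 := rfl
  have h6 : (e x).2 = -x.2 := rfl
  have h7 : tC w (e x) = tC w x := tC_neg w x
  simp only [Function.comp_apply, h7, h5, h6]
  linear_combination (-(tC w x)) * h4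

/-- the weight of `2 T₊` -/
def wtP (x : (ℤ × ℤ) × (ℤ × ℤ)) : ℤ :=
  4 * wt (0, 0) (1, 0) x + 2 * wt (0, 0) (3, 0) x + wt (1, 0) (1, 0) x + 6 * wt (1, 0) (4, 0) x
    - 4 * wt (1, 3) (2, 3) x + 4 * wt (1, 3) (4, 3) x + 6 * wt (2, 0) (3, 0) x

/-- **`2 T₊` as one sum with an integer periodic weight** -/
theorem Tplus_eq_wt {w : ℝ} (hw : 0 < w) :
    HasSum (fun x => ((wtP x : ℤ) : ℂ) * tC w x) (2 * Tplus w) := by
  have h1 := (T_eq_wt hw (0, 0) (1, 0)).mul_left 4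
  have h2 := (T_eq_wt hw (0, 0) (3, 0)).mul_left 2
  have h3 := T_eq_wt hw (1, 0) (1, 0)
  have h4 := (T_eq_wt hw (1, 0) (4, 0)).mul_left 6
  have h5 := (T_eq_wt hw (1, 3) (2, 3)).mul_left 4
  have h6 := (T_eq_wt hw (1, 3) (4, 3)).mul_left 4
  have h7 := (T_eq_wt hw (2, 0) (3, 0)).mul_left 6
  have h := (((((h1.add h2).add h3).add h4).sub h5).add h6).add h7
  have e : 2 * Tplus w = 4 * (2 * T (0, 0) (1, 0) w) + 2 * (2 * T (0, 0) (3, 0) w)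
      + 2 * T (1, 0) (1, 0) w + 6 * (2 * T (1, 0) (4, 0) w) - 4 * (2 * T (1, 3) (2, 3) w)
      + 4 * (2 * T (1, 3) (4, 3) w) + 6 * (2 * T (2, 0) (3, 0) w) := by
    rw [Tplus]; ring
  rw [e]
  refine h.congr_fun ?_
  intro x
  rw [wtP]
  push_cast
  ring

/-- the weight depends only on residues: `(m mod 6, n mod 2)` -/
theorem wtP_congr {x y : (ℤ × ℤ) × (ℤ × ℤ)} (h1 : (6 : ℤ) ∣ x.1.1 - y.1.1)
    (h2 : (2 : ℤ) ∣ x.1.2 - y.1.2) (h3 : (6 : ℤ) ∣ x.2.1 - y.2.1) (h4 : (2 : ℤ) ∣ x.2.2 - y.2.2) :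
    wtP x = wtP y := by
  obtain ⟨c1, h1⟩ := h1
  obtain ⟨c2, h2⟩ := h2
  obtain ⟨c3, h3⟩ := h3
  obtain ⟨c4, h4⟩ := h4
  have e1 : x.1.1 = y.1.1 + 6 * c1 := by linarith
  have e2 : x.1.2 = y.1.2 + 2 * c2 := by linarith
  have e3 : x.2.1 = y.2.1 + 6 * c3 := by linarith
  have e4 : x.2.2 = y.2.2 + 2 * c4 := by linarith
  have h6 : (6 : ZMod 6) = 0 := rfl
  simp only [wtP, wt, e1, e2, e3, e4]
  push_cast
  have s1 : (0 : ZMod 6) * ((y.1.1 : ZMod 6) + 6 * (c1 : ZMod 6)) = 0 * (y.1.1 : ZMod 6) := by ring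
  congr 1
  · congr 1
    · congr 1
      · congr 1
        · congr 1
          · congr 1
            · congr 2
              linear_combination (c3 : ZMod 6) * h6
            · congr 2
              linear_combination (3 * c3 : ZMod 6) * h6
          · congr 1
            linear_combination (c1 + c3 : ZMod 6) * h6
        · congr 2
          linear_combination (c1 + 4 * c3 : ZMod 6) * h6
      · congr 2
        linear_combination (c1 + c2 + 2 * c3 + c4 : ZMod 6) * h6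
    · congr 2
      linear_combination (c1 + c2 + 4 * c3 + c4 : ZMod 6) * h6
  · congr 2
    linear_combination (2 * c1 + 3 * c3 : ZMod 6) * h6

end Pool.RV.C
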