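import Pool.Agent.Work.MP_5955e5_nt.C.Kw

/-!
# Cell RV, block (c): checker, part 1: pushes of tables, totals (helper17)
-/

set_option autoImplicit false

open Complex ComplexConjugate

namespace Pool.RV.C

open Kw

/-! ### pushes -/

/-- application of an integer matrix, integers only -/
def M4.ap (A : M4) (v : V4) : V4 :=
  ((A.a11 * v.1.1 + A.a12 * v.1.2 + A.a13 * v.2.1 + A.a14 * v.2.2,
    A.a21 * v.1.1 + A.a22 * v.1.2 + A.a23 * v.2.1 + A.a24 * v.2.2),
   (A.a31 * v.1.1 + A.a32 * v.1.2 + A.a33 * v.2.1 + A.a34 * v.2.2,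
    A.a41 * v.1.1 + A.a42 * v.1.2 + A.a43 * v.2.1 + A.a44 * v.2.2))

lemma M4.ap_eq (A : M4) (v : V4) : A.ap v = A.app v := rfl

/-- `a ∣ b` as a Boolean -/
def dv (a b : ℤ) : Bool := decide (b % a = 0)

lemma dv_dvd {a b : ℤ} (h : dv a b = true) : a ∣ b := by
  rw [dv, decide_eq_true_eq] at h
  exact Int.dvd_of_emod_eq_zero h

/-- one row of the period condition -/
def rowOK (p : V4) (q a b c d : ℤ) : Bool :=
  dv q (a * p.1.1) && dv q (b * p.1.2) && dv q (c * p.2.1) && dv q (d * p.2.2)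

lemma rowOK_spec {p : V4} {q a b c d : ℤ} (h : rowOK p q a b c d = true) (r w : V4) :
    ∃ x : ℤ, a * (r.1.1 + p.1.1 * w.1.1) + b * (r.1.2 + p.1.2 * w.1.2)
      + c * (r.2.1 + p.2.1 * w.2.1) + d * (r.2.2 + p.2.2 * w.2.2)
      = (a * r.1.1 + b * r.1.2 + c * r.2.1 + d * r.2.2) + q * x := by
  simp only [rowOK, Bool.and_eq_true] at h
  obtain ⟨⟨⟨h1, h2⟩, h3⟩, h4⟩ := h
  obtain ⟨x1, h1⟩ := dv_dvd h1
  obtain ⟨x2, h2⟩ := dv_dvd h2
  obtain ⟨x3, h3⟩ := dv_dvd h3
  obtain ⟨x4, h4⟩ := dv_dvd h4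
  refine ⟨x1 * w.1.1 + x2 * w.1.2 + x3 * w.2.1 + x4 * w.2.2, ?_⟩
  linear_combination w.1.1 * h1 + w.1.2 * h2 + w.2.1 * h3 + w.2.2 * h4

/-- `A` maps the period lattice of `p` into the period lattice of `q` -/
def perOK (p q : V4) (A : M4) : Bool :=
  rowOK p q.1.1 A.a11 A.a12 A.a13 A.a14 && rowOK p q.1.2 A.a21 A.a22 A.a23 A.a24
    && rowOK p q.2.1 A.a31 A.a32 A.a33 A.a34 && rowOK p q.2.2 A.a41 A.a42 A.a43 A.a44

/-- `r + p w` -/
def sft (r p w : V4) : V4 :=
  ((r.1.1 + p.1.1 * w.1.1, r.1.2 + p.1.2 * w.1.2), (r.2.1 + p.2.1 * w.2.1, r.2.2 + p.2.2 * w.2.2))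

lemma perOK_spec {p q : V4} {A : M4} (h : perOK p q A = true) (r w : V4) :
    ∃ w', A.ap (sft r p w) = sft (A.ap r) q w' := by
  simp only [perOK, Bool.and_eq_true] at h
  obtain ⟨⟨⟨h1, h2⟩, h3⟩, h4⟩ := h
  obtain ⟨x1, e1⟩ := rowOK_spec h1 r w
  obtain ⟨x2, e2⟩ := rowOK_spec h2 r w
  obtain ⟨x3, e3⟩ := rowOK_spec h3 r w
  obtain ⟨x4, e4⟩ := rowOK_spec h4 r w
  refine ⟨((x1, x2), (x3, x4)), ?_⟩
  simp only [M4.ap, sft]
  rw [e1, e2, e3, e4]

lemma Tb.vl_sft (T : Tb) (k1 k2 : Bool) (r w : V4) :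
    T.vl k1 k2 (sft r (pr k1, pr k2) w) = T.vl k1 k2 r := by
  simp only [Tb.vl, sft, cl_add]

lemma exists_sft (k1 k2 : Bool) (v : V4) :
    ∃ w, v = sft (rp k1 (cl k1 v.1), rp k2 (cl k2 v.2)) (pr k1, pr k2) w := by
  obtain ⟨x1, y1, h1⟩ := rp_cl k1 v.1
  obtain ⟨x2, y2, h2⟩ := rp_cl k2 v.2
  refine ⟨((x1, y1), (x2, y2)), ?_⟩
  simp only [sft]
  exact Prod.ext h1 h2

/-- all pairs of classes -/
def allR (p : ℕ → ℕ → Bool) : Bool :=
  (List.range 12).all fun i => (List.range 12).all fun j => p i j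

lemma allR_spec {p : ℕ → ℕ → Bool} (h : allR p = true) {i j : ℕ} (hi : i < 12) (hj : j < 12) :
    p i j = true := by
  simp only [allR, List.all_eq_true, List.mem_range] at h
  exact h i hi j hj

/-- the six divisibilities -/
def six (v : V4) : Bool := dv 6 v.1.1 && dv 6 v.1.2 && dv 6 v.2.1 && dv 6 v.2.2

/-- check of a push: `g (M v) = f v` and `g` is supported on the image of `M` -/
def pushOK (k1 k2 k : Bool) (M C : M4) (f g : Tb) : Bool :=
  decide (C.mul M = M4.scal 6) && decide (M.mul C = M4.scal 6)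
    && perOK (pr k1, pr k2) (pr k, pr k) M && perOK (pr k, pr k) ((6, 6), (6, 6)) C
    && allR (fun i j => decide (g.vl k k (M.ap (rp k1 i, rp k2 j)) = f.en i j))
    && allR (fun i j => decide (g.en i j = 0) || six (C.ap (rp k i, rp k j)))

lemma rp_vl (T : Tb) (k1 k2 : Bool) (v : V4) : T.vl k1 k2 v = T.en (cl k1 v.1) (cl k2 v.2) := rfl

/-- **push of a table along an integer matrix**, pointwise form -/
theorem push_spec {k1 k2 k : Bool} {M C : M4} {f g : Tb} (h : pushOK k1 k2 k M C f g = true) :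
    Function.Injective (M.app : V4 → V4) ∧
    (∀ v, (fun u => ev (g.vl k k u)) (M.app v) = (fun v => ev (f.vl k1 k2 v)) v) ∧
    (∀ u, (fun u => ev (g.vl k k u)) u ≠ 0 → u ∈ Set.range (M.app : V4 → V4)) := by
  simp only [pushOK, Bool.and_eq_true, decide_eq_true_eq] at h
  obtain ⟨⟨⟨⟨⟨hCM, hMC⟩, hpM⟩, hpC⟩, h1⟩, h2⟩ := h
  have hinj : Function.Injective (M.app : V4 → V4) :=
    M4.app_injective (A := M) (C := C) (N := 6) (by norm_num) hCM
  refine ⟨hinj, ?_, ?_⟩
  · intro v
    obtain ⟨w, hw⟩ := exists_sft k1 k2 v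
    obtain ⟨w', hw'⟩ := perOK_spec hpM (rp k1 (cl k1 v.1), rp k2 (cl k2 v.2)) w
    have e1 : (M.app v : V4) = M.ap v := (M.ap_eq v).symm
    have h3 := allR_spec h1 (cl_lt k1 v.1) (cl_lt k2 v.2)
    rw [decide_eq_true_eq] at h3
    have e2 : g.vl k k (M.ap v) = f.vl k1 k2 v := by
      conv_lhs => rw [hw, hw', Tb.vl_sft]
      rw [h3, rp_vl]
    show ev (g.vl k k (M.app v)) = ev (f.vl k1 k2 v)
    rw [e1, e2]
  · intro u hu
    have hu' : g.vl k k u ≠ 0 := fun h0 => hu (by show ev (g.vl k k u) = 0; rw [h0, ev_zero])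
    obtain ⟨w, hw⟩ := exists_sft k k u
    obtain ⟨w', hw'⟩ := perOK_spec hpC (rp k (cl k u.1), rp k (cl k u.2)) w
    have h3 := allR_spec h2 (cl_lt k u.1) (cl_lt k u.2)
    rw [Bool.or_eq_true, decide_eq_true_eq] at h3
    rcases h3 with h3 | h3
    · exact absurd h3 hu'
    simp only [six, Bool.and_eq_true] at h3
    obtain ⟨⟨⟨d1, d2⟩, d3⟩, d4⟩ := h3
    obtain ⟨x1, d1⟩ := dv_dvd d1
    obtain ⟨x2, d2⟩ := dv_dvd d2
    obtain ⟨x3, d3⟩ := dv_dvd d3
    obtain ⟨x4, d4⟩ := dv_dvd d4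
    refine ⟨((x1 + w'.1.1, x2 + w'.1.2), (x3 + w'.2.1, x4 + w'.2.2)), ?_⟩
    have hCu : C.ap u = ((6 * (x1 + w'.1.1), 6 * (x2 + w'.1.2)),
        (6 * (x3 + w'.2.1), 6 * (x4 + w'.2.2))) := by
      rw [← hw] at hw'
      rw [hw']
      simp only [sft]
      rw [d1, d2, d3, d4]
      ext <;> simp only <;> ring
    have h6 : (M.mul C).app u = M.app (C.app u) := M4.app_mul M C u
    rw [hMC, M4.app_scal, ← C.ap_eq u, hCu] at h6
    simp only [Prod.mk.injEq, Int.cast_id, M4.app] at h6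
    obtain ⟨⟨f1, f2⟩, f3, f4⟩ := h6
    have s6 : (6 : ℤ) ≠ 0 := by norm_num
    ext
    · apply mul_left_cancel₀ s6
      simp only [M4.app, Int.cast_id]
      linear_combination -f1
    · apply mul_left_cancel₀ s6
      simp only [M4.app, Int.cast_id]
      linear_combination -f2
    · apply mul_left_cancel₀ s6
      simp only [M4.app, Int.cast_id]
      linear_combination -f3
    · apply mul_left_cancel₀ s6
      simp only [M4.app, Int.cast_id]
      linear_combination -f4

/-- **push of a table along an integer matrix** -/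
theorem push_sum {k1 k2 k : Bool} {M C : M4} {f g : Tb} (h : pushOK k1 k2 k M C f g = true)
    (F : V4 → ℂ) : ∑' v, ev (f.vl k1 k2 v) * F (M.app v) = ∑' u, ev (g.vl k k u) * F u := by
  obtain ⟨h1, h2, h3⟩ := push_spec h
  exact push h1 h2 h3 F

/-! ### terms and totals -/

/-- a two-loop term: coefficient, type, lattice, table -/
structure Tm where
  co : Kw
  ty : Bool
  k : Bool
  tb : Tb

/-- value of a term -/
noncomputable def Tm.val (t : Tm) : ℂ := ev t.co * SS t.ty t.k t.tb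

/-- a one-loop term -/
structure Jm where
  co : Kw
  k : Bool
  tb : List Kw

/-- value of a one-loop term -/
noncomputable def Jm.val (t : Jm) : ℂ := ev t.co * JJ t.k t.tb

/-- total table at a class -/
def tot (l : List Tm) (ty k : Bool) (i j : ℕ) : Kw :=
  l.foldr (fun t acc => (if t.ty = ty ∧ t.k = k then t.co * t.tb.en i j else 0) + acc) 0

/-- total one-loop table at a class -/
def jtot (l : List Jm) (k : Bool) (i : ℕ) : Kw :=
  l.foldr (fun t acc => (if t.k = k then t.co * t.tb.getD i 0 else 0) + acc) 0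

/-- sum with total weight -/
noncomputable def TT (l : List Tm) (ty k : Bool) : ℂ :=
  ∑' u : V4, ev (tot l ty k (cl k u.1) (cl k u.2)) * FF ty k u

lemma summable_tot (l : List Tm) (ty k : Bool) :
    Summable fun u : V4 => ev (tot l ty k (cl k u.1) (cl k u.2)) * FF ty k u := by
  obtain ⟨M, hM⟩ := bdd_fin (F := fun i j => ev (tot l ty k i j))
  exact summable_FF ty k (φ := fun u => ev (tot l ty k (cl k u.1) (cl k u.2)))
    fun u => hM _ _ (cl_lt _ _) (cl_lt _ _)

lemma summable_SS (ty k : Bool) (T : Tb) : Summable fun u : V4 => ev (T.vl k k u) * FF ty k u := by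
  obtain ⟨M, hM⟩ := bdd_Tb T k k
  exact summable_FF ty k hM

lemma TT_cons (t : Tm) (l : List Tm) (ty k : Bool) :
    TT (t :: l) ty k = (if t.ty = ty ∧ t.k = k then t.val else 0) + TT l ty k := by
  by_cases h : t.ty = ty ∧ t.k = k
  · rw [if_pos h]
    obtain ⟨rfl, rfl⟩ := h
    rw [Tm.val, SS, ← tsum_mul_left, TT, TT,
      ← ((summable_SS t.ty t.k t.tb).mul_left (ev t.co)).tsum_add (summable_tot l t.ty t.k)]
    refine tsum_congr fun u => ?_
    have : tot (t :: l) t.ty t.k (cl t.k u.1) (cl t.k u.2)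
        = t.co * t.tb.vl t.k t.k u + tot l t.ty t.k (cl t.k u.1) (cl t.k u.2) := by
      simp [tot, Tb.vl]
    rw [this, ev_add, ev_mul]
    ring
  · rw [if_neg h, zero_add, TT, TT]
    refine tsum_congr fun u => ?_
    have : tot (t :: l) ty k (cl k u.1) (cl k u.2) = 0 + tot l ty k (cl k u.1) (cl k u.2) := by
      simp [tot, h]
    rw [this, ev_add, ev_zero, zero_add]

lemma TT_nil (ty k : Bool) : TT [] ty k = 0 := by
  rw [TT]
  have : ∀ u : V4, ev (tot [] ty k (cl k u.1) (cl k u.2)) * FF ty k u = 0 := fun u => by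
    simp only [tot, List.foldr_nil, ev_zero, zero_mul]
  simp only [this, tsum_zero]

/-- **totals**: the sum of all terms is the sum of the four total sums -/
theorem sum_val (l : List Tm) : (l.map Tm.val).sum
    = TT l false false + TT l false true + TT l true false + TT l true true := by
  induction l with
  | nil => simp only [List.map_nil, List.sum_nil, TT_nil, add_zero]
  | cons t l ih =>
    rw [List.map_cons, List.sum_cons, ih, TT_cons, TT_cons, TT_cons, TT_cons]
    obtain ⟨co, ty, k, tb⟩ := t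
    cases ty <;> cases k <;> simp <;> ring

/-- one-loop sum with total weight -/
noncomputable def JT (l : List Jm) (k : Bool) : ℂ :=
  ∑' u : ℤ × ℤ, ev (jtot l k (cl k u)) * fJ (gk k u)

lemma bdd_J {F : ℕ → ℂ} : ∃ M : ℝ, ∀ i : ℕ, i < 12 → ‖F i‖ ≤ M :=
  ⟨∑ i ∈ Finset.range 12, ‖F i‖, fun _ hi =>
    Finset.single_le_sum (f := fun i => ‖F i‖) (fun _ _ => norm_nonneg _) (Finset.mem_range.mpr hi)⟩

lemma summable_jtot (l : List Jm) (k : Bool) :
    Summable fun u : ℤ × ℤ => ev (jtot l k (cl k u)) * fJ (gk k u) := by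
  obtain ⟨M, hM⟩ := bdd_J (F := fun i => ev (jtot l k i))
  exact summable_fJ k (φ := fun u => ev (jtot l k (cl k u))) fun u => hM _ (cl_lt _ _)

lemma summable_JJ (k : Bool) (t : List Kw) :
    Summable fun u : ℤ × ℤ => ev (t.getD (cl k u) 0) * fJ (gk k u) := by
  obtain ⟨M, hM⟩ := bdd_J (F := fun i => ev (t.getD i 0))
  exact summable_fJ k (φ := fun u => ev (t.getD (cl k u) 0)) fun u => hM _ (cl_lt _ _)

lemma JT_cons (t : Jm) (l : List Jm) (k : Bool) :
    JT (t :: l) k = (if t.k = k then t.val else 0) + JT l k := by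
  by_cases h : t.k = k
  · rw [if_pos h]
    subst h
    rw [Jm.val, JJ, ← tsum_mul_left, JT, JT,
      ← ((summable_JJ t.k t.tb).mul_left (ev t.co)).tsum_add (summable_jtot l t.k)]
    refine tsum_congr fun u => ?_
    have : jtot (t :: l) t.k (cl t.k u)
        = t.co * t.tb.getD (cl t.k u) 0 + jtot l t.k (cl t.k u) := by
      simp [jtot]
    rw [this, ev_add, ev_mul]
    ring
  · rw [if_neg h, zero_add, JT, JT]
    refine tsum_congr fun u => ?_
    have : jtot (t :: l) k (cl k u) = 0 + jtot l k (cl k u) := by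
      simp [jtot, h]
    rw [this, ev_add, ev_zero, zero_add]

lemma JT_nil (k : Bool) : JT [] k = 0 := by
  rw [JT]
  have : ∀ u : ℤ × ℤ, ev (jtot [] k (cl k u)) * fJ (gk k u) = 0 := fun u => by
    simp only [jtot, List.foldr_nil, ev_zero, zero_mul]
  simp only [this, tsum_zero]

/-- totals, one-loop -/
theorem sum_jval (l : List Jm) : (l.map Jm.val).sum = JT l false + JT l true := by
  induction l with
  | nil => simp only [List.map_nil, List.sum_nil, JT_nil, add_zero]
  | cons t l ih =>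
    rw [List.map_cons, List.sum_cons, ih, JT_cons, JT_cons]
    obtain ⟨co, k, tb⟩ := t
    cases k <;> simp <;> ring

/-- the check that all two-loop totals vanish -/
def zeroOK (l : List Tm) : Bool :=
  allR (fun i j => decide (tot l false false i j = 0) && decide (tot l false true i j = 0)
    && decide (tot l true false i j = 0) && decide (tot l true true i j = 0))

theorem sum_val_zero {l : List Tm} (h : zeroOK l = true) : (l.map Tm.val).sum = 0 := by
  have key : ∀ ty k : Bool, TT l ty k = 0 := by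
    intro ty k
    have h1 : ∀ u : V4, tot l ty k (cl k u.1) (cl k u.2) = 0 := by
      intro u
      have h2 := allR_spec h (cl_lt k u.1) (cl_lt k u.2)
      simp only [Bool.and_eq_true, decide_eq_true_eq] at h2
      cases ty <;> cases k
      · exact h2.1.1.1
      · exact h2.1.1.2
      · exact h2.1.2
      · exact h2.2
    rw [TT]
    simp only [h1, ev_zero, zero_mul, tsum_zero]
  rw [sum_val, key, key, key, key]
  ring

/-- the check that all one-loop totals are constant -/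
def constOK (l : List Jm) (c0 c1 : Kw) : Bool :=
  (List.range 12).all fun i => decide (jtot l false i = c0) && decide (jtot l true i = c1)

lemma JJ_const_false : ∑' u : ℤ × ℤ, fJ (gk false u) = KO := by
  rw [← J0_one]
  refine tsum_congr fun u => ?_
  congr 1
  simp only [gk, b1, b2, Bool.false_eq_true, if_false, ev]
  push_cast; ring

lemma JJ_const_true : ∑' u : ℤ × ℤ, fJ (gk true u) = (1 / 729) * KL := by
  rw [← J1_one]
  refine tsum_congr fun u => ?_
  congr 1
  simp only [gk, b1, b2, if_true, ev]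
  push_cast; ring

theorem sum_jval_const {l : List Jm} {c0 c1 : Kw} (h : constOK l c0 c1 = true) :
    (l.map Jm.val).sum = ev c0 * KO + ev c1 * ((1 / 729) * KL) := by
  simp only [constOK, List.all_eq_true, List.mem_range, Bool.and_eq_true, decide_eq_true_eq] at h
  rw [sum_jval, JT, JT]
  have h0 : ∀ u : ℤ × ℤ, jtot l false (cl false u) = c0 := fun u => (h _ (cl_lt _ _)).1
  have h1 : ∀ u : ℤ × ℤ, jtot l true (cl true u) = c1 := fun u => (h _ (cl_lt _ _)).2
  simp only [h0, h1, tsum_mul_left, JJ_const_false, JJ_const_true]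

end Pool.RV.C
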