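import Pool.Agent.Work.MP_5955e5_nt.C.TItem

/-!
# Cell RV, block (c): the relations (R2) and the distribution relations (D) for `a_k`, `b_k`
(helper16)

Standard legs `(-(g₁+g₂), g₁, g₂)`; `SA G φ = ∑ φ stA`, `SB G φ = ∑ φ stB`.
-/

set_option autoImplicit false

open Complex ComplexConjugate

namespace Pool.RV.C

/-- the standard sum of type `A` with weight `φ` -/
noncomputable def SA (G : ℤ × ℤ → ℂ) (φ : VV → ℂ) : ℂ := ∑' v, φ v * stA G v

/-- the standard sum of type `B` with weight `φ` -/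
noncomputable def SB (G : ℤ × ℤ → ℂ) (φ : VV → ℂ) : ℂ := ∑' v, φ v * stB G v

/-- `(v₁, v₂) ↦ (v₁, -(v₁+v₂))`, an involution -/
def e2 : VV ≃ VV where
  toFun v := (v.1, -(v.1 + v.2))
  invFun v := (v.1, -(v.1 + v.2))
  left_inv v := by ext <;> simp
  right_inv v := by ext <;> simp

/-- `(v₁, v₂) ↦ (-(v₁+v₂), v₂)`, an involution -/
def e3 : VV ≃ VV where
  toFun v := (-(v.1 + v.2), v.2)
  invFun v := (-(v.1 + v.2), v.2)
  left_inv v := by ext <;> simp
  right_inv v := by ext <;> simp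

/-- `(v₁, v₂) ↦ (v₂, -(v₁+v₂))`, of order three -/
def e4 : VV ≃ VV where
  toFun v := (v.2, -(v.1 + v.2))
  invFun v := (-(v.1 + v.2), v.1)
  left_inv v := by ext <;> simp
  right_inv v := by ext <;> simp

/-- the swap -/
def e5 : VV ≃ VV where
  toFun v := (v.2, v.1)
  invFun v := (v.2, v.1)
  left_inv v := rfl
  right_inv v := rfl

lemma tsum_equiv_sub (e : VV ≃ VV) (φ F : VV → ℂ) :
    ∑' v, φ v * F (e v) = ∑' u, φ (e.symm u) * F u := by
  rw [← e.tsum_eq (fun u => φ (e.symm u) * F u)]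
  exact tsum_congr fun v => by rw [e.symm_apply_apply]

/-- **(R2)** for arbitrary bounded weights. -/
theorem r2_rel {G : ℤ × ℤ → ℂ} (h : Lat G) {φ : VV → ℂ} {M : ℝ} (hφ : ∀ v, ‖φ v‖ ≤ M) :
    SA G φ + SA G (fun v => φ (v.1, -(v.1 + v.2))) =
      SB G φ + SB G (fun v => φ (v.2, v.1)) + SB G (fun v => φ (v.2, -(v.1 + v.2)))
        + SB G (fun v => φ (v.1, -(v.1 + v.2)))
        - SB G (fun v => φ (-(v.1 + v.2), v.2)) - SB G (fun v => φ (-(v.1 + v.2), v.1)) := by
  have key : ∀ v : VV, stA G v + stA G (e2 v) =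
      stB G v + stB G (e5 v) + stB G (e4.symm v) + stB G (e2 v) - stB G (e3 v) - stB G (e4 v) := by
    intro v
    have hs : -(G v.1 + G v.2) + G v.1 + G v.2 = 0 := by ring
    have hA := fA_add hs
    have h1 : (-(G v.1 + G v.2)) = G (-(v.1 + v.2)) := by rw [lat_neg h, h.add]
    have c1 : fC (G v.1) (-(G v.1 + G v.2)) (G v.2) =
        -fB (G v.1) (-(G v.1 + G v.2)) (G v.2) - fB (G v.1) (G v.2) (-(G v.1 + G v.2)) :=
      fC_eq (by ring)
    have c2 : fC (-(G v.1 + G v.2)) (G v.1) (G v.2) =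
        -fB (-(G v.1 + G v.2)) (G v.1) (G v.2) - fB (-(G v.1 + G v.2)) (G v.2) (G v.1) :=
      fC_eq (by ring)
    have c3 : fC (G v.2) (-(G v.1 + G v.2)) (G v.1) =
        -fB (G v.2) (-(G v.1 + G v.2)) (G v.1) - fB (G v.2) (G v.1) (-(G v.1 + G v.2)) :=
      fC_eq (by ring)
    rw [c1, c2, c3] at hA
    have s1 : stA G v = fA (-(G v.1 + G v.2)) (G v.1) (G v.2) := rfl
    have s2 : stA G (e2 v) = fA (G v.2) (G v.1) (-(G v.1 + G v.2)) := by
      have : e2 v = (v.1, -(v.1 + v.2)) := rfl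
      rw [this, stA]
      simp only [← h1]
      congr 1; ring
    have t1 : stB G v = fB (-(G v.1 + G v.2)) (G v.1) (G v.2) := rfl
    have t5 : stB G (e5 v) = fB (-(G v.1 + G v.2)) (G v.2) (G v.1) := by
      have : e5 v = (v.2, v.1) := rfl
      rw [this, stB, add_comm]
    have t6 : stB G (e4.symm v) = fB (G v.2) (-(G v.1 + G v.2)) (G v.1) := by
      have : e4.symm v = (-(v.1 + v.2), v.1) := rfl
      rw [this, stB]
      simp only [← h1]
      congr 1; ring
    have t2 : stB G (e2 v) = fB (G v.2) (G v.1) (-(G v.1 + G v.2)) := by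
      have : e2 v = (v.1, -(v.1 + v.2)) := rfl
      rw [this, stB]
      simp only [← h1]
      congr 1; ring
    have t3 : stB G (e3 v) = fB (G v.1) (-(G v.1 + G v.2)) (G v.2) := by
      have : e3 v = (-(v.1 + v.2), v.2) := rfl
      rw [this, stB]
      simp only [← h1]
      congr 1; ring
    have t4 : stB G (e4 v) = fB (G v.1) (G v.2) (-(G v.1 + G v.2)) := by
      have : e4 v = (v.2, -(v.1 + v.2)) := rfl
      rw [this, stB]
      simp only [← h1]
      congr 1; ring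
    rw [s1, s2, t1, t5, t6, t2, t3, t4, hA]
    ring
  have hsA := h.summable_stA hφ
  have hsB := h.summable_stB hφ
  have hA' : ∀ e : VV ≃ VV, Summable fun v => φ v * stA G (e v) := fun e => by
    have h1 : Summable fun u => φ (e.symm u) * stA G u := h.summable_stA fun v => hφ _
    have h2 := (e.summable_iff).mpr h1
    refine h2.congr fun v => ?_
    simp
  have hB' : ∀ e : VV ≃ VV, Summable fun v => φ v * stB G (e v) := fun e => by
    have h1 : Summable fun u => φ (e.symm u) * stB G u := h.summable_stB fun v => hφ _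
    have h2 := (e.summable_iff).mpr h1
    refine h2.congr fun v => ?_
    simp
  have hL : ∑' v, (φ v * stA G v + φ v * stA G (e2 v)) =
      ∑' v, (φ v * stB G v + φ v * stB G (e5 v) + φ v * stB G (e4.symm v) + φ v * stB G (e2 v)
        - φ v * stB G (e3 v) - φ v * stB G (e4 v)) := by
    refine tsum_congr fun v => ?_
    have := key v
    linear_combination φ v * this
  rw [Summable.tsum_add hsA (hA' e2),
    Summable.tsum_sub ((((hsB.add (hB' e5)).add (hB' e4.symm)).add (hB' e2)).sub (hB' e3)) (hB' e4),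
    Summable.tsum_sub (((hsB.add (hB' e5)).add (hB' e4.symm)).add (hB' e2)) (hB' e3),
    Summable.tsum_add ((hsB.add (hB' e5)).add (hB' e4.symm)) (hB' e2),
    Summable.tsum_add (hsB.add (hB' e5)) (hB' e4.symm),
    Summable.tsum_add hsB (hB' e5),
    tsum_equiv_sub e2, tsum_equiv_sub e5, tsum_equiv_sub e4.symm, tsum_equiv_sub e2,
    tsum_equiv_sub e3, tsum_equiv_sub e4] at hL
  exact hL


open Kw

/-! ### the same in table form -/

/-- `g` is the table `f` pushed along the matrix `M` (from `k1 × k2` to `k × k`) -/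
def Pu (k1 k2 k : Bool) (M : M4) (f g : Tb) : Prop :=
  ∀ F : V4 → ℂ, ∑' v, ev (f.vl k1 k2 v) * F (M.app v) = ∑' u, ev (g.vl k k u) * F u

/-- **(D)** -/
theorem D_item {ty k k' : Bool} {lam : Kw} {M : M4} {f g : Tb} (hl : lam ≠ 0)
    (hp : Pu k k k' M f g) (h2 : (lg2 k').cp M = (lg2 k).sm lam)
    (h3 : (lg3 k').cp M = (lg3 k).sm lam) :
    SS ty k f = ev (lam * lam * (lam * lam) * (cj lam * cj lam)) * SS ty k' g := by
  have g2 : ∀ v : V4, gk k' (M.app v).1 = ev lam * gk k v.1 := fun v => by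
    rw [← lg2_at, ← lg2_at, ← Fm.at_cp, h2, Fm.at_sm]
  have g3 : ∀ v : V4, gk k' (M.app v).2 = ev lam * gk k v.2 := fun v => by
    rw [← lg3_at, ← lg3_at, ← Fm.at_cp, h3, Fm.at_sm]
  have hl' := ev_ne_zero hl
  have hc : (ev lam) ^ 4 * conj (ev lam) ^ 2 =
      ev (lam * lam * (lam * lam) * (cj lam * cj lam)) := by
    simp only [ev_mul, ev_cj]; ring
  have hF : ∀ v : V4, FF ty k' (M.app v) = fJ (ev lam) * FF ty k v := fun v => by
    have hs : -(ev lam * gk k v.1 + ev lam * gk k v.2) = ev lam * -(gk k v.1 + gk k v.2) := by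
      ring
    cases ty
    · simp only [FF, Bool.false_eq_true, if_false, g2, g3, hs]
      rw [fA_mul]
    · simp only [FF, if_true, g2, g3, hs]
      rw [fB_mul]
  have h := hp (FF ty k')
  rw [SS, SS, ← h, ← hc, ← tsum_mul_left]
  refine tsum_congr fun v => ?_
  rw [hF]
  have := fJ_cancel hl' (ev (f.vl k k v) * FF ty k v)
  linear_combination -this

/-- `(v₁, -(v₁+v₂))` -/
def mZX : M4 := ⟨1, 0, 0, 0, 0, 1, 0, 0, -1, 0, -1, 0, 0, -1, 0, -1⟩

/-- `(v₂, v₁)` -/
def mYZ : M4 := ⟨0, 0, 1, 0, 0, 0, 0, 1, 1, 0, 0, 0, 0, 1, 0, 0⟩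

/-- `(-(v₁+v₂), v₂)` -/
def mXY : M4 := ⟨-1, 0, -1, 0, 0, -1, 0, -1, 0, 0, 1, 0, 0, 0, 0, 1⟩

/-- `(v₂, -(v₁+v₂))` -/
def mC : M4 := ⟨0, 0, 1, 0, 0, 0, 0, 1, -1, 0, -1, 0, 0, -1, 0, -1⟩

/-- `(-(v₁+v₂), v₁)` -/
def mCs : M4 := ⟨-1, 0, -1, 0, 0, -1, 0, -1, 1, 0, 0, 0, 0, 1, 0, 0⟩

lemma mZX_app (v : V4) : mZX.app v = e2 v := by
  simp only [mZX, M4.app, e2, Equiv.coe_fn_mk]
  ext <;> simp <;> ring

lemma mYZ_app (v : V4) : mYZ.app v = e5 v := by
  simp only [mYZ, M4.app, e5, Equiv.coe_fn_mk]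
  ext <;> simp

lemma mXY_app (v : V4) : mXY.app v = e3 v := by
  simp only [mXY, M4.app, e3, Equiv.coe_fn_mk]
  ext <;> simp <;> ring

lemma mC_app (v : V4) : mC.app v = e4 v := by
  simp only [mC, M4.app, e4, Equiv.coe_fn_mk]
  ext <;> simp <;> ring

lemma mCs_app (v : V4) : mCs.app v = e4.symm v := by
  simp only [mCs, M4.app, e4, Equiv.coe_fn_symm_mk]
  ext <;> simp <;> ring

/-- **(R2)** -/
theorem R2_item {k : Bool} {f fZX fYZ fXY fC fCs : Tb} (h1 : Pu k k k mZX f fZX)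
    (h2 : Pu k k k mYZ f fYZ) (h3 : Pu k k k mXY f fXY) (h4 : Pu k k k mC f fC)
    (h5 : Pu k k k mCs f fCs) :
    SS false k f + SS false k fZX =
      SS true k f + SS true k fYZ + SS true k fCs + SS true k fZX
        - SS true k fXY - SS true k fC := by
  obtain ⟨M, hM⟩ := bdd_Tb f k k
  have h := r2_rel (lat_gk k) (φ := fun v => ev (f.vl k k v)) hM
  have a1 : SA (gk k) (fun v => ev (f.vl k k (v.1, -(v.1 + v.2)))) = SS false k fZX := by
    have := h1 (FF false k)
    simp only [mZX_app] at this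
    rw [SS, ← this, SA]
    exact (tsum_equiv_sub e2 (fun v => ev (f.vl k k v)) (stA (gk k))).symm
  have b1 : SB (gk k) (fun v => ev (f.vl k k (v.1, -(v.1 + v.2)))) = SS true k fZX := by
    have := h1 (FF true k)
    simp only [mZX_app] at this
    rw [SS, ← this, SB]
    exact (tsum_equiv_sub e2 (fun v => ev (f.vl k k v)) (stB (gk k))).symm
  have b2 : SB (gk k) (fun v => ev (f.vl k k (v.2, v.1))) = SS true k fYZ := by
    have := h2 (FF true k)
    simp only [mYZ_app] at this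
    rw [SS, ← this, SB]
    exact (tsum_equiv_sub e5 (fun v => ev (f.vl k k v)) (stB (gk k))).symm
  have b3 : SB (gk k) (fun v => ev (f.vl k k (-(v.1 + v.2), v.2))) = SS true k fXY := by
    have := h3 (FF true k)
    simp only [mXY_app] at this
    rw [SS, ← this, SB]
    exact (tsum_equiv_sub e3 (fun v => ev (f.vl k k v)) (stB (gk k))).symm
  have b4 : SB (gk k) (fun v => ev (f.vl k k (-(v.1 + v.2), v.1))) = SS true k fC := by
    have := h4 (FF true k)
    simp only [mC_app] at this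
    rw [SS, ← this, SB]
    exact (tsum_equiv_sub e4 (fun v => ev (f.vl k k v)) (stB (gk k))).symm
  have b5 : SB (gk k) (fun v => ev (f.vl k k (v.2, -(v.1 + v.2)))) = SS true k fCs := by
    have := h5 (FF true k)
    simp only [mCs_app] at this
    rw [SS, ← this, SB]
    exact (tsum_equiv_sub e4.symm (fun v => ev (f.vl k k v)) (stB (gk k))).symm
  rw [a1, b1, b2, b3, b4, b5] at h
  exact h

/-- **(D)** for the one-loop sums, abstract push hypothesis -/
theorem DJ_item {k k' : Bool} {lam : Kw} {M : M2} {f g : List Kw} (hl : lam ≠ 0)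
    (hp : ∀ F : ℤ × ℤ → ℂ, ∑' v, ev (f.getD (cl k v) 0) * F (M.app v) =
      ∑' u, ev (g.getD (cl k' u) 0) * F u)
    (hg : ∀ u, gk k' (M.app u) = ev lam * gk k u) :
    JJ k f = ev (lam * lam * (lam * lam) * (cj lam * cj lam)) * JJ k' g := by
  have hl' := ev_ne_zero hl
  have hc : (ev lam) ^ 4 * conj (ev lam) ^ 2 =
      ev (lam * lam * (lam * lam) * (cj lam * cj lam)) := by
    simp only [ev_mul, ev_cj]; ring
  rw [JJ, JJ, ← hp, ← hc, ← tsum_mul_left]
  refine tsum_congr fun v => ?_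
  rw [hg, fJ_mul]
  have := fJ_cancel hl' (ev (f.getD (cl k v) 0) * fJ (gk k v))
  linear_combination -this

/-- `g' ∘ M = lam g` from the two columns -/
lemma gk_app {k k' : Bool} {lam : Kw} {M : M2}
    (h1 : zm M.a (b1 k') + zm M.c (b2 k') = lam * b1 k)
    (h2 : zm M.b (b1 k') + zm M.d (b2 k') = lam * b2 k) (u : ℤ × ℤ) :
    gk k' (M.app u) = ev lam * gk k u := by
  have e1 := congrArg ev h1
  have e2 := congrArg ev h2
  simp only [ev_add, ev_zm, ev_mul] at e1 e2
  simp only [gk, M2.app]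
  push_cast
  linear_combination (u.1 : ℂ) * e1 + (u.2 : ℂ) * e2

end Pool.RV.C
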