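import Pool.Agent.Work.MP_5955e5_nt.C.DR
import Pool.Agent.Work.MP_5955e5_nt.C.Chk

/-!
# Cell RV, block (c): the items D, R2, DJ in checkable form (helper16)
-/

set_option autoImplicit false

open Complex ComplexConjugate

namespace Pool.RV.C

open Kw

/-! ### D items -/

/-- `lam⁴ conj(lam)²` -/
def nj (lam : Kw) : Kw := lam * lam * (lam * lam) * (cj lam * cj lam)

lemma ev_nj (lam : Kw) : ev (nj lam) = ev lam ^ 4 * conj (ev lam) ^ 2 := by
  simp only [nj, ev_mul, ev_cj]; ring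

/-- a distribution item: `g_{k'}(M v) e = lam g_k(v)` -/
structure DI where
  ty : Bool
  k : Bool
  k' : Bool
  M : M4
  C : M4
  lam : Kw
  e : Kw
  f : Tb
  g : Tb
  q1 : Kw
  q2 : Kw

/-- the check -/
def DI.ok (d : DI) : Bool :=
  decide (d.lam ≠ 0) && decide (d.e ≠ 0) && pushOK d.k d.k d.k' d.M d.C d.f d.g
    && decide (((lg2 d.k').cp d.M).sm d.e = (lg2 d.k).sm d.lam)
    && decide (((lg3 d.k').cp d.M).sm d.e = (lg3 d.k).sm d.lam)
    && decide (d.q1 * nj d.lam + d.q2 * nj d.e = 0)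

/-- the terms -/
def DI.tms (d : DI) : List Tm := [⟨d.q1, d.ty, d.k, d.f⟩, ⟨d.q2, d.ty, d.k', d.g⟩]

lemma FF_smul {ty k k' : Bool} {c : ℂ} {v w : V4} (h2 : gk k' w.1 = c * gk k v.1)
    (h3 : gk k' w.2 = c * gk k v.2) : FF ty k' w = fJ c * FF ty k v := by
  have hs : -(c * gk k v.1 + c * gk k v.2) = c * -(gk k v.1 + gk k v.2) := by
    ring
  cases ty
  · simp only [FF, Bool.false_eq_true, if_false, h2, h3, hs]
    rw [fA_mul]
  · simp only [FF, if_true, h2, h3, hs]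
    rw [fB_mul]

/-- **the D item** -/
theorem DI.sum {d : DI} (h : d.ok = true) : (d.tms.map Tm.val).sum = 0 := by
  simp only [DI.ok, Bool.and_eq_true, decide_eq_true_eq] at h
  obtain ⟨⟨⟨⟨⟨hl, he⟩, hp⟩, h2⟩, h3⟩, hq⟩ := h
  have hl' := ev_ne_zero hl
  have he' := ev_ne_zero he
  have hlc : conj (ev d.lam) ≠ 0 := (map_ne_zero _).mpr hl'
  have hec : conj (ev d.e) ≠ 0 := (map_ne_zero _).mpr he'
  have g2 : ∀ v : V4, gk d.k' (d.M.app v).1 = (ev d.lam / ev d.e) * gk d.k v.1 := fun v => by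
    have h := congrArg (fun f => Fm.at' f v) h2
    simp only [Fm.at_sm, Fm.at_cp, lg2_at] at h
    field_simp
    linear_combination h
  have g3 : ∀ v : V4, gk d.k' (d.M.app v).2 = (ev d.lam / ev d.e) * gk d.k v.2 := fun v => by
    have h := congrArg (fun f => Fm.at' f v) h3
    simp only [Fm.at_sm, Fm.at_cp, lg3_at] at h
    field_simp
    linear_combination h
  have hF : ∀ v : V4, FF d.ty d.k' (d.M.app v) = fJ (ev d.lam / ev d.e) * FF d.ty d.k v :=
    fun v => FF_smul (g2 v) (g3 v)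
  have hs := push_sum hp (FF d.ty d.k')
  have e1 : SS d.ty d.k' d.g = fJ (ev d.lam / ev d.e) * SS d.ty d.k d.f := by
    rw [SS, SS, ← hs, ← tsum_mul_left]
    exact tsum_congr fun v => by rw [hF]; ring
  have e2 : fJ (ev d.lam / ev d.e) * ev (nj d.lam) = ev (nj d.e) := by
    rw [ev_nj, ev_nj, fJ, map_div₀]
    field_simp
  have e3 := congrArg ev hq
  rw [ev_add, ev_mul, ev_mul, ev_zero] at e3
  have e4 : ev (nj d.lam) ≠ 0 := by
    rw [ev_nj]; positivity
  simp only [DI.tms, List.map_cons, List.map_nil, List.sum_cons, List.sum_nil, Tm.val, e1]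
  have e5 : (ev d.q1 + ev d.q2 * fJ (ev d.lam / ev d.e)) * ev (nj d.lam) = 0 := by
    linear_combination e3 + ev d.q2 * e2
  have e6 : ev d.q1 + ev d.q2 * fJ (ev d.lam / ev d.e) = 0 := by
    rcases mul_eq_zero.mp e5 with h | h
    · exact h
    · exact absurd h e4
  linear_combination (SS d.ty d.k d.f) * e6

/-! ### R2 items -/

/-- the table `f ∘ M` -/
def prm (k : Bool) (M : M4) (f : Tb) : Tb :=
  (List.range 12).map fun i => (List.range 12).map fun j => f.vl k k (M.ap (rp k i, rp k j))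

lemma prm_en (k : Bool) (M : M4) (f : Tb) {i j : ℕ} (hi : i < 12) (hj : j < 12) :
    (prm k M f).en i j = f.vl k k (M.ap (rp k i, rp k j)) := by
  simp [prm, Tb.en, List.getD_eq_getElem?_getD, hi, hj]

lemma prm_vl {k : Bool} {M : M4} (h : perOK (pr k, pr k) (pr k, pr k) M = true) (f : Tb) (v : V4) :
    (prm k M f).vl k k v = f.vl k k (M.ap v) := by
  rw [rp_vl, prm_en _ _ _ (cl_lt _ _) (cl_lt _ _)]
  obtain ⟨w, hw⟩ := exists_sft k k v
  obtain ⟨w', hw'⟩ := perOK_spec h (rp k (cl k v.1), rp k (cl k v.2)) w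
  conv_rhs => rw [hw, hw', Tb.vl_sft]

/-- an R2 item -/
structure RI where
  k : Bool
  q : Kw
  f : Tb

/-- the terms -/
def RI.tms (r : RI) : List Tm :=
  [⟨r.q, false, r.k, r.f⟩, ⟨r.q, false, r.k, prm r.k mZX r.f⟩,
   ⟨-r.q, true, r.k, r.f⟩, ⟨-r.q, true, r.k, prm r.k mYZ r.f⟩,
   ⟨-r.q, true, r.k, prm r.k mC r.f⟩, ⟨-r.q, true, r.k, prm r.k mZX r.f⟩,
   ⟨r.q, true, r.k, prm r.k mXY r.f⟩, ⟨r.q, true, r.k, prm r.k mCs r.f⟩]

lemma per_mZX (k : Bool) : perOK (pr k, pr k) (pr k, pr k) mZX = true := by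
  cases k <;> decide +kernel

lemma per_mYZ (k : Bool) : perOK (pr k, pr k) (pr k, pr k) mYZ = true := by
  cases k <;> decide +kernel

lemma per_mXY (k : Bool) : perOK (pr k, pr k) (pr k, pr k) mXY = true := by
  cases k <;> decide +kernel

lemma per_mC (k : Bool) : perOK (pr k, pr k) (pr k, pr k) mC = true := by
  cases k <;> decide +kernel

lemma per_mCs (k : Bool) : perOK (pr k, pr k) (pr k, pr k) mCs = true := by
  cases k <;> decide +kernel

/-- **the R2 item**; no check at all -/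
theorem RI.sum (r : RI) : (r.tms.map Tm.val).sum = 0 := by
  obtain ⟨k, q, f⟩ := r
  obtain ⟨M, hM⟩ := bdd_Tb f k k
  have h := r2_rel (lat_gk k) (φ := fun v => ev (f.vl k k v)) hM
  have a0 : SA (gk k) (fun v => ev (f.vl k k v)) = SS false k f := rfl
  have b0 : SB (gk k) (fun v => ev (f.vl k k v)) = SS true k f := rfl
  have a1 : SA (gk k) (fun v => ev (f.vl k k (v.1, -(v.1 + v.2)))) = SS false k (prm k mZX f) := by
    rw [SA, SS]
    refine tsum_congr fun v => ?_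
    rw [prm_vl (per_mZX k), M4.ap_eq, mZX_app]; rfl
  have b1 : SB (gk k) (fun v => ev (f.vl k k (v.1, -(v.1 + v.2)))) = SS true k (prm k mZX f) := by
    rw [SB, SS]
    refine tsum_congr fun v => ?_
    rw [prm_vl (per_mZX k), M4.ap_eq, mZX_app]; rfl
  have b2 : SB (gk k) (fun v => ev (f.vl k k (v.2, v.1))) = SS true k (prm k mYZ f) := by
    rw [SB, SS]
    refine tsum_congr fun v => ?_
    rw [prm_vl (per_mYZ k), M4.ap_eq, mYZ_app]; rfl
  have b3 : SB (gk k) (fun v => ev (f.vl k k (-(v.1 + v.2), v.2))) = SS true k (prm k mXY f) := by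
    rw [SB, SS]
    refine tsum_congr fun v => ?_
    rw [prm_vl (per_mXY k), M4.ap_eq, mXY_app]; rfl
  have b4 : SB (gk k) (fun v => ev (f.vl k k (-(v.1 + v.2), v.1))) = SS true k (prm k mCs f) := by
    rw [SB, SS]
    refine tsum_congr fun v => ?_
    rw [prm_vl (per_mCs k), M4.ap_eq, mCs_app]; rfl
  have b5 : SB (gk k) (fun v => ev (f.vl k k (v.2, -(v.1 + v.2)))) = SS true k (prm k mC f) := by
    rw [SB, SS]
    refine tsum_congr fun v => ?_
    rw [prm_vl (per_mC k), M4.ap_eq, mC_app]; rfl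
  rw [a0, b0, a1, b1, b2, b3, b4, b5] at h
  simp only [RI.tms, List.map_cons, List.map_nil, List.sum_cons, List.sum_nil, Tm.val, ev_neg]
  linear_combination ev q * h

/-! ### DJ items -/

/-- application of a `2 × 2` integer matrix, integers only -/
def M2.ap (A : M2) (v : ℤ × ℤ) : ℤ × ℤ := (A.a * v.1 + A.b * v.2, A.c * v.1 + A.d * v.2)

lemma M2.ap_eq (A : M2) (v : ℤ × ℤ) : A.ap v = A.app v := rfl

/-- one row of the period condition -/
def row2OK (p : ℤ × ℤ) (q a b : ℤ) : Bool := dv q (a * p.1) && dv q (b * p.2)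

lemma row2OK_spec {p : ℤ × ℤ} {q a b : ℤ} (h : row2OK p q a b = true) (r w : ℤ × ℤ) :
    ∃ x : ℤ, a * (r.1 + p.1 * w.1) + b * (r.2 + p.2 * w.2) = (a * r.1 + b * r.2) + q * x := by
  simp only [row2OK, Bool.and_eq_true] at h
  obtain ⟨h1, h2⟩ := h
  obtain ⟨x1, h1⟩ := dv_dvd h1
  obtain ⟨x2, h2⟩ := dv_dvd h2
  exact ⟨x1 * w.1 + x2 * w.2, by linear_combination w.1 * h1 + w.2 * h2⟩

/-- `A` maps the period lattice of `p` into the period lattice of `q` -/
def per2OK (p q : ℤ × ℤ) (A : M2) : Bool := row2OK p q.1 A.a A.b && row2OK p q.2 A.c A.d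

/-- `r + p w` -/
def sft2 (r p w : ℤ × ℤ) : ℤ × ℤ := (r.1 + p.1 * w.1, r.2 + p.2 * w.2)

lemma per2OK_spec {p q : ℤ × ℤ} {A : M2} (h : per2OK p q A = true) (r w : ℤ × ℤ) :
    ∃ w', A.ap (sft2 r p w) = sft2 (A.ap r) q w' := by
  simp only [per2OK, Bool.and_eq_true] at h
  obtain ⟨x1, e1⟩ := row2OK_spec h.1 r w
  obtain ⟨x2, e2⟩ := row2OK_spec h.2 r w
  refine ⟨(x1, x2), ?_⟩
  simp only [M2.ap, sft2]
  rw [e1, e2]

lemma exists_sft2 (k : Bool) (v : ℤ × ℤ) : ∃ w, v = sft2 (rp k (cl k v)) (pr k) w := by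
  obtain ⟨x, y, h⟩ := rp_cl k v
  exact ⟨(x, y), h⟩

lemma cl_sft2 (k : Bool) (r w : ℤ × ℤ) : cl k (sft2 r (pr k) w) = cl k r := cl_add k r w.1 w.2

/-- check of a one-loop push -/
def pushOK2 (k k' : Bool) (M C : M2) (f g : List Kw) : Bool :=
  decide (C.mul M = M2.scal 6) && decide (M.mul C = M2.scal 6)
    && per2OK (pr k) (pr k') M && per2OK (pr k') (6, 6) C
    && ((List.range 12).all fun i => decide (g.getD (cl k' (M.ap (rp k i))) 0 = f.getD i 0))
    && ((List.range 12).all fun i => decide (g.getD i 0 = 0) ||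
        (dv 6 (C.ap (rp k' i)).1 && dv 6 (C.ap (rp k' i)).2))

/-- **push of a one-loop table along an integer matrix** -/
theorem push_sum2 {k k' : Bool} {M C : M2} {f g : List Kw} (h : pushOK2 k k' M C f g = true)
    (F : ℤ × ℤ → ℂ) :
    ∑' v, ev (f.getD (cl k v) 0) * F (M.app v) = ∑' u, ev (g.getD (cl k' u) 0) * F u := by
  simp only [pushOK2, Bool.and_eq_true, decide_eq_true_eq, List.all_eq_true, List.mem_range,
    Bool.or_eq_true] at h
  obtain ⟨⟨⟨⟨⟨hCM, hMC⟩, hpM⟩, hpC⟩, h1⟩, h2⟩ := h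
  have hinj : Function.Injective (M.app : ℤ × ℤ → ℤ × ℤ) :=
    M2.app_injective (A := M) (C := C) (N := 6) (by norm_num) hCM
  refine push (B := (M.app : ℤ × ℤ → ℤ × ℤ)) hinj (φ := fun v => ev (f.getD (cl k v) 0))
    (ψ := fun u => ev (g.getD (cl k' u) 0)) ?_ ?_ F
  · intro v
    obtain ⟨w, hw⟩ := exists_sft2 k v
    obtain ⟨w', hw'⟩ := per2OK_spec hpM (rp k (cl k v)) w
    have e1 : (M.app v : ℤ × ℤ) = M.ap v := (M.ap_eq v).symm
    have h3 := h1 _ (cl_lt k v)
    have e2 : cl k' (M.ap v) = cl k' (M.ap (rp k (cl k v))) := by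
      conv_lhs => rw [hw, hw', cl_sft2]
    show ev (g.getD (cl k' (M.app v)) 0) = ev (f.getD (cl k v) 0)
    rw [e1, e2, h3]
  · intro u hu
    have hu' : g.getD (cl k' u) 0 ≠ 0 := fun h0 =>
      hu (by show ev (g.getD (cl k' u) 0) = 0; rw [h0, ev_zero])
    obtain ⟨w, hw⟩ := exists_sft2 k' u
    obtain ⟨w', hw'⟩ := per2OK_spec hpC (rp k' (cl k' u)) w
    rcases h2 _ (cl_lt k' u) with h3 | h3
    · exact absurd h3 hu'
    obtain ⟨d1, d2⟩ := h3
    obtain ⟨x1, d1⟩ := dv_dvd d1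
    obtain ⟨x2, d2⟩ := dv_dvd d2
    refine ⟨(x1 + w'.1, x2 + w'.2), ?_⟩
    have hCu : C.ap u = (6 * (x1 + w'.1), 6 * (x2 + w'.2)) := by
      rw [← hw] at hw'
      rw [hw']
      simp only [sft2]
      rw [d1, d2]
      ext <;> simp only <;> ring
    have h6 : (M.mul C).app u = M.app (C.app u) := M2.app_mul M C u
    rw [hMC, M2.app_scal, ← C.ap_eq u, hCu] at h6
    simp only [Prod.mk.injEq, Int.cast_id, M2.app] at h6
    obtain ⟨f1, f2⟩ := h6
    have s6 : (6 : ℤ) ≠ 0 := by norm_num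
    ext
    · apply mul_left_cancel₀ s6
      simp only [M2.app, Int.cast_id]
      linear_combination -f1
    · apply mul_left_cancel₀ s6
      simp only [M2.app, Int.cast_id]
      linear_combination -f2

/-- a one-loop distribution item: `g_{k'}(M v) e = lam g_k(v)` -/
structure DJI where
  k : Bool
  k' : Bool
  M : M2
  C : M2
  lam : Kw
  e : Kw
  f : List Kw
  g : List Kw
  q1 : Kw
  q2 : Kw

/-- the check -/
def DJI.ok (d : DJI) : Bool :=
  decide (d.lam ≠ 0) && decide (d.e ≠ 0) && pushOK2 d.k d.k' d.M d.C d.f d.g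
    && decide ((zm d.M.a (b1 d.k') + zm d.M.c (b2 d.k')) * d.e = d.lam * b1 d.k)
    && decide ((zm d.M.b (b1 d.k') + zm d.M.d (b2 d.k')) * d.e = d.lam * b2 d.k)
    && decide (d.q1 * nj d.lam + d.q2 * nj d.e = 0)

/-- the terms -/
def DJI.jms (d : DJI) : List Jm := [⟨d.q1, d.k, d.f⟩, ⟨d.q2, d.k', d.g⟩]

/-- **the DJ item** -/
theorem DJI.sum {d : DJI} (h : d.ok = true) : (d.jms.map Jm.val).sum = 0 := by
  simp only [DJI.ok, Bool.and_eq_true, decide_eq_true_eq] at h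
  obtain ⟨⟨⟨⟨⟨hl, he⟩, hp⟩, h2⟩, h3⟩, hq⟩ := h
  have hl' := ev_ne_zero hl
  have he' := ev_ne_zero he
  have hlc : conj (ev d.lam) ≠ 0 := (map_ne_zero _).mpr hl'
  have hec : conj (ev d.e) ≠ 0 := (map_ne_zero _).mpr he'
  have g2 : ∀ v : ℤ × ℤ, gk d.k' (d.M.app v) = (ev d.lam / ev d.e) * gk d.k v := fun v => by
    have e1 := congrArg ev h2
    have e2 := congrArg ev h3
    simp only [ev_add, ev_zm, ev_mul] at e1 e2
    simp only [gk, M2.app]
    push_cast
    field_simp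
    linear_combination (v.1 : ℂ) * e1 + (v.2 : ℂ) * e2
  have hs := push_sum2 hp (fun u => fJ (gk d.k' u))
  have e1 : JJ d.k' d.g = fJ (ev d.lam / ev d.e) * JJ d.k d.f := by
    rw [JJ, JJ, ← hs, ← tsum_mul_left]
    exact tsum_congr fun v => by rw [g2, fJ_mul]; ring
  have e2 : fJ (ev d.lam / ev d.e) * ev (nj d.lam) = ev (nj d.e) := by
    rw [ev_nj, ev_nj, fJ, map_div₀]
    field_simp
  have e3 := congrArg ev hq
  rw [ev_add, ev_mul, ev_mul, ev_zero] at e3
  have e4 : ev (nj d.lam) ≠ 0 := by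
    rw [ev_nj]; positivity
  simp only [DJI.jms, List.map_cons, List.map_nil, List.sum_cons, List.sum_nil, Jm.val, e1]
  have e5 : (ev d.q1 + ev d.q2 * fJ (ev d.lam / ev d.e)) * ev (nj d.lam) = 0 := by
    linear_combination e3 + ev d.q2 * e2
  have e6 : ev d.q1 + ev d.q2 * fJ (ev d.lam / ev d.e) = 0 := by
    rcases mul_eq_zero.mp e5 with h | h
    · exact h
    · exact absurd h e4
  linear_combination (JJ d.k d.f) * e6

end Pool.RV.C
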