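import Pool.Agent.Work.MP_5955e5_nt.C.Push
import Pool.Agent.Work.MP_5955e5_nt.Defs

/-!
# Cell RV, block (c): one-loop side (helper52)

* push of weighted one-loop sums along `2 × 2` integer matrices (distribution),
* summation along a line of `ℤ⁴` with a matrix hypothesis,
* evaluation of the constant tables: `KO` and `3⁻⁶ KL`.
-/

set_option autoImplicit false

open Complex

namespace Pool.RV.C

/-- the one-loop term `g⁻⁴ ḡ⁻²` -/
noncomputable def fJ (x : ℂ) : ℂ := x⁻¹ ^ 4 * ((starRingEnd ℂ) x)⁻¹ ^ 2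

lemma fJ_mul (c x : ℂ) : fJ (c * x) = fJ c * fJ x := by
  simp only [fJ, map_mul, mul_inv]
  ring

lemma fJ_cancel {c : ℂ} (hc : c ≠ 0) (x : ℂ) :
    c ^ 4 * (starRingEnd ℂ) c ^ 2 * (fJ c * x) = x := by
  have hc2 : (starRingEnd ℂ) c ≠ 0 := (map_ne_zero _).mpr hc
  rw [fJ]
  field_simp

/-! ### `2 × 2` integer matrices -/

@[ext] structure M2 where
  (a b c d : ℤ)
deriving DecidableEq

def M2.mul (A B : M2) : M2 :=
  ⟨A.a * B.a + A.b * B.c, A.a * B.b + A.b * B.d, A.c * B.a + A.d * B.c, A.c * B.b + A.d * B.d⟩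

def M2.scal (N : ℤ) : M2 := ⟨N, 0, 0, N⟩

def M2.app (A : M2) {R : Type*} [CommRing R] (v : R × R) : R × R :=
  (A.a * v.1 + A.b * v.2, A.c * v.1 + A.d * v.2)

lemma M2.app_mul (A B : M2) {R : Type*} [CommRing R] (v : R × R) :
    (A.mul B).app v = A.app (B.app v) := by
  simp only [M2.app, M2.mul]
  push_cast
  ext <;> simp only <;> ring

lemma M2.app_scal (N : ℤ) {R : Type*} [CommRing R] (v : R × R) :
    (M2.scal N).app v = ((N : R) * v.1, (N : R) * v.2) := by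
  simp only [M2.app, M2.scal]
  push_cast
  ext <;> simp only <;> ring

lemma M2.app_injective {A C : M2} {N : ℤ} (hN : N ≠ 0) (h : C.mul A = M2.scal N) :
    Function.Injective (A.app : ℤ × ℤ → ℤ × ℤ) := by
  intro v w hvw
  have h1 := congrArg C.app hvw
  rw [← M2.app_mul, ← M2.app_mul, h, M2.app_scal, M2.app_scal] at h1
  simp only [Prod.mk.injEq, Int.cast_id] at h1
  exact Prod.ext (mul_left_cancel₀ hN h1.1) (mul_left_cancel₀ hN h1.2)

/-- reduction mod `n` -/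
def red2 (n : ℕ) (v : ℤ × ℤ) : ZMod n × ZMod n := ((v.1 : ZMod n), (v.2 : ZMod n))

lemma red2_app (n : ℕ) (A : M2) (v : ℤ × ℤ) : red2 n (A.app v) = A.app (red2 n v) := by
  simp only [red2, M2.app]
  push_cast
  rfl

lemma M2.mem_range {A C : M2} {n : ℕ} (hn : n ≠ 0) (h : A.mul C = M2.scal n)
    {u : ℤ × ℤ} (hu : C.app (red2 n u) = 0) :
    u ∈ Set.range (A.app : ℤ × ℤ → ℤ × ℤ) := by
  rw [← red2_app] at hu
  have hu' : (n : ℤ) ∣ (C.app u).1 ∧ (n : ℤ) ∣ (C.app u).2 := by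
    simpa only [red2, Prod.mk_eq_zero, ZMod.intCast_zmod_eq_zero_iff_dvd] using hu
  obtain ⟨⟨x1, h1⟩, ⟨x2, h2⟩⟩ := hu'
  refine ⟨(x1, x2), ?_⟩
  have hn' : (n : ℤ) ≠ 0 := by exact_mod_cast hn
  have e : C.app u = (M2.scal n).app (x1, x2) := by
    rw [M2.app_scal]
    ext
    · simpa using h1
    · simpa using h2
  have e2 := congrArg A.app e
  rw [← M2.app_mul, h, ← M2.app_mul] at e2
  have e3 : A.mul (M2.scal n) = (M2.scal n).mul A := by
    simp only [M2.mul, M2.scal]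
    ext <;> simp only <;> ring
  rw [e3, M2.app_mul, M2.app_scal, M2.app_scal] at e2
  simp only [Prod.mk.injEq, Int.cast_natCast, Int.cast_id] at e2
  exact Prod.ext (mul_left_cancel₀ hn' e2.1).symm (mul_left_cancel₀ hn' e2.2).symm

/-- **distribution for one-loop sums**, table version: `g' (A w) = c * g w` -/
theorem pushJ_table {A C : M2} {n : ℕ} (hn : n ≠ 0) (hCA : C.mul A = M2.scal n)
    (hAC : A.mul C = M2.scal n) {f f' : ZMod n × ZMod n → ℂ} {c : ℂ} (hc : c ≠ 0)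
    {g g' : ℤ × ℤ → ℂ} (hg : ∀ w, g' (A.app w) = c * g w)
    (h1 : ∀ r, f' (A.app r) = f r) (h2 : ∀ r, f' r ≠ 0 → C.app r = 0) :
    ∑' w, f (red2 n w) * fJ (g w)
      = c ^ 4 * (starRingEnd ℂ) c ^ 2 * ∑' u, f' (red2 n u) * fJ (g' u) := by
  refine push_const (B := A.app) (M2.app_injective (by exact_mod_cast hn) hCA) ?_ ?_ ?_
  · intro w
    rw [hg, fJ_mul, fJ_cancel hc]
  · intro w
    rw [red2_app, h1]
  · intro u hu
    exact M2.mem_range hn hAC (h2 _ hu)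

/-- the same for arbitrary weights (no tables) -/
theorem pushJ {A C : M2} {N : ℤ} (hN : N ≠ 0) (hCA : C.mul A = M2.scal N)
    {f f' : ℤ × ℤ → ℂ} {c : ℂ} (hc : c ≠ 0)
    {g g' : ℤ × ℤ → ℂ} (hg : ∀ w, g' (A.app w) = c * g w)
    (h1 : ∀ w, f' (A.app w) = f w)
    (h2 : ∀ u, f' u ≠ 0 → u ∈ Set.range (A.app : ℤ × ℤ → ℤ × ℤ)) :
    ∑' w, f w * fJ (g w) = c ^ 4 * (starRingEnd ℂ) c ^ 2 * ∑' u, f' u * fJ (g' u) := by
  refine push_const (B := A.app) (M2.app_injective hN hCA) ?_ h1 h2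
  intro w
  rw [hg, fJ_mul, fJ_cancel hc]

/-! ### lines in `ℤ⁴` -/

/-- **summation along a line**, function version: `L` = coordinates of the form, `e` = the line,
`e'` a left inverse of `e`, and `d v = d e (e' v) + f (L v)`. -/
theorem tsum_line_fun {l : (ℤ × ℤ) × (ℤ × ℤ) → ℂ} {L : (ℤ × ℤ) × (ℤ × ℤ) → ℤ × ℤ}
    {e : ℤ × ℤ → (ℤ × ℤ) × (ℤ × ℤ)} {e' : (ℤ × ℤ) × (ℤ × ℤ) → ℤ × ℤ}
    {f : ℤ × ℤ → (ℤ × ℤ) × (ℤ × ℤ)} {d : ℤ} (hd : d ≠ 0) (hf : f 0 = 0)
    (hl : ∀ v, l v = 0 ↔ L v = 0) (hLe : ∀ w, L (e w) = 0) (hee : ∀ w, e' (e w) = w)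
    (hde : ∀ v, d • v = d • e (e' v) + f (L v)) (G : (ℤ × ℤ) × (ℤ × ℤ) → ℂ) :
    ∑' v, (if l v = 0 then G v else 0) = ∑' w, G (e w) := by
  have he : Function.Injective e := fun a b h => by rw [← hee a, ← hee b, h]
  rw [← he.tsum_eq (f := fun v => if l v = 0 then G v else 0)]
  · exact tsum_congr fun w => by rw [if_pos ((hl _).mpr (hLe w))]
  · intro v hv
    have hlv : l v = 0 := by
      by_contra hn
      apply hv
      simp [hn]
    have h := hde v
    rw [(hl v).mp hlv, hf, add_zero] at h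
    refine ⟨e' v, ?_⟩
    have h2 : d • (e (e' v)) = d • v := h.symm
    ext
    · have := congrArg (fun x => x.1.1) h2
      simp only [Prod.smul_fst, smul_eq_mul] at this
      exact mul_left_cancel₀ hd this
    · have := congrArg (fun x => x.1.2) h2
      simp only [Prod.smul_fst, Prod.smul_snd, smul_eq_mul] at this
      exact mul_left_cancel₀ hd this
    · have := congrArg (fun x => x.2.1) h2
      simp only [Prod.smul_fst, Prod.smul_snd, smul_eq_mul] at this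
      exact mul_left_cancel₀ hd this
    · have := congrArg (fun x => x.2.2) h2
      simp only [Prod.smul_snd, smul_eq_mul] at this
      exact mul_left_cancel₀ hd this

/-- `4 × 2` integer matrix -/
structure M42 where
  (a11 a12 a21 a22 a31 a32 a41 a42 : ℤ)
deriving DecidableEq

/-- `2 × 4` integer matrix -/
structure M24 where
  (a11 a12 a13 a14 a21 a22 a23 a24 : ℤ)
deriving DecidableEq

def M42.app (A : M42) {R : Type*} [CommRing R] (v : R × R) : (R × R) × (R × R) :=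
  ((A.a11 * v.1 + A.a12 * v.2, A.a21 * v.1 + A.a22 * v.2),
   (A.a31 * v.1 + A.a32 * v.2, A.a41 * v.1 + A.a42 * v.2))

def M24.app (A : M24) {R : Type*} [CommRing R] (v : (R × R) × (R × R)) : R × R :=
  (A.a11 * v.1.1 + A.a12 * v.1.2 + A.a13 * v.2.1 + A.a14 * v.2.2,
   A.a21 * v.1.1 + A.a22 * v.1.2 + A.a23 * v.2.1 + A.a24 * v.2.2)

def M24.mul42 (A : M24) (B : M42) : M2 where
  a := A.a11 * B.a11 + A.a12 * B.a21 + A.a13 * B.a31 + A.a14 * B.a41
  b := A.a11 * B.a12 + A.a12 * B.a22 + A.a13 * B.a32 + A.a14 * B.a42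
  c := A.a21 * B.a11 + A.a22 * B.a21 + A.a23 * B.a31 + A.a24 * B.a41
  d := A.a21 * B.a12 + A.a22 * B.a22 + A.a23 * B.a32 + A.a24 * B.a42

def M42.mul24 (A : M42) (B : M24) : M4 where
  a11 := A.a11 * B.a11 + A.a12 * B.a21
  a12 := A.a11 * B.a12 + A.a12 * B.a22
  a13 := A.a11 * B.a13 + A.a12 * B.a23
  a14 := A.a11 * B.a14 + A.a12 * B.a24
  a21 := A.a21 * B.a11 + A.a22 * B.a21
  a22 := A.a21 * B.a12 + A.a22 * B.a22
  a23 := A.a21 * B.a13 + A.a22 * B.a23
  a24 := A.a21 * B.a14 + A.a22 * B.a24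
  a31 := A.a31 * B.a11 + A.a32 * B.a21
  a32 := A.a31 * B.a12 + A.a32 * B.a22
  a33 := A.a31 * B.a13 + A.a32 * B.a23
  a34 := A.a31 * B.a14 + A.a32 * B.a24
  a41 := A.a41 * B.a11 + A.a42 * B.a21
  a42 := A.a41 * B.a12 + A.a42 * B.a22
  a43 := A.a41 * B.a13 + A.a42 * B.a23
  a44 := A.a41 * B.a14 + A.a42 * B.a24

def M4.add (A B : M4) : M4 where
  a11 := A.a11 + B.a11
  a12 := A.a12 + B.a12
  a13 := A.a13 + B.a13
  a14 := A.a14 + B.a14
  a21 := A.a21 + B.a21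
  a22 := A.a22 + B.a22
  a23 := A.a23 + B.a23
  a24 := A.a24 + B.a24
  a31 := A.a31 + B.a31
  a32 := A.a32 + B.a32
  a33 := A.a33 + B.a33
  a34 := A.a34 + B.a34
  a41 := A.a41 + B.a41
  a42 := A.a42 + B.a42
  a43 := A.a43 + B.a43
  a44 := A.a44 + B.a44

lemma M24.app_app (A : M24) (B : M42) {R : Type*} [CommRing R] (v : R × R) :
    A.app (B.app v) = (A.mul42 B).app v := by
  simp only [M24.app, M42.app, M24.mul42, M2.app]
  push_cast
  ext <;> simp only <;> ring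

lemma M42.app_app (A : M42) (B : M24) {R : Type*} [CommRing R] (v : (R × R) × (R × R)) :
    A.app (B.app v) = (A.mul24 B).app v := by
  simp only [M24.app, M42.app, M42.mul24, M4.app]
  push_cast
  ext <;> simp only <;> ring

lemma M4.app_add (A B : M4) (v : (ℤ × ℤ) × (ℤ × ℤ)) : (A.add B).app v = A.app v + B.app v := by
  simp only [M4.app, M4.add]
  ext
  · simp only [Prod.fst_add]; push_cast; ring
  · simp only [Prod.fst_add, Prod.snd_add]; push_cast; ring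
  · simp only [Prod.fst_add, Prod.snd_add]; push_cast; ring
  · simp only [Prod.snd_add]; push_cast; ring

/-- **summation along a line**, matrix version: `L e = 0`, `e' e = 1`,
`d = d e e' + f L`. -/
theorem tsum_line_mat {l : (ℤ × ℤ) × (ℤ × ℤ) → ℂ} {L : M24} {e : M42} {e' : M24} {f : M42} {d : ℤ}
    (hd : d ≠ 0) (hl : ∀ v, l v = 0 ↔ L.app v = 0)
    (hLe : L.mul42 e = M2.scal 0) (hee : e'.mul42 e = M2.scal 1)
    (hde : ((M4.scal d).mul (e.mul24 e')).add (f.mul24 L) = M4.scal d)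
    (G : (ℤ × ℤ) × (ℤ × ℤ) → ℂ) :
    ∑' v, (if l v = 0 then G v else 0) = ∑' w, G (e.app w) := by
  refine tsum_line_fun (L := L.app) (e' := e'.app) (f := f.app) hd ?_ hl ?_ ?_ ?_ G
  · simp [M42.app]
  · intro w
    rw [M24.app_app, hLe, M2.app_scal]
    simp
  · intro w
    rw [M24.app_app, hee, M2.app_scal]
    simp
  · intro v
    have h : (((M4.scal d).mul (e.mul24 e')).add (f.mul24 L)).app v = (M4.scal d).app v := by
      rw [hde]
    rw [M4.app_add, M4.app_mul, ← M42.app_app, ← M42.app_app, M4.app_scal, M4.app_scal] at h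
    have e1 : d • v = (((d : ℤ) * v.1.1, (d : ℤ) * v.1.2), ((d : ℤ) * v.2.1, (d : ℤ) * v.2.2)) := by
      ext <;> simp
    have e2 : d • e.app (e'.app v) = ((((d : ℤ) * (e.app (e'.app v)).1.1,
        (d : ℤ) * (e.app (e'.app v)).1.2), ((d : ℤ) * (e.app (e'.app v)).2.1,
        (d : ℤ) * (e.app (e'.app v)).2.2)) : (ℤ × ℤ) × (ℤ × ℤ)) := by
      ext <;> simp
    rw [e1, e2]
    simp only [Int.cast_id] at h
    exact h.symm

/-! ### evaluation of the constant tables -/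

lemma three_tau_w0 : 3 * tau w0 = om - 2 := by
  rw [tau, w0, om]
  push_cast
  ring

/-- `J_1(1) = 3⁻⁶ KL`, lattice `P3 = 3 L` with coordinates `m (ω - 2) + 3 n` -/
theorem J1_one : ∑' v : ℤ × ℤ, fJ ((v.1 : ℂ) * (om - 2) + 3 * (v.2 : ℂ)) = (1 / 729) * KL := by
  rw [KL, K, ← tsum_mul_left]
  refine tsum_congr fun v => ?_
  have e : (v.1 : ℂ) * (om - 2) + 3 * (v.2 : ℂ) = 3 * gm w0 v := by
    rw [gm, ← three_tau_w0]; ring
  have hch : ch (0, 0) v = 1 := by simp [ch]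
  rw [e, fJ_mul, hch]
  have h3 : fJ 3 = 1 / 729 := by
    have : (starRingEnd ℂ) (3 : ℂ) = 3 := Complex.conj_ofNat 3
    rw [fJ, this]; norm_num
  rw [h3, fJ, one_div (_ * _), mul_inv, inv_pow, inv_pow]

/-- `J_0(1) = KO`, lattice `O` with coordinates `m (1 + ω) + n` -/
theorem J0_one : ∑' v : ℤ × ℤ, fJ ((v.1 : ℂ) * (1 + om) + (v.2 : ℂ)) = KO := by
  let e : ℤ × ℤ ≃ ℤ × ℤ :=
    { toFun := fun v => (v.1, v.1 + v.2)
      invFun := fun v => (v.1, v.2 - v.1)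
      left_inv := fun v => by simp
      right_inv := fun v => by simp }
  rw [KO, ← e.tsum_eq (fun v : ℤ × ℤ => 1 / (((v.1 : ℂ) * om + v.2) ^ 4 *
    (starRingEnd ℂ) ((v.1 : ℂ) * om + v.2) ^ 2))]
  refine tsum_congr fun v => ?_
  have h : ((e v).1 : ℂ) * om + ((e v).2 : ℂ) = (v.1 : ℂ) * (1 + om) + (v.2 : ℂ) := by
    simp only [e, Equiv.coe_fn_mk]
    push_cast
    ring
  rw [h, fJ, one_div, mul_inv, inv_pow, inv_pow]

end Pool.RV.C
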