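import Mathlib

/-!
# Cell RV, block (c), module C2: transfer of weighted sums along injective maps (helper52)
-/

set_option autoImplicit false

open Complex

namespace Pool.RV.C

/-- **Push.** `B` injective, `ψ ∘ B = φ`, `ψ` supported on the range of `B`. No summability. -/
theorem push {ι κ : Type*} {B : ι → κ} (hB : Function.Injective B) {φ : ι → ℂ} {ψ : κ → ℂ}
    (h1 : ∀ v, ψ (B v) = φ v) (h2 : ∀ u, ψ u ≠ 0 → u ∈ Set.range B) (G : κ → ℂ) :
    ∑' v, φ v * G (B v) = ∑' u, ψ u * G u := by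
  rw [← hB.tsum_eq (f := fun u => ψ u * G u)]
  · exact tsum_congr fun v => by rw [h1]
  · intro u hu
    apply h2
    intro h0
    exact hu (by simp [h0])

/-- push with a constant factor: `F v = c * G (B v)` -/
theorem push_const {ι κ : Type*} {B : ι → κ} (hB : Function.Injective B) {φ : ι → ℂ} {ψ : κ → ℂ}
    {c : ℂ} {F : ι → ℂ} {G : κ → ℂ} (hF : ∀ v, F v = c * G (B v))
    (h1 : ∀ v, ψ (B v) = φ v) (h2 : ∀ u, ψ u ≠ 0 → u ∈ Set.range B) :
    ∑' v, φ v * F v = c * ∑' u, ψ u * G u := by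
  rw [← push hB h1 h2 G, ← tsum_mul_left]
  exact tsum_congr fun v => by rw [hF]; ring

/-- Push with a two-sided inverse up to the factor `N`: `A ∘ B = N`, `B ∘ A = N`; the support condition on
`ψ` is `N ∣ B' u` componentwise, stated abstractly. -/
theorem push_of_inv {ι κ : Type*} {B : ι → κ} {C : κ → ι} {N : ℤ}
    [AddCommGroup ι] [AddCommGroup κ] (hN : ∀ v w : ι, N • v = N • w → v = w)
    (hN' : ∀ v w : κ, N • v = N • w → v = w)
    (hBs : ∀ v, B (N • v) = N • B v) (hCB : ∀ v, C (B v) = N • v) (hBC : ∀ u, B (C u) = N • u)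
    {φ : ι → ℂ} {ψ : κ → ℂ}
    {c : ℂ} {F : ι → ℂ} {G : κ → ℂ} (hF : ∀ v, F v = c * G (B v))
    (h1 : ∀ v, ψ (B v) = φ v) (h2 : ∀ u, ψ u ≠ 0 → ∃ v, C u = N • v) :
    ∑' v, φ v * F v = c * ∑' u, ψ u * G u := by
  refine push_const ?_ hF h1 ?_
  · intro v w h
    have := congrArg C h
    rw [hCB, hCB] at this
    exact hN v w this
  · intro u hu
    obtain ⟨v, hv⟩ := h2 u hu
    refine ⟨v, hN' _ _ ?_⟩
    have h := hBC u
    rw [hv, hBs] at h
    exact h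

/-! ### `Z`-linear maps of `(ℤ × ℤ) × (ℤ × ℤ)` given by a `4 × 4` integer matrix -/

/-- a `4 × 4` integer matrix as four rows -/
@[ext] structure M4 where
  (a11 a12 a13 a14 : ℤ)
  (a21 a22 a23 a24 : ℤ)
  (a31 a32 a33 a34 : ℤ)
  (a41 a42 a43 a44 : ℤ)
deriving DecidableEq

/-- product -/
def M4.mul (A B : M4) : M4 where
  a11 := A.a11 * B.a11 + A.a12 * B.a21 + A.a13 * B.a31 + A.a14 * B.a41
  a12 := A.a11 * B.a12 + A.a12 * B.a22 + A.a13 * B.a32 + A.a14 * B.a42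
  a13 := A.a11 * B.a13 + A.a12 * B.a23 + A.a13 * B.a33 + A.a14 * B.a43
  a14 := A.a11 * B.a14 + A.a12 * B.a24 + A.a13 * B.a34 + A.a14 * B.a44
  a21 := A.a21 * B.a11 + A.a22 * B.a21 + A.a23 * B.a31 + A.a24 * B.a41
  a22 := A.a21 * B.a12 + A.a22 * B.a22 + A.a23 * B.a32 + A.a24 * B.a42
  a23 := A.a21 * B.a13 + A.a22 * B.a23 + A.a23 * B.a33 + A.a24 * B.a43
  a24 := A.a21 * B.a14 + A.a22 * B.a24 + A.a23 * B.a34 + A.a24 * B.a44
  a31 := A.a31 * B.a11 + A.a32 * B.a21 + A.a33 * B.a31 + A.a34 * B.a41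
  a32 := A.a31 * B.a12 + A.a32 * B.a22 + A.a33 * B.a32 + A.a34 * B.a42
  a33 := A.a31 * B.a13 + A.a32 * B.a23 + A.a33 * B.a33 + A.a34 * B.a43
  a34 := A.a31 * B.a14 + A.a32 * B.a24 + A.a33 * B.a34 + A.a34 * B.a44
  a41 := A.a41 * B.a11 + A.a42 * B.a21 + A.a43 * B.a31 + A.a44 * B.a41
  a42 := A.a41 * B.a12 + A.a42 * B.a22 + A.a43 * B.a32 + A.a44 * B.a42
  a43 := A.a41 * B.a13 + A.a42 * B.a23 + A.a43 * B.a33 + A.a44 * B.a43
  a44 := A.a41 * B.a14 + A.a42 * B.a24 + A.a43 * B.a34 + A.a44 * B.a44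

/-- the scalar matrix -/
def M4.scal (N : ℤ) : M4 := ⟨N, 0, 0, 0, 0, N, 0, 0, 0, 0, N, 0, 0, 0, 0, N⟩

/-- application to a vector, over any commutative ring -/
def M4.app (A : M4) {R : Type*} [CommRing R] (v : (R × R) × (R × R)) : (R × R) × (R × R) :=
  ((A.a11 * v.1.1 + A.a12 * v.1.2 + A.a13 * v.2.1 + A.a14 * v.2.2,
    A.a21 * v.1.1 + A.a22 * v.1.2 + A.a23 * v.2.1 + A.a24 * v.2.2),
   (A.a31 * v.1.1 + A.a32 * v.1.2 + A.a33 * v.2.1 + A.a34 * v.2.2,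
    A.a41 * v.1.1 + A.a42 * v.1.2 + A.a43 * v.2.1 + A.a44 * v.2.2))

lemma M4.app_mul (A B : M4) {R : Type*} [CommRing R] (v : (R × R) × (R × R)) :
    (A.mul B).app v = A.app (B.app v) := by
  simp only [M4.app, M4.mul]
  push_cast
  ext <;> simp only <;> ring

lemma M4.app_scal (N : ℤ) {R : Type*} [CommRing R] (v : (R × R) × (R × R)) :
    (M4.scal N).app v = (((N : R) * v.1.1, (N : R) * v.1.2), ((N : R) * v.2.1, (N : R) * v.2.2)) := by
  simp only [M4.app, M4.scal]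
  push_cast
  ext <;> simp only <;> ring

/-- reduction mod `n` -/
def red (n : ℕ) (v : (ℤ × ℤ) × (ℤ × ℤ)) : (ZMod n × ZMod n) × (ZMod n × ZMod n) :=
  (((v.1.1 : ZMod n), (v.1.2 : ZMod n)), ((v.2.1 : ZMod n), (v.2.2 : ZMod n)))

lemma red_app (n : ℕ) (A : M4) (v : (ℤ × ℤ) × (ℤ × ℤ)) : red n (A.app v) = A.app (red n v) := by
  simp only [red, M4.app]
  push_cast
  rfl

lemma M4.app_injective {A C : M4} {N : ℤ} (hN : N ≠ 0) (h : C.mul A = M4.scal N) :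
    Function.Injective (A.app : (ℤ × ℤ) × (ℤ × ℤ) → (ℤ × ℤ) × (ℤ × ℤ)) := by
  intro v w hvw
  have h1 := congrArg C.app hvw
  rw [← M4.app_mul, ← M4.app_mul, h, M4.app_scal, M4.app_scal] at h1
  simp only [Prod.mk.injEq, Int.cast_id] at h1
  obtain ⟨⟨e1, e2⟩, e3, e4⟩ := h1
  ext
  · exact mul_left_cancel₀ hN e1
  · exact mul_left_cancel₀ hN e2
  · exact mul_left_cancel₀ hN e3
  · exact mul_left_cancel₀ hN e4

/-- membership in the range of a matrix, by a congruence -/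
lemma M4.mem_range {A C : M4} {n : ℕ} (hn : n ≠ 0) (h : A.mul C = M4.scal n)
    {u : (ℤ × ℤ) × (ℤ × ℤ)} (hu : C.app (red n u) = 0) :
    u ∈ Set.range (A.app : (ℤ × ℤ) × (ℤ × ℤ) → (ℤ × ℤ) × (ℤ × ℤ)) := by
  rw [← red_app] at hu
  simp only [red, Prod.mk_eq_zero, ZMod.intCast_zmod_eq_zero_iff_dvd, Prod.mk.injEq] at hu
  have hu' : ((n : ℤ) ∣ (C.app u).1.1 ∧ (n : ℤ) ∣ (C.app u).1.2) ∧
      ((n : ℤ) ∣ (C.app u).2.1 ∧ (n : ℤ) ∣ (C.app u).2.2) := by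
    simpa only [ZMod.intCast_zmod_eq_zero_iff_dvd] using hu
  obtain ⟨⟨⟨x1, h1⟩, ⟨x2, h2⟩⟩, ⟨⟨x3, h3⟩, ⟨x4, h4⟩⟩⟩ := hu'
  refine ⟨((x1, x2), (x3, x4)), ?_⟩
  have hn' : (n : ℤ) ≠ 0 := by exact_mod_cast hn
  have e : C.app u = (M4.scal n).app ((x1, x2), (x3, x4)) := by
    rw [M4.app_scal]
    ext
    · simpa using h1
    · simpa using h2
    · simpa using h3
    · simpa using h4
  have e2 := congrArg A.app e
  rw [← M4.app_mul, h, ← M4.app_mul] at e2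
  have e3 : A.mul (M4.scal n) = (M4.scal n).mul A := by
    simp only [M4.mul, M4.scal]
    ext <;> simp only <;> ring
  rw [e3, M4.app_mul, M4.app_scal, M4.app_scal] at e2
  simp only [Prod.mk.injEq, Int.cast_natCast, Int.cast_id] at e2
  obtain ⟨⟨e4, e5⟩, e6, e7⟩ := e2
  ext
  · exact (mul_left_cancel₀ hn' e4).symm
  · exact (mul_left_cancel₀ hn' e5).symm
  · exact (mul_left_cancel₀ hn' e6).symm
  · exact (mul_left_cancel₀ hn' e7).symm

/-- **Push, table version.** `f`, `g` are tables on residues mod `n`; all side conditions are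
finite checks. -/
theorem push_table {A C : M4} {n : ℕ} (hn : n ≠ 0) (hCA : C.mul A = M4.scal n)
    (hAC : A.mul C = M4.scal n)
    {f g : (ZMod n × ZMod n) × (ZMod n × ZMod n) → ℂ} {c : ℂ}
    {F G : (ℤ × ℤ) × (ℤ × ℤ) → ℂ} (hF : ∀ v, F v = c * G (A.app v))
    (h1 : ∀ r, g (A.app r) = f r) (h2 : ∀ r, g r ≠ 0 → C.app r = 0) :
    ∑' v, f (red n v) * F v = c * ∑' u, g (red n u) * G u := by
  refine push_const (B := A.app) (M4.app_injective (by exact_mod_cast hn) hCA) hF ?_ ?_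
  · intro v
    rw [red_app, h1]
  · intro u hu
    exact M4.mem_range hn hAC (h2 _ hu)

end Pool.RV.C
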