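import Mathlib

/-!
# Cell RV, block (c), module C1: absolute summability of the two-loop sums (helper21)

Everything is stated for the lattice `{m t + n}`, `0 < Im t` (so for `O`, `L`, ...), and for
monomials `X^{-p1} \bar X^{-q1} Y^{-p2} \bar Y^{-q2} Z^{-p3} \bar Z^{-q3}` with `p_i + q_i ≤ 3` and
total weight `6` (`0⁻¹ = 0`).
-/

set_option autoImplicit false

open Complex ComplexConjugate

namespace Pool.RV.C

/-- the lattice point `m t + n` -/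
noncomputable def gl (t : ℂ) (v : ℤ × ℤ) : ℂ := (v.1 : ℂ) * t + v.2

lemma gl_add (t : ℂ) (u v : ℤ × ℤ) : gl t (u + v) = gl t u + gl t v := by
  simp only [gl, Prod.fst_add, Prod.snd_add, Int.cast_add]
  ring

lemma gl_neg (t : ℂ) (v : ℤ × ℤ) : gl t (-v) = -gl t v := by
  simp only [gl, Prod.fst_neg, Prod.snd_neg, Int.cast_neg]
  ring

/-- the monomial of type `(p1,q1;p2,q2;p3,q3)` -/
noncomputable def mon (p1 q1 p2 q2 p3 q3 : ℕ) (X Y Z : ℂ) : ℂ :=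
  (X⁻¹ ^ p1 * (conj X)⁻¹ ^ q1) * (Y⁻¹ ^ p2 * (conj Y)⁻¹ ^ q2) * (Z⁻¹ ^ p3 * (conj Z)⁻¹ ^ q3)

lemma norm_mon (p1 q1 p2 q2 p3 q3 : ℕ) (X Y Z : ℂ) :
    ‖mon p1 q1 p2 q2 p3 q3 X Y Z‖ =
      ‖X‖⁻¹ ^ (p1 + q1) * ‖Y‖⁻¹ ^ (p2 + q2) * ‖Z‖⁻¹ ^ (p3 + q3) := by
  unfold mon
  simp only [norm_mul, norm_pow, norm_inv, RCLike.norm_conj, pow_add]

lemma young3 {x y z : ℝ} (hx : 0 ≤ x) (hy : 0 ≤ y) (hz : 0 ≤ z) :
    x * y * z ≤ x ^ 3 + y ^ 3 + z ^ 3 := by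
  nlinarith [mul_nonneg (add_nonneg (add_nonneg hx hy) hz)
    (add_nonneg (add_nonneg (sq_nonneg (x - y)) (sq_nonneg (y - z))) (sq_nonneg (x - z))),
    mul_nonneg (mul_nonneg hx hy) hz, pow_nonneg hx 3, pow_nonneg hy 3, pow_nonneg hz 3]

/-- all exponents `n_i ≤ 3` with sum `6` -/
lemma amgm {a b c : ℝ} (ha : 0 ≤ a) (hb : 0 ≤ b) (hc : 0 ≤ c) {n1 n2 n3 : ℕ}
    (h1 : n1 ≤ 3) (h2 : n2 ≤ 3) (h3 : n3 ≤ 3) (h : n1 + n2 + n3 = 6) :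
    a ^ n1 * b ^ n2 * c ^ n3 ≤ a ^ 3 * b ^ 3 + a ^ 3 * c ^ 3 + b ^ 3 * c ^ 3 := by
  have key : ∀ i j k : ℕ, i + j + k = 3 → (a * b) ^ i * (a * c) ^ j * (b * c) ^ k ≤
      (a * b) ^ 3 + (a * c) ^ 3 + (b * c) ^ 3 := by
    intro i j k hijk
    have u0 : 0 ≤ a * b := mul_nonneg ha hb
    have v0 : 0 ≤ a * c := mul_nonneg ha hc
    have w0 : 0 ≤ b * c := mul_nonneg hb hc
    have hi : i ≤ 3 := by omega
    have hj : j ≤ 3 := by omega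
    have hk : k = 3 - i - j := by omega
    generalize a * b = u at *
    generalize a * c = v at *
    generalize b * c = w at *
    subst hk
    have := pow_nonneg u0 3
    have := pow_nonneg v0 3
    have := pow_nonneg w0 3
    interval_cases i <;> interval_cases j <;> first | omega | skip
    all_goals norm_num
    all_goals first
      | linarith
      | nlinarith [young3 u0 v0 w0]
      | nlinarith [young3 u0 u0 v0, mul_nonneg (add_nonneg u0 v0) (sq_nonneg (u - v)), mul_nonneg (add_nonneg u0 w0) (sq_nonneg (u - w)), mul_nonneg (add_nonneg v0 w0) (sq_nonneg (v - w)), mul_nonneg u0 (sq_nonneg (u - v)), mul_nonneg v0 (sq_nonneg (u - v)), mul_nonneg u0 (sq_nonneg (u - w)), mul_nonneg w0 (sq_nonneg (u - w)), mul_nonneg v0 (sq_nonneg (v - w)), mul_nonneg w0 (sq_nonneg (v - w))]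
  have hk := key (3 - n3) (3 - n2) (3 - n1) (by omega)
  have e : (a * b) ^ (3 - n3) * (a * c) ^ (3 - n2) * (b * c) ^ (3 - n1) =
      a ^ n1 * b ^ n2 * c ^ n3 := by
    rw [mul_pow, mul_pow, mul_pow]
    have e1 : (3 - n3) + (3 - n2) = n1 := by omega
    have e2 : (3 - n3) + (3 - n1) = n2 := by omega
    have e3 : (3 - n2) + (3 - n1) = n3 := by omega
    calc a ^ (3 - n3) * b ^ (3 - n3) * (a ^ (3 - n2) * c ^ (3 - n2)) *
          (b ^ (3 - n1) * c ^ (3 - n1)) =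
        (a ^ (3 - n3) * a ^ (3 - n2)) * (b ^ (3 - n3) * b ^ (3 - n1)) *
          (c ^ (3 - n2) * c ^ (3 - n1)) := by ring
      _ = a ^ n1 * b ^ n2 * c ^ n3 := by rw [← pow_add, ← pow_add, ← pow_add, e1, e2, e3]
  rw [e] at hk
  calc a ^ n1 * b ^ n2 * c ^ n3 ≤ (a * b) ^ 3 + (a * c) ^ 3 + (b * c) ^ 3 := hk
    _ = a ^ 3 * b ^ 3 + a ^ 3 * c ^ 3 + b ^ 3 * c ^ 3 := by rw [mul_pow, mul_pow, mul_pow]

/-- The general triple lemma. -/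
lemma summable_triple {ι : Type*} {a b c : ι → ℝ} (ha : ∀ v, 0 ≤ a v) (hb : ∀ v, 0 ≤ b v)
    (hc : ∀ v, 0 ≤ c v) (hab : Summable fun v => a v ^ 3 * b v ^ 3)
    (hac : Summable fun v => a v ^ 3 * c v ^ 3) (hbc : Summable fun v => b v ^ 3 * c v ^ 3)
    {n1 n2 n3 : ℕ} (h1 : n1 ≤ 3) (h2 : n2 ≤ 3) (h3 : n3 ≤ 3) (h : n1 + n2 + n3 = 6) :
    Summable fun v => a v ^ n1 * b v ^ n2 * c v ^ n3 :=
  Summable.of_nonneg_of_le (fun v => mul_nonneg (mul_nonneg (pow_nonneg (ha v) _)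
    (pow_nonneg (hb v) _)) (pow_nonneg (hc v) _))
    (fun v => amgm (ha v) (hb v) (hc v) h1 h2 h3 h) ((hab.add hac).add hbc)

/-- `∑ |g|^{-k}`, `k ≥ 3` -/
lemma summable_inv_pow {t : ℂ} (ht : 0 < t.im) {k : ℕ} (hk : 3 ≤ k) :
    Summable fun v : ℤ × ℤ => ‖gl t v‖⁻¹ ^ k := by
  let z : UpperHalfPlane := ⟨t, ht⟩
  have hk' : (2 : ℝ) < (k : ℝ) := by
    have : (3 : ℝ) ≤ (k : ℝ) := by exact_mod_cast hk
    linarith
  have h1 := (EisensteinSeries.summable_one_div_norm_rpow hk').mul_left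
    (EisensteinSeries.r z ^ (-(k : ℝ)))
  have h2 : Summable fun x : Fin 2 → ℤ => ‖(x 0 : ℂ) * (z : ℂ) + x 1‖ ^ (-(k : ℝ)) :=
    Summable.of_nonneg_of_le (fun x => Real.rpow_nonneg (norm_nonneg _) _)
      (fun x => EisensteinSeries.summand_bound z (by positivity) x) h1
  have h3 := (finTwoArrowEquiv ℤ).symm.summable_iff.mpr h2
  refine h3.congr (fun v => ?_)
  simp only [Function.comp_apply, finTwoArrowEquiv_symm_apply, Matrix.cons_val_zero,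
    Matrix.cons_val_one]
  rw [Real.rpow_neg (norm_nonneg _), Real.rpow_natCast, inv_pow]
  rfl

/-- one-loop sums with a bounded weight -/
lemma summable_one {t : ℂ} (ht : 0 < t.im) {p q : ℕ} (hk : 3 ≤ p + q) {φ : ℤ × ℤ → ℂ} {M : ℝ}
    (hφ : ∀ v, ‖φ v‖ ≤ M) :
    Summable fun v : ℤ × ℤ => φ v * ((gl t v)⁻¹ ^ p * (conj (gl t v))⁻¹ ^ q) := by
  refine Summable.of_norm_bounded ((summable_inv_pow ht hk).mul_left M) fun v => ?_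
  rw [norm_mul, norm_mul, norm_pow, norm_pow, norm_inv, norm_inv, RCLike.norm_conj, ← pow_add]
  exact mul_le_mul_of_nonneg_right (hφ v) (by positivity)

/-- `(x, y) ↦ (x, x + y)` -/
def eR : (ℤ × ℤ) × (ℤ × ℤ) ≃ (ℤ × ℤ) × (ℤ × ℤ) where
  toFun x := (x.1, x.1 + x.2)
  invFun y := (y.1, y.2 - y.1)
  left_inv x := by simp
  right_inv y := by simp

/-- `(x, y) ↦ (y, x + y)` -/
def eL : (ℤ × ℤ) × (ℤ × ℤ) ≃ (ℤ × ℤ) × (ℤ × ℤ) where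
  toFun x := (x.2, x.1 + x.2)
  invFun y := (y.2 - y.1, y.1)
  left_inv x := by simp
  right_inv y := by simp

lemma summable_33 {s t : ℂ} (hs : 0 < s.im) (ht : 0 < t.im) :
    Summable fun x : (ℤ × ℤ) × (ℤ × ℤ) => ‖gl s x.1‖⁻¹ ^ 3 * ‖gl t x.2‖⁻¹ ^ 3 :=
  (summable_inv_pow hs le_rfl).mul_of_nonneg (summable_inv_pow ht le_rfl)
    (fun _ => by positivity) (fun _ => by positivity)

/-- Summability of the standard two-loop norm sums, `n_i ≤ 3`, `n1 + n2 + n3 = 6`. -/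
lemma summable_norm_std {t : ℂ} (ht : 0 < t.im) {n1 n2 n3 : ℕ} (h1 : n1 ≤ 3) (h2 : n2 ≤ 3)
    (h3 : n3 ≤ 3) (h : n1 + n2 + n3 = 6) :
    Summable fun x : (ℤ × ℤ) × (ℤ × ℤ) =>
      ‖gl t x.1‖⁻¹ ^ n1 * ‖gl t x.2‖⁻¹ ^ n2 * ‖gl t (x.1 + x.2)‖⁻¹ ^ n3 :=
  summable_triple (fun _ => by positivity) (fun _ => by positivity) (fun _ => by positivity)
    (summable_33 ht ht) (eR.summable_iff.mpr (summable_33 ht ht))
    (eL.summable_iff.mpr (summable_33 ht ht)) h1 h2 h3 h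

/-- **C1.** Summability of every standard two-loop sum with bounded weight. -/
theorem summable_two {t : ℂ} (ht : 0 < t.im) {p1 q1 p2 q2 p3 q3 : ℕ} (h1 : p1 + q1 ≤ 3)
    (h2 : p2 + q2 ≤ 3) (h3 : p3 + q3 ≤ 3) (h : p1 + q1 + (p2 + q2) + (p3 + q3) = 6)
    {φ : (ℤ × ℤ) × (ℤ × ℤ) → ℂ} {M : ℝ} (hφ : ∀ v, ‖φ v‖ ≤ M) :
    Summable fun x : (ℤ × ℤ) × (ℤ × ℤ) =>
      φ x * mon p1 q1 p2 q2 p3 q3 (gl t x.1) (gl t x.2) (-(gl t x.1 + gl t x.2)) := by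
  refine Summable.of_norm_bounded ((summable_norm_std ht h1 h2 h3 h).mul_left M) fun v => ?_
  rw [norm_mul, norm_mon, norm_neg, ← gl_add]
  exact mul_le_mul_of_nonneg_right (hφ v) (by positivity)

/-- **C1, pushed.** The same for three forms `l1, l2, l3` which are constant multiples of the
standard ones along an injective map. -/
theorem summable_push {ι : Type*} {t : ℂ} (ht : 0 < t.im) {B : ι → (ℤ × ℤ) × (ℤ × ℤ)}
    (hB : Function.Injective B) {l1 l2 l3 : ι → ℂ} {c1 c2 c3 : ℂ}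
    (e1 : ∀ v, l1 v = c1 * gl t (B v).1) (e2 : ∀ v, l2 v = c2 * gl t (B v).2)
    (e3 : ∀ v, l3 v = c3 * -(gl t (B v).1 + gl t (B v).2))
    {p1 q1 p2 q2 p3 q3 : ℕ} (h1 : p1 + q1 ≤ 3)
    (h2 : p2 + q2 ≤ 3) (h3 : p3 + q3 ≤ 3) (h : p1 + q1 + (p2 + q2) + (p3 + q3) = 6)
    {φ : ι → ℂ} {M : ℝ} (hφ : ∀ v, ‖φ v‖ ≤ M) :
    Summable fun v => φ v * mon p1 q1 p2 q2 p3 q3 (l1 v) (l2 v) (l3 v) := by
  have hs := ((summable_norm_std ht h1 h2 h3 h).comp_injective hB).mul_left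
    (M * (‖c1‖⁻¹ ^ (p1 + q1) * ‖c2‖⁻¹ ^ (p2 + q2) * ‖c3‖⁻¹ ^ (p3 + q3)))
  refine Summable.of_norm_bounded hs fun v => ?_
  rw [norm_mul, norm_mon, e1, e2, e3, ← gl_add]
  simp only [Function.comp_apply, norm_mul, norm_neg, mul_inv, mul_pow]
  calc ‖φ v‖ * (‖c1‖⁻¹ ^ (p1 + q1) * ‖gl t (B v).1‖⁻¹ ^ (p1 + q1) *
        (‖c2‖⁻¹ ^ (p2 + q2) * ‖gl t (B v).2‖⁻¹ ^ (p2 + q2)) *
        (‖c3‖⁻¹ ^ (p3 + q3) * ‖gl t ((B v).1 + (B v).2)‖⁻¹ ^ (p3 + q3)))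
      ≤ M * (‖c1‖⁻¹ ^ (p1 + q1) * ‖gl t (B v).1‖⁻¹ ^ (p1 + q1) *
        (‖c2‖⁻¹ ^ (p2 + q2) * ‖gl t (B v).2‖⁻¹ ^ (p2 + q2)) *
        (‖c3‖⁻¹ ^ (p3 + q3) * ‖gl t ((B v).1 + (B v).2)‖⁻¹ ^ (p3 + q3))) :=
        mul_le_mul_of_nonneg_right (hφ v) (by positivity)
    _ = _ := by ring

/-- Two independent directions only (each pair of forms commensurable with a product lattice). -/
theorem summable_three_pairs {ι : Type*} {l1 l2 l3 : ι → ℂ}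
    (h12 : Summable fun v => ‖l1 v‖⁻¹ ^ 3 * ‖l2 v‖⁻¹ ^ 3)
    (h13 : Summable fun v => ‖l1 v‖⁻¹ ^ 3 * ‖l3 v‖⁻¹ ^ 3)
    (h23 : Summable fun v => ‖l2 v‖⁻¹ ^ 3 * ‖l3 v‖⁻¹ ^ 3)
    {p1 q1 p2 q2 p3 q3 : ℕ} (h1 : p1 + q1 ≤ 3)
    (h2 : p2 + q2 ≤ 3) (h3 : p3 + q3 ≤ 3) (h : p1 + q1 + (p2 + q2) + (p3 + q3) = 6)
    {φ : ι → ℂ} {M : ℝ} (hφ : ∀ v, ‖φ v‖ ≤ M) :
    Summable fun v => φ v * mon p1 q1 p2 q2 p3 q3 (l1 v) (l2 v) (l3 v) := by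
  have hs := (summable_triple (fun _ => by positivity) (fun _ => by positivity)
    (fun _ => by positivity) h12 h13 h23 h1 h2 h3 h).mul_left M
  refine Summable.of_norm_bounded hs fun v => ?_
  rw [norm_mul, norm_mon]
  exact mul_le_mul_of_nonneg_right (hφ v) (by positivity)

/-- a pair `(l1, l2) = (c1 g(Bv).1, c2 g(Bv).2)`, `B` injective -/
lemma summable_pair {ι : Type*} {s t : ℂ} (hs : 0 < s.im) (ht : 0 < t.im)
    {B : ι → (ℤ × ℤ) × (ℤ × ℤ)} (hB : Function.Injective B) {l1 l2 : ι → ℂ} {c1 c2 : ℂ}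
    (e1 : ∀ v, l1 v = c1 * gl s (B v).1) (e2 : ∀ v, l2 v = c2 * gl t (B v).2) :
    Summable fun v => ‖l1 v‖⁻¹ ^ 3 * ‖l2 v‖⁻¹ ^ 3 := by
  refine (((summable_33 hs ht).comp_injective hB).mul_left (‖c1‖⁻¹ ^ 3 * ‖c2‖⁻¹ ^ 3)).congr
    fun v => ?_
  rw [e1, e2]
  simp only [Function.comp_apply, norm_mul, mul_inv, mul_pow]
  ring

end Pool.RV.C
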