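import Pool.Agent.Work.MP_5955e5_nt.C.Tab
import Pool.Agent.Work.MP_5955e5_nt.C.Push
import Pool.Agent.Work.MP_5955e5_nt.C.Summ
import Pool.Agent.Work.MP_5955e5_nt.C.JPart

/-!
# Cell RV, block (c): integer data (helper17)

`Kw` = `ℤ[ω]` as pairs, `ω = (1 + √-15)/2 = om`, `ω² = ω - 4`, `conj ω = 1 - ω`; forms on
`ℤ⁴`; the two lattices `gk false = O`, `gk true = P3 = 3 L`; tables on the `12 × 12` classes.
-/

set_option autoImplicit false

open Complex ComplexConjugate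

namespace Pool.RV.C

/-- `a + b ω` -/
@[ext] structure Kw where
  a : ℤ
  b : ℤ
deriving DecidableEq

namespace Kw

instance : Zero Kw := ⟨⟨0, 0⟩⟩
instance : One Kw := ⟨⟨1, 0⟩⟩
instance : Add Kw := ⟨fun x y => ⟨x.a + y.a, x.b + y.b⟩⟩
instance : Neg Kw := ⟨fun x => ⟨-x.a, -x.b⟩⟩
instance : Sub Kw := ⟨fun x y => ⟨x.a - y.a, x.b - y.b⟩⟩
instance : Mul Kw := ⟨fun x y => ⟨x.a * y.a - 4 * (x.b * y.b), x.a * y.b + x.b * y.a + x.b * y.b⟩⟩

/-- conjugate -/
def cj (x : Kw) : Kw := ⟨x.a + x.b, -x.b⟩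

/-- integer multiple -/
def zm (n : ℤ) (x : Kw) : Kw := ⟨n * x.a, n * x.b⟩

/-- the complex value -/
noncomputable def ev (x : Kw) : ℂ := (x.a : ℂ) + (x.b : ℂ) * om

end Kw

open Kw

lemma om_re : om.re = 1 / 2 := by
  simp [om]

lemma om_im : om.im = Real.sqrt 15 / 2 := by
  simp [om]

lemma om_im_pos : 0 < om.im := by
  rw [om_im]; positivity

lemma om_sq : om * om = om - 4 := by
  have h : ((Real.sqrt 15 : ℝ) : ℂ) * ((Real.sqrt 15 : ℝ) : ℂ) = 15 := by
    rw [← ofReal_mul, Real.mul_self_sqrt (by norm_num)]; norm_num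
  rw [om]
  linear_combination (1 / 4) * I * I * h + (15 / 4) * I_mul_I

lemma conj_om : conj om = 1 - om := by
  apply Complex.ext
  · rw [conj_re, sub_re, om_re, one_re]; norm_num
  · rw [conj_im, sub_im, one_im]; ring

lemma ev_zero : ev 0 = 0 := by
  change ((0 : ℤ) : ℂ) + ((0 : ℤ) : ℂ) * om = 0
  push_cast; ring

lemma ev_one : ev 1 = 1 := by
  change ((1 : ℤ) : ℂ) + ((0 : ℤ) : ℂ) * om = 1
  push_cast; ring

lemma ev_add (x y : Kw) : ev (x + y) = ev x + ev y := by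
  change (((x.a + y.a : ℤ)) : ℂ) + ((x.b + y.b : ℤ) : ℂ) * om = _
  rw [ev, ev]; push_cast; ring

lemma ev_sub (x y : Kw) : ev (x - y) = ev x - ev y := by
  change (((x.a - y.a : ℤ)) : ℂ) + ((x.b - y.b : ℤ) : ℂ) * om = _
  rw [ev, ev]; push_cast; ring

lemma ev_neg (x : Kw) : ev (-x) = -ev x := by
  change (((-x.a : ℤ)) : ℂ) + ((-x.b : ℤ) : ℂ) * om = _
  rw [ev]; push_cast; ring

lemma ev_mul (x y : Kw) : ev (x * y) = ev x * ev y := by
  change (((x.a * y.a - 4 * (x.b * y.b) : ℤ)) : ℂ)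
    + ((x.a * y.b + x.b * y.a + x.b * y.b : ℤ) : ℂ) * om = _
  rw [ev, ev]; push_cast
  linear_combination (-(x.b : ℂ) * y.b) * om_sq

lemma ev_cj (x : Kw) : ev (cj x) = conj (ev x) := by
  rw [cj, ev, ev, map_add, map_mul, conj_om, map_intCast, map_intCast]
  push_cast; ring

lemma ev_zm (n : ℤ) (x : Kw) : ev (zm n x) = n * ev x := by
  rw [zm, ev, ev]; push_cast; ring

lemma int_om_eq_zero {a b : ℤ} : (a : ℂ) + (b : ℂ) * om = 0 ↔ a = 0 ∧ b = 0 := by
  constructor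
  · intro h
    have h2 := congrArg Complex.im h
    have h1 := congrArg Complex.re h
    simp only [add_im, add_re, mul_im, mul_re, intCast_im, intCast_re, zero_im, zero_re, zero_mul,
      add_zero, zero_add, sub_zero] at h1 h2
    have hb : (b : ℝ) = 0 := by
      rcases mul_eq_zero.mp h2 with h | h
      · exact h
      · exact absurd h om_im_pos.ne'
    rw [hb] at h1
    simp only [zero_mul, add_zero] at h1
    exact ⟨by exact_mod_cast h1, by exact_mod_cast hb⟩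
  · rintro ⟨rfl, rfl⟩; simp

lemma ev_eq_zero {x : Kw} : ev x = 0 ↔ x = 0 := by
  rw [ev, int_om_eq_zero]
  constructor
  · rintro ⟨h1, h2⟩; exact Kw.ext h1 h2
  · rintro rfl; exact ⟨rfl, rfl⟩

lemma ev_ne_zero {x : Kw} (h : x ≠ 0) : ev x ≠ 0 := fun h' => h (ev_eq_zero.mp h')

/-- index type of the two-loop sums -/
abbrev V4 : Type := (ℤ × ℤ) × (ℤ × ℤ)

/-! ### forms -/

/-- a form on `ℤ⁴` with coefficients in `ℤ[ω]` -/
@[ext] structure Fm where
  c1 : Kw
  c2 : Kw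
  c3 : Kw
  c4 : Kw
deriving DecidableEq

namespace Fm

/-- value -/
noncomputable def at' (f : Fm) (v : V4) : ℂ :=
  ev f.c1 * v.1.1 + ev f.c2 * v.1.2 + ev f.c3 * v.2.1 + ev f.c4 * v.2.2

/-- scalar multiple -/
def sm (k : Kw) (f : Fm) : Fm := ⟨k * f.c1, k * f.c2, k * f.c3, k * f.c4⟩

/-- sum -/
def ad (f g : Fm) : Fm := ⟨f.c1 + g.c1, f.c2 + g.c2, f.c3 + g.c3, f.c4 + g.c4⟩

/-- difference -/
def sb (f g : Fm) : Fm := ⟨f.c1 - g.c1, f.c2 - g.c2, f.c3 - g.c3, f.c4 - g.c4⟩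

/-- composition with an integer matrix -/
def cp (f : Fm) (M : M4) : Fm :=
  ⟨zm M.a11 f.c1 + zm M.a21 f.c2 + zm M.a31 f.c3 + zm M.a41 f.c4,
   zm M.a12 f.c1 + zm M.a22 f.c2 + zm M.a32 f.c3 + zm M.a42 f.c4,
   zm M.a13 f.c1 + zm M.a23 f.c2 + zm M.a33 f.c3 + zm M.a43 f.c4,
   zm M.a14 f.c1 + zm M.a24 f.c2 + zm M.a34 f.c3 + zm M.a44 f.c4⟩

lemma at_sm (k : Kw) (f : Fm) (v : V4) : (f.sm k).at' v = ev k * f.at' v := by
  simp only [at', sm, ev_mul]; ring

lemma at_ad (f g : Fm) (v : V4) : (f.ad g).at' v = f.at' v + g.at' v := by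
  simp only [at', ad, ev_add]; ring

lemma at_sb (f g : Fm) (v : V4) : (f.sb g).at' v = f.at' v - g.at' v := by
  simp only [at', sb, ev_sub]; ring

lemma at_cp (f : Fm) (M : M4) (v : V4) : (f.cp M).at' v = f.at' (M.app v) := by
  simp only [at', cp, ev_add, ev_zm, M4.app]
  push_cast
  ring

end Fm

/-! ### the two lattices -/

/-- first basis vector -/
def b1 (k : Bool) : Kw := if k then ⟨-2, 1⟩ else ⟨1, 1⟩

/-- second basis vector -/
def b2 (k : Bool) : Kw := if k then ⟨3, 0⟩ else ⟨1, 0⟩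

/-- lattice point: `k = false`: `m (1 + ω) + n`; `k = true`: `m (ω - 2) + 3 n = 3 (m τ₀ + n)` -/
noncomputable def gk (k : Bool) (u : ℤ × ℤ) : ℂ := ev (b1 k) * u.1 + ev (b2 k) * u.2

/-- `g₁` as a form -/
def lg2 (k : Bool) : Fm := ⟨b1 k, b2 k, 0, 0⟩

/-- `g₂` as a form -/
def lg3 (k : Bool) : Fm := ⟨0, 0, b1 k, b2 k⟩

/-- `-(g₁ + g₂)` as a form -/
def lg1 (k : Bool) : Fm := ⟨-b1 k, -b2 k, -b1 k, -b2 k⟩

lemma lg2_at (k : Bool) (v : V4) : (lg2 k).at' v = gk k v.1 := by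
  simp only [Fm.at', lg2, gk, ev_zero]; ring

lemma lg3_at (k : Bool) (v : V4) : (lg3 k).at' v = gk k v.2 := by
  simp only [Fm.at', lg3, gk, ev_zero]; ring

lemma lg1_at (k : Bool) (v : V4) : (lg1 k).at' v = -(gk k v.1 + gk k v.2) := by
  simp only [Fm.at', lg1, gk, ev_neg]; ring

/-- parameter of the lattice -/
noncomputable def tk (k : Bool) : ℂ := if k then tau w0 else 1 + om

/-- scale of the lattice -/
def sk (k : Bool) : ℤ := if k then 3 else 1

lemma w0_pos : 0 < w0 := by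
  rw [w0]; positivity

lemma tk_im_pos (k : Bool) : 0 < (tk k).im := by
  cases k
  · simp only [tk, Bool.false_eq_true, if_false, add_im, one_im, zero_add]
    exact om_im_pos
  · simp only [tk, if_true]
    rw [tau_im]; exact w0_pos

lemma gk_eq (k : Bool) (u : ℤ × ℤ) : gk k u = (sk k : ℂ) * gl (tk k) u := by
  cases k
  · simp only [gk, b1, b2, sk, tk, gl, Bool.false_eq_true, if_false, ev]
    push_cast; ring
  · simp only [gk, b1, b2, sk, tk, gl, if_true, ev]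
    push_cast
    linear_combination (-(u.1 : ℂ)) * three_tau_w0

lemma gk_true (u : ℤ × ℤ) : gk true u = 3 * gm w0 u := by
  rw [gk_eq, gm, gl]; simp [sk, tk]

/-! ### classes and tables -/

/-- class of a vector of the lattice `k`, `0 ≤ cl < 12` -/
def cl (k : Bool) (u : ℤ × ℤ) : ℕ :=
  if k then (u.1 % 6).toNat * 2 + (u.2 % 2).toNat else (u.1 % 2).toNat * 6 + (u.2 % 6).toNat

/-- representative of a class -/
def rp (k : Bool) (i : ℕ) : ℤ × ℤ :=
  if k then (((i / 2 : ℕ) : ℤ), ((i % 2 : ℕ) : ℤ)) else (((i / 6 : ℕ) : ℤ), ((i % 6 : ℕ) : ℤ))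

/-- periods -/
def pr (k : Bool) : ℤ × ℤ := if k then (6, 2) else (2, 6)

lemma cl_lt (k : Bool) (u : ℤ × ℤ) : cl k u < 12 := by
  cases k
  · simp only [cl, Bool.false_eq_true, if_false]; omega
  · simp only [cl, if_true]; omega

lemma cl_add (k : Bool) (u : ℤ × ℤ) (x y : ℤ) :
    cl k (u.1 + (pr k).1 * x, u.2 + (pr k).2 * y) = cl k u := by
  cases k
  · simp only [cl, pr, Bool.false_eq_true, if_false]
    rw [Int.add_mul_emod_self_left, Int.add_mul_emod_self_left]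
  · simp only [cl, pr, if_true]
    rw [Int.add_mul_emod_self_left, Int.add_mul_emod_self_left]

lemma cl_eq_of_dvd {k : Bool} {u v : ℤ × ℤ} (h1 : (pr k).1 ∣ u.1 - v.1)
    (h2 : (pr k).2 ∣ u.2 - v.2) : cl k u = cl k v := by
  obtain ⟨x, hx⟩ := h1
  obtain ⟨y, hy⟩ := h2
  have : u = (v.1 + (pr k).1 * x, v.2 + (pr k).2 * y) := by
    ext
    · simp only; linarith
    · simp only; linarith
  rw [this, cl_add]

/-- every vector is its representative plus a period -/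
lemma rp_cl (k : Bool) (u : ℤ × ℤ) : ∃ x y : ℤ,
    u = ((rp k (cl k u)).1 + (pr k).1 * x, (rp k (cl k u)).2 + (pr k).2 * y) := by
  cases k
  · refine ⟨u.1 / 2, u.2 / 6, ?_⟩
    simp only [rp, cl, pr, Bool.false_eq_true, if_false]
    ext
    · simp only; omega
    · simp only; omega
  · refine ⟨u.1 / 6, u.2 / 2, ?_⟩
    simp only [rp, cl, pr, if_true]
    ext
    · simp only; omega
    · simp only; omega

/-- a table on pairs of classes -/
abbrev Tb : Type := List (List Kw)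

/-- entry of a table -/
def Tb.en (T : Tb) (i j : ℕ) : Kw := (T.getD i []).getD j 0

/-- value of a table on lattice `k1 × k2` -/
def Tb.vl (T : Tb) (k1 k2 : Bool) (v : V4) : Kw := T.en (cl k1 v.1) (cl k2 v.2)

lemma Tb.vl_add (T : Tb) (k1 k2 : Bool) (v : V4) (x1 y1 x2 y2 : ℤ) :
    T.vl k1 k2 ((v.1.1 + (pr k1).1 * x1, v.1.2 + (pr k1).2 * y1),
      (v.2.1 + (pr k2).1 * x2, v.2.2 + (pr k2).2 * y2)) = T.vl k1 k2 v := by
  simp only [Tb.vl, cl_add]

/-- a finite table is bounded -/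
lemma bdd_fin {F : ℕ → ℕ → ℂ} : ∃ M : ℝ, ∀ i j : ℕ, i < 12 → j < 12 → ‖F i j‖ ≤ M := by
  refine ⟨∑ i ∈ Finset.range 12, ∑ j ∈ Finset.range 12, ‖F i j‖, fun i j hi hj => ?_⟩
  calc ‖F i j‖ ≤ ∑ j ∈ Finset.range 12, ‖F i j‖ :=
        Finset.single_le_sum (f := fun j => ‖F i j‖) (fun _ _ => norm_nonneg _)
          (Finset.mem_range.mpr hj)
    _ ≤ _ := Finset.single_le_sum (f := fun i => ∑ j ∈ Finset.range 12, ‖F i j‖)
          (fun _ _ => Finset.sum_nonneg fun _ _ => norm_nonneg _) (Finset.mem_range.mpr hi)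

/-- the two-loop standard terms: `ty = false`: `A`, `ty = true`: `B` -/
noncomputable def FF (ty k : Bool) (u : V4) : ℂ :=
  if ty then fB (-(gk k u.1 + gk k u.2)) (gk k u.1) (gk k u.2)
  else fA (-(gk k u.1 + gk k u.2)) (gk k u.1) (gk k u.2)

lemma fA_mul (c x y z : ℂ) : fA (c * x) (c * y) (c * z) = fJ c * fA x y z := by
  simp only [fA, fJ, map_mul, mul_inv]; ring

lemma fB_mul (c x y z : ℂ) : fB (c * x) (c * y) (c * z) = fJ c * fB x y z := by
  simp only [fB, fJ, map_mul, mul_inv]; ring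

lemma fC_mul (c x y z : ℂ) : fC (c * x) (c * y) (c * z) = fJ c * fC x y z := by
  simp only [fC, fJ, map_mul, mul_inv]; ring

lemma fA_mon (x y z : ℂ) : fA x y z = mon 2 0 2 1 0 1 x y z := by
  simp only [fA, mon]; ring

lemma fB_mon (x y z : ℂ) : fB x y z = mon 3 0 1 1 0 1 x y z := by
  simp only [fB, mon]; ring

lemma FF_eq (ty k : Bool) (u : V4) : FF ty k u = fJ (sk k) *
    (if ty then mon 3 0 1 1 0 1 (-(gl (tk k) u.1 + gl (tk k) u.2)) (gl (tk k) u.1) (gl (tk k) u.2)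
    else mon 2 0 2 1 0 1 (-(gl (tk k) u.1 + gl (tk k) u.2)) (gl (tk k) u.1) (gl (tk k) u.2)) := by
  have h : -((sk k : ℂ) * gl (tk k) u.1 + (sk k : ℂ) * gl (tk k) u.2)
      = (sk k : ℂ) * -(gl (tk k) u.1 + gl (tk k) u.2) := by ring
  cases ty
  · simp only [FF, gk_eq, h, Bool.false_eq_true, if_false]
    rw [fA_mul, fA_mon]
  · simp only [FF, gk_eq, h, if_true]
    rw [fB_mul, fB_mon]

/-- summability of the standard sums with bounded weight -/
lemma summable_FF (ty k : Bool) {φ : V4 → ℂ} {M : ℝ} (hφ : ∀ v, ‖φ v‖ ≤ M) :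
    Summable fun u => φ u * FF ty k u := by
  cases ty
  · have h := (summable_two (tk_im_pos k) (p1 := 2) (q1 := 1) (p2 := 0) (q2 := 1) (p3 := 2)
      (q3 := 0) (by norm_num) (by norm_num) (by norm_num) (by norm_num)
      (φ := fun v => φ v) hφ).mul_left (fJ (sk k))
    refine h.congr fun u => ?_
    rw [FF_eq]
    simp only [Bool.false_eq_true, if_false, mon]; ring
  · have h := (summable_two (tk_im_pos k) (p1 := 1) (q1 := 1) (p2 := 0) (q2 := 1) (p3 := 3)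
      (q3 := 0) (by norm_num) (by norm_num) (by norm_num) (by norm_num)
      (φ := fun v => φ v) hφ).mul_left (fJ (sk k))
    refine h.congr fun u => ?_
    rw [FF_eq]
    simp only [if_true, mon]; ring

/-- one-loop standard sums -/
lemma summable_fJ (k : Bool) {φ : ℤ × ℤ → ℂ} {M : ℝ} (hφ : ∀ v, ‖φ v‖ ≤ M) :
    Summable fun u => φ u * fJ (gk k u) := by
  have h := (summable_one (tk_im_pos k) (p := 4) (q := 2) (by norm_num)
    (φ := fun v => φ v) hφ).mul_left (fJ (sk k))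
  refine h.congr fun u => ?_
  rw [gk_eq, fJ_mul]
  simp only [fJ]; ring

lemma bdd_Tb (T : Tb) (k1 k2 : Bool) : ∃ M : ℝ, ∀ v : V4, ‖ev (T.vl k1 k2 v)‖ ≤ M := by
  obtain ⟨M, hM⟩ := bdd_fin (F := fun i j => ev (T.en i j))
  exact ⟨M, fun v => hM _ _ (cl_lt _ _) (cl_lt _ _)⟩

/-- `ΣF` : the standard sum of a table -/
noncomputable def SS (ty k : Bool) (T : Tb) : ℂ := ∑' u : V4, ev (T.vl k k u) * FF ty k u

/-- the standard one-loop sum of a table with `12` entries -/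
noncomputable def JJ (k : Bool) (t : List Kw) : ℂ :=
  ∑' u : ℤ × ℤ, ev (t.getD (cl k u) 0) * fJ (gk k u)

end Pool.RV.C
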