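import Pool.Agent.Work.MP_5955e5_nt.C.DR
import Pool.Agent.Work.MP_5955e5_nt.C.Chk

/-!
# Cell RV, block (c): the left end, `2 T₊ = 729 ∑ WT B` (helper16)
-/

set_option autoImplicit false

open Complex ComplexConjugate

namespace Pool.RV.C

open Kw

/-- the weight of `2 T₊` for the sums of type `B` on the lattice `P3 = 3 L` -/
def WT : Tb := [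
  [⟨-76, 0⟩, ⟨-76, 0⟩, ⟨4, 0⟩, ⟨4, 0⟩, ⟨-4, 0⟩, ⟨-4, 0⟩, ⟨4, 0⟩, ⟨4, 0⟩, ⟨-4, 0⟩, ⟨-4, 0⟩, ⟨4, 0⟩, ⟨4, 0⟩],
  [⟨-76, 0⟩, ⟨-76, 0⟩, ⟨4, 0⟩, ⟨4, 0⟩, ⟨-4, 0⟩, ⟨-4, 0⟩, ⟨4, 0⟩, ⟨4, 0⟩, ⟨-4, 0⟩, ⟨-4, 0⟩, ⟨4, 0⟩, ⟨4, 0⟩],
  [⟨4, 0⟩, ⟨4, 0⟩, ⟨-46, 0⟩, ⟨2, 0⟩, ⟨4, 0⟩, ⟨4, 0⟩, ⟨8, 0⟩, ⟨8, 0⟩, ⟨-2, 0⟩, ⟨-2, 0⟩, ⟨32, 0⟩, ⟨-16, 0⟩],
  [⟨4, 0⟩, ⟨4, 0⟩, ⟨2, 0⟩, ⟨-46, 0⟩, ⟨4, 0⟩, ⟨4, 0⟩, ⟨8, 0⟩, ⟨8, 0⟩, ⟨-2, 0⟩, ⟨-2, 0⟩, ⟨-16, 0⟩, ⟨32, 0⟩],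
  [⟨-4, 0⟩, ⟨-4, 0⟩, ⟨4, 0⟩, ⟨4, 0⟩, ⟨50, 0⟩, ⟨2, 0⟩, ⟨-8, 0⟩, ⟨-8, 0⟩, ⟨-40, 0⟩, ⟨8, 0⟩, ⟨-2, 0⟩, ⟨-2, 0⟩],
  [⟨-4, 0⟩, ⟨-4, 0⟩, ⟨4, 0⟩, ⟨4, 0⟩, ⟨2, 0⟩, ⟨50, 0⟩, ⟨-8, 0⟩, ⟨-8, 0⟩, ⟨8, 0⟩, ⟨-40, 0⟩, ⟨-2, 0⟩, ⟨-2, 0⟩],
  [⟨4, 0⟩, ⟨4, 0⟩, ⟨8, 0⟩, ⟨8, 0⟩, ⟨-8, 0⟩, ⟨-8, 0⟩, ⟨68, 0⟩, ⟨68, 0⟩, ⟨-8, 0⟩, ⟨-8, 0⟩, ⟨8, 0⟩, ⟨8, 0⟩],
  [⟨4, 0⟩, ⟨4, 0⟩, ⟨8, 0⟩, ⟨8, 0⟩, ⟨-8, 0⟩, ⟨-8, 0⟩, ⟨68, 0⟩, ⟨68, 0⟩, ⟨-8, 0⟩, ⟨-8, 0⟩, ⟨8, 0⟩, ⟨8, 0⟩],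
  [⟨-4, 0⟩, ⟨-4, 0⟩, ⟨-2, 0⟩, ⟨-2, 0⟩, ⟨-40, 0⟩, ⟨8, 0⟩, ⟨-8, 0⟩, ⟨-8, 0⟩, ⟨50, 0⟩, ⟨2, 0⟩, ⟨4, 0⟩, ⟨4, 0⟩],
  [⟨-4, 0⟩, ⟨-4, 0⟩, ⟨-2, 0⟩, ⟨-2, 0⟩, ⟨8, 0⟩, ⟨-40, 0⟩, ⟨-8, 0⟩, ⟨-8, 0⟩, ⟨2, 0⟩, ⟨50, 0⟩, ⟨4, 0⟩, ⟨4, 0⟩],
  [⟨4, 0⟩, ⟨4, 0⟩, ⟨32, 0⟩, ⟨-16, 0⟩, ⟨-2, 0⟩, ⟨-2, 0⟩, ⟨8, 0⟩, ⟨8, 0⟩, ⟨4, 0⟩, ⟨4, 0⟩, ⟨-46, 0⟩, ⟨2, 0⟩],
  [⟨4, 0⟩, ⟨4, 0⟩, ⟨-16, 0⟩, ⟨32, 0⟩, ⟨-2, 0⟩, ⟨-2, 0⟩, ⟨8, 0⟩, ⟨8, 0⟩, ⟨4, 0⟩, ⟨4, 0⟩, ⟨2, 0⟩, ⟨-46, 0⟩]]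

/-- `wtP` on representatives -/
def wq (i j : ℕ) : ℤ := wtP (rp true i, rp true j)

lemma wtP_cl (v : V4) : wtP v = wq (cl true v.1) (cl true v.2) := by
  obtain ⟨x1, y1, h1⟩ := rp_cl true v.1
  obtain ⟨x2, y2, h2⟩ := rp_cl true v.2
  have p1 : (pr true).1 = 6 := rfl
  have p2 : (pr true).2 = 2 := rfl
  have a1 := congrArg Prod.fst h1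
  have a2 := congrArg Prod.snd h1
  have a3 := congrArg Prod.fst h2
  have a4 := congrArg Prod.snd h2
  simp only [p1, p2] at a1 a2 a3 a4
  rw [wq]
  apply wtP_congr
  · exact ⟨x1, by simp only; linarith⟩
  · exact ⟨y1, by simp only; linarith⟩
  · exact ⟨x2, by simp only; linarith⟩
  · exact ⟨y2, by simp only; linarith⟩

theorem WT_check : allR (fun i j => decide (WT.en i j = ⟨-wq i j - wq j i, 0⟩)) = true := by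
  decide +kernel

lemma WT_vl (v : V4) : WT.vl true true v = ⟨-wtP v - wtP (v.2, v.1), 0⟩ := by
  have h := allR_spec WT_check (cl_lt true v.1) (cl_lt true v.2)
  rw [decide_eq_true_eq] at h
  rw [Tb.vl, h, wtP_cl, wtP_cl (v.2, v.1)]

lemma ev_WT (v : V4) : ev (WT.vl true true v) = -((wtP v : ℤ) : ℂ) - ((wtP (v.2, v.1) : ℤ) : ℂ) := by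
  rw [WT_vl, ev]
  push_cast
  ring

lemma fJ_three : fJ 3 = 1 / 729 := by
  have : (starRingEnd ℂ) (3 : ℂ) = 3 := Complex.conj_ofNat 3
  rw [fJ, this]; norm_num

lemma tC_eq (v : V4) :
    tC w0 v = 729 * fC (-(gk true v.1 + gk true v.2)) (gk true v.1) (gk true v.2) := by
  have e : -(gk true v.1 + gk true v.2) = 3 * -(gm w0 v.1 + gm w0 v.2) := by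
    rw [gk_true, gk_true]; ring
  rw [e, gk_true, gk_true, fC_mul, fJ_three, tC]
  ring

/-- **the left end** -/
theorem left_end : 2 * Tplus w0 = 729 * SS true true WT := by
  have h := (Tplus_eq_wt w0_pos).tsum_eq
  obtain ⟨M, hM⟩ := bdd_fin (F := fun i j => ((wq i j : ℤ) : ℂ))
  have hφ : ∀ v : V4, ‖((wtP v : ℤ) : ℂ)‖ ≤ M := fun v => by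
    rw [wtP_cl]
    exact hM _ _ (cl_lt _ _) (cl_lt _ _)
  have h1 := relC (lat_gk true) hφ
  rw [← h, SS]
  have e1 : ∀ v : V4, ((wtP v : ℤ) : ℂ) * tC w0 v = 729 * (((wtP v : ℤ) : ℂ) *
      fC (-(gk true v.1 + gk true v.2)) (gk true v.1) (gk true v.2)) := fun v => by
    rw [tC_eq]; ring
  rw [tsum_congr e1, tsum_mul_left, h1]
  congr 1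
  refine tsum_congr fun v => ?_
  rw [ev_WT]
  rfl

end Pool.RV.C
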