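import Mathlib

/-!
# Cell RV, block (c), module C3: the four-form relation (helper21)
-/

set_option autoImplicit false

open Complex ComplexConjugate

namespace Pool.RV.C

/-- The pointwise identity, valid for all values with `0⁻¹ = 0`. -/
lemma tetra_pt {X Y Z A B C : ℂ} (h1 : X + Y = Z) (h2 : A + B = C) (hX : X = 0 ↔ C = 0)
    (hZ : Z = 0 ↔ A = 0) :
    Z⁻¹ ^ 2 * X⁻¹ ^ 2 * A⁻¹ * B⁻¹ - Z⁻¹ ^ 2 * Y⁻¹ ^ 2 * A⁻¹ * B⁻¹
      - 2 * (Z⁻¹ * Y⁻¹ ^ 3 * A⁻¹ * B⁻¹)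
      - X⁻¹ ^ 2 * Y⁻¹ ^ 2 * A⁻¹ * C⁻¹ + 2 * (X⁻¹ * Y⁻¹ ^ 3 * A⁻¹ * C⁻¹)
      - X⁻¹ ^ 2 * Y⁻¹ ^ 2 * B⁻¹ * C⁻¹ + 2 * (X⁻¹ * Y⁻¹ ^ 3 * B⁻¹ * C⁻¹) =
    (if X = 0 then 3 * (Y⁻¹ ^ 4 * A⁻¹ ^ 2) else 0) + (if Y = 0 then X⁻¹ ^ 4 * A⁻¹ * B⁻¹ else 0)
      + (if Z = 0 then -3 * (X⁻¹ ^ 4 * B⁻¹ ^ 2) else 0)
      + (if B = 0 then (2 * (X⁻¹ * Y⁻¹ ^ 3) - X⁻¹ ^ 2 * Y⁻¹ ^ 2) * A⁻¹ ^ 2 else 0) := by
  by_cases x0 : X = 0
  · have c0 : C = 0 := hX.1 x0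
    subst x0 c0
    have hz : Z = Y := by rw [← h1]; ring
    have hb : B = -A := by linear_combination h2
    subst hz hb
    simp only [inv_zero, inv_neg, if_true]
    split_ifs <;> simp <;> ring
  by_cases y0 : Y = 0
  · subst y0
    have hz : Z = X := by rw [← h1]; ring
    subst hz
    simp only [inv_zero, if_neg x0, if_true]
    split_ifs <;> ring
  by_cases z0 : Z = 0
  · have a0 : A = 0 := hZ.1 z0
    subst z0 a0
    have hy : Y = -X := by linear_combination h1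
    have hb : C = B := by rw [← h2]; ring
    subst hy hb
    simp only [inv_zero, inv_neg, if_neg x0, if_true, neg_eq_zero]
    split_ifs <;> simp <;> ring
  have c0 : C ≠ 0 := fun h => x0 (hX.2 h)
  have a0 : A ≠ 0 := fun h => z0 (hZ.2 h)
  by_cases b0 : B = 0
  · subst b0
    have hc : C = A := by rw [← h2]; ring
    subst hc
    simp only [inv_zero, if_neg x0, if_neg y0, if_neg z0, if_true]
    ring
  simp only [if_neg x0, if_neg y0, if_neg z0, if_neg b0, add_zero]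
  subst h1 h2
  field_simp
  ring

/-- summation along a line (or any injective parametrisation of a zero set) -/
lemma tsum_line {ι κ : Type*} {l : ι → ℂ} {e : κ → ι} (he : Function.Injective e)
    (hr : ∀ v, l v = 0 → v ∈ Set.range e) (hl : ∀ w, l (e w) = 0) (G : ι → ℂ) :
    ∑' v, (if l v = 0 then G v else 0) = ∑' w, G (e w) := by
  rw [← he.tsum_eq (f := fun v => if l v = 0 then G v else 0)]
  · exact tsum_congr fun w => by rw [if_pos (hl w)]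
  · intro v hv
    by_contra hn
    apply hv
    have : l v ≠ 0 := fun h => hn (hr v h)
    simp [this]

lemma summable_ite {ι : Type*} {l G : ι → ℂ} (hG : Summable G) :
    Summable fun v => if l v = 0 then G v else 0 := by
  refine Summable.of_norm_bounded hG.norm fun v => ?_
  split_ifs
  · exact le_rfl
  · simp

/-- The relation summed over any index type, with any weight. -/
theorem tetra_tsum {ι : Type*} {X Y Z A B C φ : ι → ℂ} (h1 : ∀ v, X v + Y v = Z v)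
    (h2 : ∀ v, A v + B v = C v) (hX : ∀ v, X v = 0 ↔ C v = 0) (hZ : ∀ v, Z v = 0 ↔ A v = 0)
    (s1 : Summable fun v => φ v * ((Z v)⁻¹ ^ 2 * (X v)⁻¹ ^ 2 * (A v)⁻¹ * (B v)⁻¹))
    (s2 : Summable fun v => φ v * ((Z v)⁻¹ ^ 2 * (Y v)⁻¹ ^ 2 * (A v)⁻¹ * (B v)⁻¹))
    (s3 : Summable fun v => φ v * ((Z v)⁻¹ * (Y v)⁻¹ ^ 3 * (A v)⁻¹ * (B v)⁻¹))
    (s4 : Summable fun v => φ v * ((X v)⁻¹ ^ 2 * (Y v)⁻¹ ^ 2 * (A v)⁻¹ * (C v)⁻¹))
    (s5 : Summable fun v => φ v * ((X v)⁻¹ * (Y v)⁻¹ ^ 3 * (A v)⁻¹ * (C v)⁻¹))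
    (s6 : Summable fun v => φ v * ((X v)⁻¹ ^ 2 * (Y v)⁻¹ ^ 2 * (B v)⁻¹ * (C v)⁻¹))
    (s7 : Summable fun v => φ v * ((X v)⁻¹ * (Y v)⁻¹ ^ 3 * (B v)⁻¹ * (C v)⁻¹)) :
    ∑' v, φ v * ((Z v)⁻¹ ^ 2 * (X v)⁻¹ ^ 2 * (A v)⁻¹ * (B v)⁻¹)
      - ∑' v, φ v * ((Z v)⁻¹ ^ 2 * (Y v)⁻¹ ^ 2 * (A v)⁻¹ * (B v)⁻¹)
      - 2 * ∑' v, φ v * ((Z v)⁻¹ * (Y v)⁻¹ ^ 3 * (A v)⁻¹ * (B v)⁻¹)
      - ∑' v, φ v * ((X v)⁻¹ ^ 2 * (Y v)⁻¹ ^ 2 * (A v)⁻¹ * (C v)⁻¹)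
      + 2 * ∑' v, φ v * ((X v)⁻¹ * (Y v)⁻¹ ^ 3 * (A v)⁻¹ * (C v)⁻¹)
      - ∑' v, φ v * ((X v)⁻¹ ^ 2 * (Y v)⁻¹ ^ 2 * (B v)⁻¹ * (C v)⁻¹)
      + 2 * ∑' v, φ v * ((X v)⁻¹ * (Y v)⁻¹ ^ 3 * (B v)⁻¹ * (C v)⁻¹) =
    ∑' v, (if X v = 0 then φ v * (3 * ((Y v)⁻¹ ^ 4 * (A v)⁻¹ ^ 2)) else 0)
      + ∑' v, (if Y v = 0 then φ v * ((X v)⁻¹ ^ 4 * (A v)⁻¹ * (B v)⁻¹) else 0)
      + ∑' v, (if Z v = 0 then φ v * (-3 * ((X v)⁻¹ ^ 4 * (B v)⁻¹ ^ 2)) else 0)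
      + ∑' v, (if B v = 0 then
          φ v * ((2 * ((X v)⁻¹ * (Y v)⁻¹ ^ 3) - (X v)⁻¹ ^ 2 * (Y v)⁻¹ ^ 2) * (A v)⁻¹ ^ 2)
          else 0) := by
  -- the four line terms are restrictions of summable families
  have r1 : Summable fun v => if X v = 0 then φ v * (3 * ((Y v)⁻¹ ^ 4 * (A v)⁻¹ ^ 2)) else 0 := by
    refine (summable_ite (l := X) ((s2.add (s3.mul_left 2)).neg)).congr fun v => ?_
    by_cases x0 : X v = 0
    · have c0 := (hX v).1 x0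
      have hz : Z v = Y v := by rw [← h1 v, x0]; ring
      have hb : B v = -A v := by linear_combination h2 v + c0
      rw [if_pos x0, if_pos x0, hz, hb, inv_neg]
      ring
    · rw [if_neg x0, if_neg x0]
  have r2 : Summable fun v => if Y v = 0 then φ v * ((X v)⁻¹ ^ 4 * (A v)⁻¹ * (B v)⁻¹) else 0 := by
    refine (summable_ite (l := Y) s1).congr fun v => ?_
    by_cases y0 : Y v = 0
    · have hz : Z v = X v := by rw [← h1 v, y0]; ring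
      rw [if_pos y0, if_pos y0, hz]
      ring
    · rw [if_neg y0, if_neg y0]
  have r3 : Summable fun v => if Z v = 0 then φ v * (-3 * ((X v)⁻¹ ^ 4 * (B v)⁻¹ ^ 2)) else 0 := by
    refine (summable_ite (l := Z) ((s7.mul_left 2).sub s6)).congr fun v => ?_
    by_cases z0 : Z v = 0
    · have a0 := (hZ v).1 z0
      have hy : Y v = -X v := by linear_combination h1 v + z0
      have hc : C v = B v := by rw [← h2 v, a0]; ring
      rw [if_pos z0, if_pos z0, hy, hc, inv_neg]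
      ring
    · rw [if_neg z0, if_neg z0]
  have r4 : Summable fun v => if B v = 0 then
      φ v * ((2 * ((X v)⁻¹ * (Y v)⁻¹ ^ 3) - (X v)⁻¹ ^ 2 * (Y v)⁻¹ ^ 2) * (A v)⁻¹ ^ 2) else 0 := by
    refine (summable_ite (l := B) ((s5.mul_left 2).sub s4)).congr fun v => ?_
    by_cases b0 : B v = 0
    · have hc : C v = A v := by rw [← h2 v, b0]; ring
      rw [if_pos b0, if_pos b0, hc]
      ring
    · rw [if_neg b0, if_neg b0]
  rw [← r1.tsum_add r2, ← (r1.add r2).tsum_add r3, ← ((r1.add r2).add r3).tsum_add r4,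
    ← s1.tsum_sub s2, ← tsum_mul_left (a := 2), ← (s1.sub s2).tsum_sub (s3.mul_left 2),
    ← ((s1.sub s2).sub (s3.mul_left 2)).tsum_sub s4, ← tsum_mul_left (a := 2),
    ← (((s1.sub s2).sub (s3.mul_left 2)).sub s4).tsum_add (s5.mul_left 2),
    ← ((((s1.sub s2).sub (s3.mul_left 2)).sub s4).add (s5.mul_left 2)).tsum_sub s6,
    ← tsum_mul_left (a := 2),
    ← (((((s1.sub s2).sub (s3.mul_left 2)).sub s4).add (s5.mul_left 2)).sub s6).tsum_add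
      (s7.mul_left 2)]
  refine tsum_congr fun v => ?_
  have h := tetra_pt (h1 v) (h2 v) (hX v) (hZ v)
  have h' := congrArg (fun c => φ v * c) h
  simp only [mul_add, mul_ite, mul_zero] at h'
  rw [← h']
  ring

end Pool.RV.C
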