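import Pool.Agent.Work.MP_5955e5_nt.C.Summ
import Pool.Agent.Work.MP_5955e5_nt.C.Tetra
import Pool.Agent.Work.MP_5955e5_nt.C.Push
import Pool.Agent.Work.MP_5955e5_nt.C.Tab
import Pool.Agent.Work.MP_5955e5_nt.C.JPart

/-!
# Cell RV, block (c): the T-block in normalised (cross-ratio) form (helper21)
-/

set_option autoImplicit false

open Complex ComplexConjugate

namespace Pool.RV.C

/-- a lattice function: additive, with `∑ |g|⁻³ < ∞` -/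
structure Lat (G : ℤ × ℤ → ℂ) : Prop where
  add : ∀ u v, G (u + v) = G u + G v
  sm : Summable fun v => ‖G v‖⁻¹ ^ 3

lemma lat_gl {t : ℂ} (ht : 0 < t.im) : Lat (gl t) := ⟨gl_add t, summable_inv_pow ht le_rfl⟩

lemma lat_smul {G : ℤ × ℤ → ℂ} (h : Lat G) (c : ℂ) : Lat fun v => c * G v := by
  refine ⟨fun u v => by rw [h.add]; ring, ?_⟩
  refine (h.sm.mul_left (‖c‖⁻¹ ^ 3)).congr fun v => ?_
  rw [norm_mul, mul_inv, mul_pow]

/-- the index set -/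
abbrev VV := (ℤ × ℤ) × (ℤ × ℤ)

lemma Lat.summable_norm {G : ℤ × ℤ → ℂ} (h : Lat G) {n1 n2 n3 : ℕ} (h1 : n1 ≤ 3) (h2 : n2 ≤ 3)
    (h3 : n3 ≤ 3) (hn : n1 + n2 + n3 = 6) :
    Summable fun x : VV => ‖G x.1‖⁻¹ ^ n1 * ‖G x.2‖⁻¹ ^ n2 * ‖G (x.1 + x.2)‖⁻¹ ^ n3 := by
  have h33 : Summable fun x : VV => ‖G x.1‖⁻¹ ^ 3 * ‖G x.2‖⁻¹ ^ 3 :=
    h.sm.mul_of_nonneg h.sm (fun _ => by positivity) (fun _ => by positivity)
  exact summable_triple (fun _ => by positivity) (fun _ => by positivity) (fun _ => by positivity)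
    h33 (eR.summable_iff.mpr h33) (eL.summable_iff.mpr h33) h1 h2 h3 hn

/-- a function of the two legs whose norm is a product of powers of the three legs -/
lemma Lat.summable_of {G : ℤ × ℤ → ℂ} (h : Lat G) {n1 n2 n3 : ℕ} (h1 : n1 ≤ 3) (h2 : n2 ≤ 3)
    (h3 : n3 ≤ 3) (hn : n1 + n2 + n3 = 6) {F : VV → ℂ}
    (hF : ∀ x : VV, ‖F x‖ = ‖G x.1‖⁻¹ ^ n1 * ‖G x.2‖⁻¹ ^ n2 * ‖G (x.1 + x.2)‖⁻¹ ^ n3)
    {φ : VV → ℂ} {M : ℝ} (hφ : ∀ v, ‖φ v‖ ≤ M) : Summable fun x => φ x * F x := by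
  refine Summable.of_norm_bounded ((h.summable_norm h1 h2 h3 hn).mul_left M) fun v => ?_
  rw [norm_mul, hF]
  exact mul_le_mul_of_nonneg_right (hφ v) (by positivity)

/-- the standard sums: legs `(-(g1+g2), g1, g2)` -/
noncomputable def stA (G : ℤ × ℤ → ℂ) (x : VV) : ℂ := fA (-(G x.1 + G x.2)) (G x.1) (G x.2)

/-- the standard sums: legs `(-(g1+g2), g1, g2)` -/
noncomputable def stB (G : ℤ × ℤ → ℂ) (x : VV) : ℂ := fB (-(G x.1 + G x.2)) (G x.1) (G x.2)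

lemma norm_stA {G : ℤ × ℤ → ℂ} (h : Lat G) (x : VV) :
    ‖stA G x‖ = ‖G x.1‖⁻¹ ^ 3 * ‖G x.2‖⁻¹ ^ 1 * ‖G (x.1 + x.2)‖⁻¹ ^ 2 := by
  unfold stA fA
  rw [← h.add]
  simp only [norm_mul, norm_pow, norm_inv, norm_neg, RCLike.norm_conj]
  ring

lemma norm_stB {G : ℤ × ℤ → ℂ} (h : Lat G) (x : VV) :
    ‖stB G x‖ = ‖G x.1‖⁻¹ ^ 2 * ‖G x.2‖⁻¹ ^ 1 * ‖G (x.1 + x.2)‖⁻¹ ^ 3 := by
  unfold stB fB
  rw [← h.add]
  simp only [norm_mul, norm_pow, norm_inv, norm_neg, RCLike.norm_conj]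
  ring

lemma Lat.summable_stA {G : ℤ × ℤ → ℂ} (h : Lat G) {φ : VV → ℂ} {M : ℝ}
    (hφ : ∀ v, ‖φ v‖ ≤ M) : Summable fun x => φ x * stA G x :=
  h.summable_of (by norm_num) (by norm_num) (by norm_num) (by norm_num) (norm_stA h) hφ

lemma Lat.summable_stB {G : ℤ × ℤ → ℂ} (h : Lat G) {φ : VV → ℂ} {M : ℝ}
    (hφ : ∀ v, ‖φ v‖ ≤ M) : Summable fun x => φ x * stB G x :=
  h.summable_of (by norm_num) (by norm_num) (by norm_num) (by norm_num) (norm_stB h) hφ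

lemma fA_smul (c1 c2 c3 x y z : ℂ) : fA (c1 * x) (c2 * y) (c3 * z) = fA c1 c2 c3 * fA x y z := by
  unfold fA
  simp only [map_mul, mul_inv, mul_pow]
  ring

lemma fB_smul (c1 c2 c3 x y z : ℂ) : fB (c1 * x) (c2 * y) (c3 * z) = fB c1 c2 c3 * fB x y z := by
  unfold fB
  simp only [map_mul, mul_inv, mul_pow]
  ring

/-- `(p, q, r)` are constant multiples of the standard legs `(-(g1+g2), g1, g2)` along `B`. -/
structure Pass (G : ℤ × ℤ → ℂ) (B : VV → VV) (c1 c2 c3 : ℂ) (p q r : VV → ℂ) : Prop where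
  lat : Lat G
  inj : Function.Injective B
  h1 : ∀ v, p v = c1 * -(G (B v).1 + G (B v).2)
  h2 : ∀ v, q v = c2 * G (B v).1
  h3 : ∀ v, r v = c3 * G (B v).2

variable {G : ℤ × ℤ → ℂ} {B : VV → VV} {c1 c2 c3 : ℂ} {p q r : VV → ℂ}

lemma Pass.fA_eq (h : Pass G B c1 c2 c3 p q r) (v : VV) :
    fA (p v) (q v) (r v) = fA c1 c2 c3 * stA G (B v) := by
  rw [h.h1, h.h2, h.h3, fA_smul, stA]

lemma Pass.fB_eq (h : Pass G B c1 c2 c3 p q r) (v : VV) :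
    fB (p v) (q v) (r v) = fB c1 c2 c3 * stB G (B v) := by
  rw [h.h1, h.h2, h.h3, fB_smul, stB]

lemma Pass.summable_fA (h : Pass G B c1 c2 c3 p q r) {φ : VV → ℂ} {M : ℝ}
    (hφ : ∀ v, ‖φ v‖ ≤ M) : Summable fun v => φ v * fA (p v) (q v) (r v) := by
  have h0 : Summable fun x : VV => ‖stA G x‖ := by
    have := (h.lat.summable_stA (φ := fun _ => 1) (M := 1) (fun _ => by simp)).norm
    simpa using this
  refine Summable.of_norm_bounded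
    (((h0.comp_injective h.inj).mul_left (M * ‖fA c1 c2 c3‖))) fun v => ?_
  rw [h.fA_eq, norm_mul, norm_mul]
  calc ‖φ v‖ * (‖fA c1 c2 c3‖ * ‖stA G (B v)‖) ≤ M * (‖fA c1 c2 c3‖ * ‖stA G (B v)‖) :=
        mul_le_mul_of_nonneg_right (hφ v) (by positivity)
    _ = _ := by simp only [Function.comp_apply]; ring

lemma Pass.summable_fB (h : Pass G B c1 c2 c3 p q r) {φ : VV → ℂ} {M : ℝ}
    (hφ : ∀ v, ‖φ v‖ ≤ M) : Summable fun v => φ v * fB (p v) (q v) (r v) := by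
  have h0 : Summable fun x : VV => ‖stB G x‖ := by
    have := (h.lat.summable_stB (φ := fun _ => 1) (M := 1) (fun _ => by simp)).norm
    simpa using this
  refine Summable.of_norm_bounded
    (((h0.comp_injective h.inj).mul_left (M * ‖fB c1 c2 c3‖))) fun v => ?_
  rw [h.fB_eq, norm_mul, norm_mul]
  calc ‖φ v‖ * (‖fB c1 c2 c3‖ * ‖stB G (B v)‖) ≤ M * (‖fB c1 c2 c3‖ * ‖stB G (B v)‖) :=
        mul_le_mul_of_nonneg_right (hφ v) (by positivity)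
    _ = _ := by simp only [Function.comp_apply]; ring

/-- pushing the weight: type `A` -/
lemma Pass.push_fA (h : Pass G B c1 c2 c3 p q r) {φ ψ : VV → ℂ}
    (e1 : ∀ v, ψ (B v) = φ v) (e2 : ∀ u, ψ u ≠ 0 → u ∈ Set.range B) :
    ∑' v, φ v * fA (p v) (q v) (r v) = fA c1 c2 c3 * ∑' u, ψ u * stA G u :=
  push_const h.inj h.fA_eq e1 e2

/-- pushing the weight: type `B` -/
lemma Pass.push_fB (h : Pass G B c1 c2 c3 p q r) {φ ψ : VV → ℂ}
    (e1 : ∀ v, ψ (B v) = φ v) (e2 : ∀ u, ψ u ≠ 0 → u ∈ Set.range B) :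
    ∑' v, φ v * fB (p v) (q v) (r v) = fB c1 c2 c3 * ∑' u, ψ u * stB G u :=
  push_const h.inj h.fB_eq e1 e2

/-- **The T-block** in normalised form. -/
theorem tblock {φ X Y Z b : VV → ℂ} {γ : ℂ} {M : ℝ} (hφ : ∀ v, ‖φ v‖ ≤ M) (hγ : γ ≠ 0)
    (hZ : ∀ v, X v + Y v = Z v) (hb : ∀ v, b v = γ * X v - Z v)
    {G1 G2 G3 G4 : ℤ × ℤ → ℂ} {B1 B2 B3 B4 : VV → VV}
    {a1 a2 a3 b1 b2 b3 c1 c2 c3 d1 d2 d3 : ℂ}
    (P1 : Pass G1 B1 a1 a2 a3 X Z b) (P2 : Pass G2 B2 b1 b2 b3 Y Z b)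
    (P3 : Pass G3 B3 c1 c2 c3 Y X Z) (P4 : Pass G4 B4 d1 d2 d3 Y X b) :
    ∑' v, φ v * fA (X v) (Z v) (b v) - ∑' v, φ v * fA (Y v) (Z v) (b v)
      - 2 * ∑' v, φ v * fB (Y v) (Z v) (b v)
      - (conj γ)⁻¹ * (∑' v, φ v * fA (Y v) (X v) (Z v) - 2 * ∑' v, φ v * fB (Y v) (X v) (Z v)
        + ∑' v, φ v * fA (Y v) (X v) (b v) - 2 * ∑' v, φ v * fB (Y v) (X v) (b v)) =
    3 * ∑' v, (if X v = 0 then φ v * fJ (Y v) else 0)
      + (conj γ - 1)⁻¹ * ∑' v, (if Y v = 0 then φ v * fJ (X v) else 0)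
      - 3 * (conj γ)⁻¹ ^ 2 * ∑' v, (if Z v = 0 then φ v * fJ (X v) else 0)
      + (2 * (γ - 1)⁻¹ ^ 3 - (γ - 1)⁻¹ ^ 2) * (conj γ)⁻¹ ^ 2 *
        ∑' v, (if b v = 0 then φ v * fJ (X v) else 0) := by
  have hγ' : conj γ ≠ 0 := (map_ne_zero _).mpr hγ
  have t1 : ∀ v, φ v * fA (X v) (Z v) (b v) =
      φ v * ((Z v)⁻¹ ^ 2 * (X v)⁻¹ ^ 2 * (conj (Z v))⁻¹ * (conj (b v))⁻¹) := fun v => by
    unfold fA; ring
  have t2 : ∀ v, φ v * fA (Y v) (Z v) (b v) =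
      φ v * ((Z v)⁻¹ ^ 2 * (Y v)⁻¹ ^ 2 * (conj (Z v))⁻¹ * (conj (b v))⁻¹) := fun v => by
    unfold fA; ring
  have t3 : ∀ v, φ v * fB (Y v) (Z v) (b v) =
      φ v * ((Z v)⁻¹ * (Y v)⁻¹ ^ 3 * (conj (Z v))⁻¹ * (conj (b v))⁻¹) := fun v => by
    unfold fB; ring
  have t4 : ∀ v, (conj γ)⁻¹ * (φ v * fA (Y v) (X v) (Z v)) =
      φ v * ((X v)⁻¹ ^ 2 * (Y v)⁻¹ ^ 2 * (conj (Z v))⁻¹ * (conj (γ * X v))⁻¹) := fun v => by
    rw [map_mul, mul_inv]; unfold fA; ring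
  have t5 : ∀ v, (conj γ)⁻¹ * (φ v * fB (Y v) (X v) (Z v)) =
      φ v * ((X v)⁻¹ * (Y v)⁻¹ ^ 3 * (conj (Z v))⁻¹ * (conj (γ * X v))⁻¹) := fun v => by
    rw [map_mul, mul_inv]; unfold fB; ring
  have t6 : ∀ v, (conj γ)⁻¹ * (φ v * fA (Y v) (X v) (b v)) =
      φ v * ((X v)⁻¹ ^ 2 * (Y v)⁻¹ ^ 2 * (conj (b v))⁻¹ * (conj (γ * X v))⁻¹) := fun v => by
    rw [map_mul, mul_inv]; unfold fA; ring
  have t7 : ∀ v, (conj γ)⁻¹ * (φ v * fB (Y v) (X v) (b v)) =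
      φ v * ((X v)⁻¹ * (Y v)⁻¹ ^ 3 * (conj (b v))⁻¹ * (conj (γ * X v))⁻¹) := fun v => by
    rw [map_mul, mul_inv]; unfold fB; ring
  have h := tetra_tsum (φ := φ) (X := X) (Y := Y) (Z := Z) (A := fun v => conj (Z v))
    (B := fun v => conj (b v)) (C := fun v => conj (γ * X v)) hZ
    (fun v => by rw [← map_add, hb]; congr 1; ring)
    (fun v => by
      rw [map_eq_zero, mul_eq_zero]
      exact ⟨fun h => Or.inr h, fun h => h.resolve_left hγ⟩)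
    (fun v => by rw [map_eq_zero])
    ((P1.summable_fA hφ).congr t1) ((P2.summable_fA hφ).congr t2) ((P2.summable_fB hφ).congr t3)
    (((P3.summable_fA hφ).mul_left (conj γ)⁻¹).congr t4)
    (((P3.summable_fB hφ).mul_left (conj γ)⁻¹).congr t5)
    (((P4.summable_fA hφ).mul_left (conj γ)⁻¹).congr t6)
    (((P4.summable_fB hφ).mul_left (conj γ)⁻¹).congr t7)
  rw [← tsum_congr t1, ← tsum_congr t2, ← tsum_congr t3, ← tsum_congr t4, ← tsum_congr t5,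
    ← tsum_congr t6, ← tsum_congr t7, tsum_mul_left, tsum_mul_left, tsum_mul_left,
    tsum_mul_left] at h
  have l1 : ∑' v, (if X v = 0 then φ v * (3 * ((Y v)⁻¹ ^ 4 * (conj (Z v))⁻¹ ^ 2)) else 0) =
      3 * ∑' v, (if X v = 0 then φ v * fJ (Y v) else 0) := by
    rw [← tsum_mul_left]
    refine tsum_congr fun v => ?_
    by_cases hx : X v = 0
    · have : Z v = Y v := by rw [← hZ, hx]; ring
      rw [if_pos hx, if_pos hx, this]; unfold fJ; ring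
    · rw [if_neg hx, if_neg hx, mul_zero]
  have l2 : ∑' v, (if Y v = 0 then φ v * ((X v)⁻¹ ^ 4 * (conj (Z v))⁻¹ * (conj (b v))⁻¹) else 0) =
      (conj γ - 1)⁻¹ * ∑' v, (if Y v = 0 then φ v * fJ (X v) else 0) := by
    rw [← tsum_mul_left]
    refine tsum_congr fun v => ?_
    by_cases hy : Y v = 0
    · have h1 : Z v = X v := by rw [← hZ, hy]; ring
      have h2 : b v = (γ - 1) * X v := by rw [hb, h1]; ring
      rw [if_pos hy, if_pos hy, h2, h1, map_mul, map_sub, map_one, mul_inv]; unfold fJ; ring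
    · rw [if_neg hy, if_neg hy, mul_zero]
  have l3 : ∑' v, (if Z v = 0 then φ v * (-3 * ((X v)⁻¹ ^ 4 * (conj (b v))⁻¹ ^ 2)) else 0) =
      -(3 * (conj γ)⁻¹ ^ 2 * ∑' v, (if Z v = 0 then φ v * fJ (X v) else 0)) := by
    rw [← tsum_mul_left, ← tsum_neg]
    refine tsum_congr fun v => ?_
    by_cases hz : Z v = 0
    · have h2 : b v = γ * X v := by rw [hb, hz]; ring
      rw [if_pos hz, if_pos hz, h2, map_mul, mul_inv]; unfold fJ; ring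
    · rw [if_neg hz, if_neg hz, mul_zero, neg_zero]
  have l4 : ∑' v, (if conj (b v) = 0 then
      φ v * ((2 * ((X v)⁻¹ * (Y v)⁻¹ ^ 3) - (X v)⁻¹ ^ 2 * (Y v)⁻¹ ^ 2) * (conj (Z v))⁻¹ ^ 2)
      else 0) = (2 * (γ - 1)⁻¹ ^ 3 - (γ - 1)⁻¹ ^ 2) * (conj γ)⁻¹ ^ 2 *
        ∑' v, (if b v = 0 then φ v * fJ (X v) else 0) := by
    rw [← tsum_mul_left]
    refine tsum_congr fun v => ?_
    by_cases hz : b v = 0
    · have h1 : Z v = γ * X v := by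
        have := hb v
        rw [hz] at this
        linear_combination this
      have h2 : Y v = (γ - 1) * X v := by
        have := hZ v
        rw [h1] at this
        linear_combination this
      have h3 : conj (b v) = 0 := by rw [hz, map_zero]
      rw [if_pos hz, if_pos h3, h1, h2, map_mul]
      simp only [mul_inv]
      unfold fJ
      ring
    · have h3 : conj (b v) ≠ 0 := fun h => hz ((map_eq_zero _).1 h)
      rw [if_neg hz, if_neg h3, mul_zero]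
  rw [l1, l2, l3, l4] at h

  linear_combination h

end Pool.RV.C
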