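import Pool.Agent.Work.MP_5955e5_nt.C.TBlock

/-!
# Cell RV, block (c): the T-block with `b = γ X - α Z`, and its fully pushed form (helper21)
-/

set_option autoImplicit false

open Complex ComplexConjugate

namespace Pool.RV.C

lemma Pass.smul3 {G : ℤ × ℤ → ℂ} {B : VV → VV} {c1 c2 c3 : ℂ} {p q r : VV → ℂ}
    (h : Pass G B c1 c2 c3 p q r) (c : ℂ) : Pass G B c1 c2 (c * c3) p q (fun v => c * r v) :=
  ⟨h.lat, h.inj, h.h1, h.h2, fun v => by rw [h.h3]; ring⟩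

lemma fA_inv3 (α x y z : ℂ) : fA x y (α⁻¹ * z) = conj α * fA x y z := by
  unfold fA
  rw [map_mul, map_inv₀, mul_inv, inv_inv]
  ring

lemma fB_inv3 (α x y z : ℂ) : fB x y (α⁻¹ * z) = conj α * fB x y z := by
  unfold fB
  rw [map_mul, map_inv₀, mul_inv, inv_inv]
  ring

/-- **The T-block**, `b = γ X - α Z`. -/
theorem tblock_al {φ X Y Z b : VV → ℂ} {α γ : ℂ} {M : ℝ} (hφ : ∀ v, ‖φ v‖ ≤ M) (hα : α ≠ 0)
    (hγ : γ ≠ 0) (hZ : ∀ v, X v + Y v = Z v) (hb : ∀ v, b v = γ * X v - α * Z v)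
    {G1 G2 G3 G4 : ℤ × ℤ → ℂ} {B1 B2 B3 B4 : VV → VV}
    {a1 a2 a3 b1 b2 b3 c1 c2 c3 d1 d2 d3 : ℂ}
    (P1 : Pass G1 B1 a1 a2 a3 X Z b) (P2 : Pass G2 B2 b1 b2 b3 Y Z b)
    (P3 : Pass G3 B3 c1 c2 c3 Y X Z) (P4 : Pass G4 B4 d1 d2 d3 Y X b) :
    conj α * (∑' v, φ v * fA (X v) (Z v) (b v) - ∑' v, φ v * fA (Y v) (Z v) (b v)
      - 2 * ∑' v, φ v * fB (Y v) (Z v) (b v))
      - conj α * (conj γ)⁻¹ * (∑' v, φ v * fA (Y v) (X v) (Z v)
        - 2 * ∑' v, φ v * fB (Y v) (X v) (Z v))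
      - conj α ^ 2 * (conj γ)⁻¹ * (∑' v, φ v * fA (Y v) (X v) (b v)
        - 2 * ∑' v, φ v * fB (Y v) (X v) (b v)) =
    3 * ∑' v, (if X v = 0 then φ v * fJ (Y v) else 0)
      + conj α * (conj γ - conj α)⁻¹ * ∑' v, (if Y v = 0 then φ v * fJ (X v) else 0)
      - 3 * (conj α ^ 2 * (conj γ)⁻¹ ^ 2) * ∑' v, (if Z v = 0 then φ v * fJ (X v) else 0)
      + (2 * (α ^ 3 * (γ - α)⁻¹ ^ 3) - α ^ 2 * (γ - α)⁻¹ ^ 2) * (conj α ^ 2 * (conj γ)⁻¹ ^ 2) *
        ∑' v, (if b v = 0 then φ v * fJ (X v) else 0) := by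
  have hα' : conj α ≠ 0 := (map_ne_zero _).mpr hα
  have hγα : α⁻¹ * γ ≠ 0 := mul_ne_zero (inv_ne_zero hα) hγ
  have h := tblock hφ hγα hZ (b := fun v => α⁻¹ * b v)
    (fun v => by simp only [hb]; field_simp) (P1.smul3 α⁻¹) (P2.smul3 α⁻¹) P3 (P4.smul3 α⁻¹)
  have e1 : ∀ v, φ v * fA (X v) (Z v) (α⁻¹ * b v) = conj α * (φ v * fA (X v) (Z v) (b v)) :=
    fun v => by rw [fA_inv3]; ring
  have e2 : ∀ v, φ v * fA (Y v) (Z v) (α⁻¹ * b v) = conj α * (φ v * fA (Y v) (Z v) (b v)) :=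
    fun v => by rw [fA_inv3]; ring
  have e3 : ∀ v, φ v * fB (Y v) (Z v) (α⁻¹ * b v) = conj α * (φ v * fB (Y v) (Z v) (b v)) :=
    fun v => by rw [fB_inv3]; ring
  have e4 : ∀ v, φ v * fA (Y v) (X v) (α⁻¹ * b v) = conj α * (φ v * fA (Y v) (X v) (b v)) :=
    fun v => by rw [fA_inv3]; ring
  have e5 : ∀ v, φ v * fB (Y v) (X v) (α⁻¹ * b v) = conj α * (φ v * fB (Y v) (X v) (b v)) :=
    fun v => by rw [fB_inv3]; ring
  have e6 : ∀ v, (if α⁻¹ * b v = 0 then φ v * fJ (X v) else 0) =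
      (if b v = 0 then φ v * fJ (X v) else 0) := fun v => by
    by_cases h0 : b v = 0
    · rw [if_pos h0, if_pos (by rw [h0, mul_zero])]
    · rw [if_neg h0, if_neg (mul_ne_zero (inv_ne_zero hα) h0)]
  rw [tsum_congr e1, tsum_congr e2, tsum_congr e3, tsum_congr e4, tsum_congr e5, tsum_congr e6,
    tsum_mul_left, tsum_mul_left, tsum_mul_left, tsum_mul_left, tsum_mul_left, map_mul,
    map_inv₀] at h
  have k1 : ((conj α)⁻¹ * conj γ)⁻¹ = conj α * (conj γ)⁻¹ := by rw [mul_inv, inv_inv]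
  have k2 : ((conj α)⁻¹ * conj γ - 1)⁻¹ = conj α * (conj γ - conj α)⁻¹ := by
    rw [show (conj α)⁻¹ * conj γ - 1 = (conj α)⁻¹ * (conj γ - conj α) by field_simp, mul_inv,
      inv_inv]
  have k3 : (α⁻¹ * γ - 1)⁻¹ = α * (γ - α)⁻¹ := by
    rw [show α⁻¹ * γ - 1 = α⁻¹ * (γ - α) by field_simp, mul_inv, inv_inv]
  rw [k1, k2, k3] at h
  linear_combination h

/-- **The pushed T-block**: all sums are standard sums over the target lattices. `ψ i` is the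
pushed weight for the `i`-th triangle, `J1 .. J4` are the four line sums. -/
theorem tblock_push {φ X Y Z b : VV → ℂ} {α γ : ℂ} {M : ℝ} (hφ : ∀ v, ‖φ v‖ ≤ M) (hα : α ≠ 0)
    (hγ : γ ≠ 0) (hZ : ∀ v, X v + Y v = Z v) (hb : ∀ v, b v = γ * X v - α * Z v)
    {G1 G2 G3 G4 : ℤ × ℤ → ℂ} {B1 B2 B3 B4 : VV → VV} {ψ1 ψ2 ψ3 ψ4 : VV → ℂ}
    {a1 a2 a3 b1 b2 b3 c1 c2 c3 d1 d2 d3 J1 J2 J3 J4 : ℂ}
    (P1 : Pass G1 B1 a1 a2 a3 X Z b) (P2 : Pass G2 B2 b1 b2 b3 Y Z b)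
    (P3 : Pass G3 B3 c1 c2 c3 Y X Z) (P4 : Pass G4 B4 d1 d2 d3 Y X b)
    (p1 : ∀ v, ψ1 (B1 v) = φ v) (r1 : ∀ u, ψ1 u ≠ 0 → u ∈ Set.range B1)
    (p2 : ∀ v, ψ2 (B2 v) = φ v) (r2 : ∀ u, ψ2 u ≠ 0 → u ∈ Set.range B2)
    (p3 : ∀ v, ψ3 (B3 v) = φ v) (r3 : ∀ u, ψ3 u ≠ 0 → u ∈ Set.range B3)
    (p4 : ∀ v, ψ4 (B4 v) = φ v) (r4 : ∀ u, ψ4 u ≠ 0 → u ∈ Set.range B4)
    (hJ1 : ∑' v, (if X v = 0 then φ v * fJ (Y v) else 0) = J1)
    (hJ2 : ∑' v, (if Y v = 0 then φ v * fJ (X v) else 0) = J2)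
    (hJ3 : ∑' v, (if Z v = 0 then φ v * fJ (X v) else 0) = J3)
    (hJ4 : ∑' v, (if b v = 0 then φ v * fJ (X v) else 0) = J4) :
    conj α * (fA a1 a2 a3 * ∑' u, ψ1 u * stA G1 u - fA b1 b2 b3 * ∑' u, ψ2 u * stA G2 u
      - 2 * (fB b1 b2 b3 * ∑' u, ψ2 u * stB G2 u))
      - conj α * (conj γ)⁻¹ * (fA c1 c2 c3 * ∑' u, ψ3 u * stA G3 u
        - 2 * (fB c1 c2 c3 * ∑' u, ψ3 u * stB G3 u))
      - conj α ^ 2 * (conj γ)⁻¹ * (fA d1 d2 d3 * ∑' u, ψ4 u * stA G4 u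
        - 2 * (fB d1 d2 d3 * ∑' u, ψ4 u * stB G4 u)) =
    3 * J1 + conj α * (conj γ - conj α)⁻¹ * J2 - 3 * (conj α ^ 2 * (conj γ)⁻¹ ^ 2) * J3
      + (2 * (α ^ 3 * (γ - α)⁻¹ ^ 3) - α ^ 2 * (γ - α)⁻¹ ^ 2) * (conj α ^ 2 * (conj γ)⁻¹ ^ 2) *
        J4 := by
  have h := tblock_al hφ hα hγ hZ hb P1 P2 P3 P4
  rw [hJ1, hJ2, hJ3, hJ4, P1.push_fA p1 r1, P2.push_fA p2 r2, P2.push_fB p2 r2,
    P3.push_fA p3 r3, P3.push_fB p3 r3, P4.push_fA p4 r4, P4.push_fB p4 r4] at h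
  exact h

/-- **(D)** in pushed form, type `A`: the same lattice sum computed through an injective map
which multiplies all legs by one constant. -/
theorem dist_A {G G' : ℤ × ℤ → ℂ} (hG : Lat G) {B : VV → VV} (hB : Function.Injective B) {c : ℂ}
    (h1 : ∀ v, G v.1 = c * G' (B v).1) (h2 : ∀ v, G v.2 = c * G' (B v).2)
    {φ ψ : VV → ℂ} (e1 : ∀ v, ψ (B v) = φ v) (e2 : ∀ u, ψ u ≠ 0 → u ∈ Set.range B) :
    ∑' v, φ v * stA G v = fA c c c * ∑' u, ψ u * stA G' u := by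
  refine push_const hB (fun v => ?_) e1 e2
  unfold stA
  rw [h1, h2, ← fA_smul]
  congr 1
  ring

/-- **(D)** in pushed form, type `B`. -/
theorem dist_B {G G' : ℤ × ℤ → ℂ} (hG : Lat G) {B : VV → VV} (hB : Function.Injective B) {c : ℂ}
    (h1 : ∀ v, G v.1 = c * G' (B v).1) (h2 : ∀ v, G v.2 = c * G' (B v).2)
    {φ ψ : VV → ℂ} (e1 : ∀ v, ψ (B v) = φ v) (e2 : ∀ u, ψ u ≠ 0 → u ∈ Set.range B) :
    ∑' v, φ v * stB G v = fB c c c * ∑' u, ψ u * stB G' u := by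
  refine push_const hB (fun v => ?_) e1 e2
  unfold stB
  rw [h1, h2, ← fB_smul]
  congr 1
  ring

/-- `(g1, g2) ↦ (g2, -(g1+g2))`: the permutation of the legs `(x,y,z) → (z, y, x)` reads
`(g1, g2) → (g1, -(g1+g2))` in our orientation `(x,y,z) = (-(g1+g2), g1, g2)`. -/
def eqZX : VV ≃ VV where
  toFun v := (v.1, -(v.1 + v.2))
  invFun v := (v.1, -(v.1 + v.2))
  left_inv v := by simp
  right_inv v := by simp

/-- swap of `y` and `z` -/
def eqYZ : VV ≃ VV := Equiv.prodComm _ _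

/-- `(x,y,z) → (y,x,z)` -/
def eqXY : VV ≃ VV where
  toFun v := (-(v.1 + v.2), v.2)
  invFun v := (-(v.1 + v.2), v.2)
  left_inv v := by simp
  right_inv v := by simp

lemma lat_neg {G : ℤ × ℤ → ℂ} (h : Lat G) (v : ℤ × ℤ) : G (-v) = -G v := by
  have h0 : G 0 = 0 := by
    have := h.add 0 0
    rw [add_zero] at this
    linear_combination -this
  have := h.add v (-v)
  rw [add_neg_cancel, h0] at this
  linear_combination -this

/-- `(x,y,z) → (y,z,x)` -/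
def eqC : VV ≃ VV where
  toFun v := (v.2, -(v.1 + v.2))
  invFun v := (-(v.1 + v.2), v.1)
  left_inv v := by simp
  right_inv v := by simp

lemma tsum_reindex (e : VV ≃ VV) (φ F : VV → ℂ) :
    ∑' v, φ v * F (e v) = ∑' v, φ (e.symm v) * F v := by
  rw [← e.tsum_eq (fun v => φ (e.symm v) * F v)]
  exact tsum_congr fun v => by rw [e.symm_apply_apply]

lemma summable_reindex (e : VV ≃ VV) {φ F : VV → ℂ} (h : Summable fun v => φ (e.symm v) * F v) :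
    Summable fun v => φ v * F (e v) :=
  (e.summable_iff.mpr h).congr fun v => by simp only [Function.comp_apply, e.symm_apply_apply]

/-- **(R2)** for an arbitrary bounded weight, all `C`-terms written with type `B`.
Legs `x = -(g1+g2)`, `y = g1`, `z = g2`: `A(x;y;z) + A(z;y;x) = C(y) - C(x) - C(z)` and
`C(x;y,z) = -B(x;y;z) - B(x;z;y)`. -/
theorem rel2 {G : ℤ × ℤ → ℂ} (h : Lat G) {φ : VV → ℂ} {M : ℝ} (hφ : ∀ v, ‖φ v‖ ≤ M) :
    ∑' v, φ v * stA G v + ∑' v, φ (eqZX v) * stA G v =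
      ∑' v, (φ v + φ (eqYZ v) - φ (eqXY v) - φ (eqC.symm v) + φ (eqZX v) + φ (eqC v)) *
        stB G v := by
  have key : ∀ v, φ v * stA G v + φ v * stA G (eqZX v) =
      φ v * stB G v + φ v * stB G (eqYZ v) - φ v * stB G (eqXY v) - φ v * stB G (eqC v)
        + φ v * stB G (eqZX v) + φ v * stB G (eqC.symm v) := by
    intro v
    have a1 : stA G (eqZX v) = fA (G v.2) (G v.1) (-(G v.1 + G v.2)) := by
      simp only [stA, eqZX, Equiv.coe_fn_mk]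
      rw [lat_neg h, h.add]; congr 1; ring
    have b1 : stB G (eqYZ v) = fB (-(G v.1 + G v.2)) (G v.2) (G v.1) := by
      simp only [stB, eqYZ, Equiv.prodComm_apply, Prod.fst_swap, Prod.snd_swap]
      rw [add_comm (G v.2)]
    have b2 : stB G (eqXY v) = fB (G v.1) (-(G v.1 + G v.2)) (G v.2) := by
      simp only [stB, eqXY, Equiv.coe_fn_mk]
      rw [lat_neg h, h.add]; congr 1; ring
    have b3 : stB G (eqC v) = fB (G v.1) (G v.2) (-(G v.1 + G v.2)) := by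
      simp only [stB, eqC, Equiv.coe_fn_mk]
      rw [lat_neg h, h.add]; congr 1; ring
    have b4 : stB G (eqZX v) = fB (G v.2) (G v.1) (-(G v.1 + G v.2)) := by
      simp only [stB, eqZX, Equiv.coe_fn_mk]
      rw [lat_neg h, h.add]; congr 1; ring
    have b5 : stB G (eqC.symm v) = fB (G v.2) (-(G v.1 + G v.2)) (G v.1) := by
      simp only [stB, eqC, Equiv.coe_fn_symm_mk]
      rw [lat_neg h, h.add]; congr 1; ring
    rw [a1, b1, b2, b3, b4, b5]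
    have hz : -(G v.1 + G v.2) + G v.1 + G v.2 = 0 := by ring
    have hz1 : G v.1 + -(G v.1 + G v.2) + G v.2 = 0 := by ring
    have hz2 : G v.2 + -(G v.1 + G v.2) + G v.1 = 0 := by ring
    have k := fA_add hz
    rw [fC_eq hz, fC_eq hz1, fC_eq hz2] at k
    simp only [stA, stB]
    linear_combination φ v * k
  have S : ∀ {ψ : VV → ℂ} (_ : ∀ v, ‖ψ v‖ ≤ M), Summable fun v => ψ v * stB G v :=
    fun hψ => h.summable_stB hψ
  have s0 := h.summable_stA hφ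
  have s1 : Summable fun v => φ v * stA G (eqZX v) :=
    summable_reindex eqZX (h.summable_stA fun v => hφ _)
  have u0 := S hφ
  have u1 : Summable fun v => φ v * stB G (eqYZ v) := summable_reindex eqYZ (S fun v => hφ _)
  have u2 : Summable fun v => φ v * stB G (eqXY v) := summable_reindex eqXY (S fun v => hφ _)
  have u3 : Summable fun v => φ v * stB G (eqC v) := summable_reindex eqC (S fun v => hφ _)
  have u4 : Summable fun v => φ v * stB G (eqZX v) := summable_reindex eqZX (S fun v => hφ _)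
  have u5 : Summable fun v => φ v * stB G (eqC.symm v) :=
    summable_reindex eqC.symm (S fun v => hφ _)
  have L : ∑' v, φ (eqZX v) * stA G v = ∑' v, φ v * stA G (eqZX v) :=
    (tsum_reindex eqZX φ (stA G)).symm
  have R : ∑' v, (φ v + φ (eqYZ v) - φ (eqXY v) - φ (eqC.symm v) + φ (eqZX v) + φ (eqC v)) *
        stB G v = ∑' v, φ v * stB G v + ∑' v, φ v * stB G (eqYZ v) - ∑' v, φ v * stB G (eqXY v)
        - ∑' v, φ v * stB G (eqC v) + ∑' v, φ v * stB G (eqZX v)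
        + ∑' v, φ v * stB G (eqC.symm v) := by
    have r1 : ∑' v, φ v * stB G (eqYZ v) = ∑' v, φ (eqYZ v) * stB G v :=
      tsum_reindex eqYZ φ (stB G)
    have r2 : ∑' v, φ v * stB G (eqXY v) = ∑' v, φ (eqXY v) * stB G v :=
      tsum_reindex eqXY φ (stB G)
    have r3 : ∑' v, φ v * stB G (eqC v) = ∑' v, φ (eqC.symm v) * stB G v :=
      tsum_reindex eqC φ (stB G)
    have r4 : ∑' v, φ v * stB G (eqZX v) = ∑' v, φ (eqZX v) * stB G v :=
      tsum_reindex eqZX φ (stB G)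
    have r5 : ∑' v, φ v * stB G (eqC.symm v) = ∑' v, φ (eqC v) * stB G v :=
      tsum_reindex eqC.symm φ (stB G)
    have w1 : Summable fun v => φ (eqYZ v) * stB G v := S fun v => hφ _
    have w2 : Summable fun v => φ (eqXY v) * stB G v := S fun v => hφ _
    have w3 : Summable fun v => φ (eqC.symm v) * stB G v := S fun v => hφ _
    have w4 : Summable fun v => φ (eqZX v) * stB G v := S fun v => hφ _
    have w5 : Summable fun v => φ (eqC v) * stB G v := S fun v => hφ _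
    rw [r1, r2, r3, r4, r5, ← u0.tsum_add w1, ← (u0.add w1).tsum_sub w2,
      ← ((u0.add w1).sub w2).tsum_sub w3, ← (((u0.add w1).sub w2).sub w3).tsum_add w4,
      ← ((((u0.add w1).sub w2).sub w3).add w4).tsum_add w5]
    exact tsum_congr fun v => by ring
  rw [L, R, ← s0.tsum_add s1, ← u0.tsum_add u1, ← (u0.add u1).tsum_sub u2,
    ← ((u0.add u1).sub u2).tsum_sub u3, ← (((u0.add u1).sub u2).sub u3).tsum_add u4,
    ← ((((u0.add u1).sub u2).sub u3).add u4).tsum_add u5]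
  exact tsum_congr key

/-- the two-term relation at the left end: `C = -B - B∘swap` summed -/
theorem relC {G : ℤ × ℤ → ℂ} (h : Lat G) {φ : VV → ℂ} {M : ℝ} (hφ : ∀ v, ‖φ v‖ ≤ M) :
    ∑' v : VV, φ v * fC (-(G v.1 + G v.2)) (G v.1) (G v.2) =
      ∑' v, (-φ v - φ (eqYZ v)) * stB G v := by
  have u0 := h.summable_stB hφ
  have u1 : Summable fun v => φ v * stB G (eqYZ v) :=
    summable_reindex eqYZ (h.summable_stB fun v => hφ _)
  have w1 : Summable fun v => φ (eqYZ v) * stB G v := h.summable_stB fun v => hφ _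
  have r1 : ∑' v, φ v * stB G (eqYZ v) = ∑' v, φ (eqYZ v) * stB G v :=
    tsum_reindex eqYZ φ (stB G)
  have key : ∀ v : VV, φ v * fC (-(G v.1 + G v.2)) (G v.1) (G v.2) =
      -(φ v * stB G v) - φ v * stB G (eqYZ v) := by
    intro v
    have b1 : stB G (eqYZ v) = fB (-(G v.1 + G v.2)) (G v.2) (G v.1) := by
      simp only [stB, eqYZ, Equiv.prodComm_apply, Prod.fst_swap, Prod.snd_swap]
      rw [add_comm (G v.2)]
    rw [b1, fC_eq (by ring)]
    simp only [stB]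
    ring
  rw [tsum_congr key, u0.neg.tsum_sub u1, r1, ← u0.neg.tsum_sub w1]
  exact tsum_congr fun v => by ring

end Pool.RV.C
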