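import Pool.Agent.Work.MP_5955e5_nt.C.Chk
import Pool.Agent.Work.MP_5955e5_nt.C.TBlock2

/-!
# Cell RV, block (c): checker, part 2: the T item (helper17)
-/

set_option autoImplicit false

open Complex ComplexConjugate

namespace Pool.RV.C

open Kw

/-! ### fractions -/

/-- a fraction of two elements of `ℤ[ω]` -/
structure Fr where
  n : Kw
  d : Kw

namespace Fr

/-- value -/
noncomputable def v (x : Fr) : ℂ := ev x.n / ev x.d

/-- product -/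
def ml (x y : Fr) : Fr := ⟨x.n * y.n, x.d * y.d⟩

/-- inverse -/
def iv (x : Fr) : Fr := ⟨x.d, x.n⟩

/-- conjugate -/
def cg (x : Fr) : Fr := ⟨cj x.n, cj x.d⟩

/-- integer multiple -/
def zz (m : ℤ) (x : Fr) : Fr := ⟨zm m x.n, x.d⟩

lemma v_ml (x y : Fr) : (x.ml y).v = x.v * y.v := by
  simp only [v, ml, ev_mul, mul_div_mul_comm]

lemma v_iv (x : Fr) : x.iv.v = (x.v)⁻¹ := by
  simp only [v, iv, inv_div]

lemma v_cg (x : Fr) : x.cg.v = conj x.v := by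
  simp only [v, cg, ev_cj, map_div₀]

lemma v_zz (m : ℤ) (x : Fr) : (x.zz m).v = m * x.v := by
  simp only [v, zz, ev_zm, mul_div_assoc]

/-- `κ = N x` -/
def isz (x : Fr) (N : ℤ) (κ : Kw) : Bool := decide (x.d ≠ 0) && decide (κ * x.d = zm N x.n)

lemma isz_spec {x : Fr} {N : ℤ} {κ : Kw} (h : x.isz N κ = true) : ev κ = N * x.v := by
  simp only [isz, Bool.and_eq_true, decide_eq_true_eq] at h
  have h1 := ev_ne_zero h.1
  have h2 := congrArg ev h.2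
  rw [ev_mul, ev_zm] at h2
  rw [v, eq_comm, mul_div_assoc', div_eq_iff h1, h2]

end Fr

/-- `fA c1 c2 c3` as a fraction -/
def frA (c1 c2 c3 : Fr) : Fr :=
  ((c1.ml c1).ml (((c2.ml c2).ml c2.cg).ml c3.cg)).iv

/-- `fB c1 c2 c3` as a fraction -/
def frB (c1 c2 c3 : Fr) : Fr :=
  ((c1.ml (c1.ml c1)).ml ((c2.ml c2.cg).ml c3.cg)).iv

/-- `fJ c` as a fraction -/
def frJ (c : Fr) : Fr := (((c.ml c).ml (c.ml c)).ml (c.cg.ml c.cg)).iv

lemma frA_v (c1 c2 c3 : Fr) : (frA c1 c2 c3).v = fA c1.v c2.v c3.v := by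
  simp only [frA, Fr.v_iv, Fr.v_ml, Fr.v_cg, fA, mul_inv]; ring

lemma frB_v (c1 c2 c3 : Fr) : (frB c1 c2 c3).v = fB c1.v c2.v c3.v := by
  simp only [frB, Fr.v_iv, Fr.v_ml, Fr.v_cg, fB, mul_inv]; ring

lemma frJ_v (c : Fr) : (frJ c).v = fJ c.v := by
  simp only [frJ, Fr.v_iv, Fr.v_ml, Fr.v_cg, fJ, mul_inv]; ring

/-! ### passages -/

/-- passage data -/
structure PD where
  k : Bool
  M : M4
  C : M4
  c1 : Fr
  c2 : Fr
  c3 : Fr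
  g : Tb

/-- `F = c · L` -/
def eqF (F : Fm) (c : Fr) (L : Fm) : Bool := decide (c.d ≠ 0) && decide (F.sm c.d = L.sm c.n)

lemma eqF_spec {F : Fm} {c : Fr} {L : Fm} (h : eqF F c L = true) (v : V4) :
    F.at' v = c.v * L.at' v := by
  simp only [eqF, Bool.and_eq_true, decide_eq_true_eq] at h
  have h1 := ev_ne_zero h.1
  have h2 := congrArg (fun f => f.at' v) h.2
  simp only [Fm.at_sm] at h2
  rw [Fr.v, div_mul_eq_mul_div, eq_div_iff h1]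
  linear_combination h2

/-- check of a passage -/
def PD.ok (P : PD) (k1 k2 : Bool) (f : Tb) (p q r : Fm) : Bool :=
  pushOK k1 k2 P.k P.M P.C f P.g && eqF p P.c1 ((lg1 P.k).cp P.M)
    && eqF q P.c2 ((lg2 P.k).cp P.M) && eqF r P.c3 ((lg3 P.k).cp P.M)

lemma lat_gk (k : Bool) : Lat (gk k) := by
  have h := lat_smul (lat_gl (tk_im_pos k)) (sk k : ℂ)
  have e : (fun v => (sk k : ℂ) * gl (tk k) v) = gk k := funext fun v => (gk_eq k v).symm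
  rwa [e] at h

lemma PD.pass {P : PD} {k1 k2 : Bool} {f : Tb} {p q r : Fm} (h : P.ok k1 k2 f p q r = true) :
    Pass (gk P.k) P.M.app P.c1.v P.c2.v P.c3.v p.at' q.at' r.at' := by
  simp only [PD.ok, Bool.and_eq_true] at h
  obtain ⟨⟨⟨h0, h1⟩, h2⟩, h3⟩ := h
  refine ⟨lat_gk P.k, (push_spec h0).1, fun v => ?_, fun v => ?_, fun v => ?_⟩
  · rw [eqF_spec h1, Fm.at_cp, lg1_at]
  · rw [eqF_spec h2, Fm.at_cp, lg2_at]
  · rw [eqF_spec h3, Fm.at_cp, lg3_at]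

lemma PD.push {P : PD} {k1 k2 : Bool} {f : Tb} {p q r : Fm} (h : P.ok k1 k2 f p q r = true) :
    pushOK k1 k2 P.k P.M P.C f P.g = true := by
  simp only [PD.ok, Bool.and_eq_true] at h
  exact h.1.1.1

lemma FF_false (k : Bool) (u : V4) : FF false k u = stA (gk k) u := rfl

lemma FF_true (k : Bool) (u : V4) : FF true k u = stB (gk k) u := rfl

/-! ### lines -/

/-- line data -/
structure LD where
  k : Bool
  e : M42
  e' : M24
  F : M42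
  d : ℤ
  c : Fr
  psi : List Kw

/-- integer rows of a form -/
def rws (l : Fm) : M24 := ⟨l.c1.a, l.c2.a, l.c3.a, l.c4.a, l.c1.b, l.c2.b, l.c3.b, l.c4.b⟩

lemma rws_spec (l : Fm) (v : V4) : l.at' v = 0 ↔ (rws l).app v = 0 := by
  have h : l.at' v = (((rws l).app v).1 : ℂ) + (((rws l).app v).2 : ℂ) * om := by
    simp only [Fm.at', rws, M24.app, ev]
    push_cast
    ring
  rw [h, int_om_eq_zero]
  constructor
  · rintro ⟨h1, h2⟩; exact Prod.ext h1 h2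
  · intro h; rw [h]; exact ⟨rfl, rfl⟩

/-- application of a `4 × 2` matrix, integers only -/
def ap42 (A : M42) (v : ℤ × ℤ) : V4 :=
  ((A.a11 * v.1 + A.a12 * v.2, A.a21 * v.1 + A.a22 * v.2),
   (A.a31 * v.1 + A.a32 * v.2, A.a41 * v.1 + A.a42 * v.2))

lemma ap42_eq (A : M42) (v : ℤ × ℤ) : ap42 A v = A.app v := rfl

/-- `f ∘ e` on the basis -/
def cp42 (f : Fm) (e : M42) : Kw × Kw :=
  (zm e.a11 f.c1 + zm e.a21 f.c2 + zm e.a31 f.c3 + zm e.a41 f.c4,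
   zm e.a12 f.c1 + zm e.a22 f.c2 + zm e.a32 f.c3 + zm e.a42 f.c4)

lemma cp42_spec (f : Fm) (e : M42) (w : ℤ × ℤ) :
    f.at' (e.app w) = ev (cp42 f e).1 * w.1 + ev (cp42 f e).2 * w.2 := by
  simp only [Fm.at', cp42, M42.app, ev_add, ev_zm]
  push_cast
  ring

/-- period conditions for `e` -/
def per42 (p : ℤ × ℤ) (q : V4) (e : M42) : Bool :=
  dv q.1.1 (e.a11 * p.1) && dv q.1.1 (e.a12 * p.2) && dv q.1.2 (e.a21 * p.1)
    && dv q.1.2 (e.a22 * p.2) && dv q.2.1 (e.a31 * p.1) && dv q.2.1 (e.a32 * p.2)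
    && dv q.2.2 (e.a41 * p.1) && dv q.2.2 (e.a42 * p.2)

lemma per42_spec {p : ℤ × ℤ} {q : V4} {e : M42} (h : per42 p q e = true) (r : ℤ × ℤ) (x y : ℤ) :
    ∃ w, ap42 e (r.1 + p.1 * x, r.2 + p.2 * y) = sft (ap42 e r) q w := by
  simp only [per42, Bool.and_eq_true] at h
  obtain ⟨⟨⟨⟨⟨⟨⟨h1, h2⟩, h3⟩, h4⟩, h5⟩, h6⟩, h7⟩, h8⟩ := h
  obtain ⟨x1, h1⟩ := dv_dvd h1
  obtain ⟨x2, h2⟩ := dv_dvd h2
  obtain ⟨x3, h3⟩ := dv_dvd h3
  obtain ⟨x4, h4⟩ := dv_dvd h4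
  obtain ⟨x5, h5⟩ := dv_dvd h5
  obtain ⟨x6, h6⟩ := dv_dvd h6
  obtain ⟨x7, h7⟩ := dv_dvd h7
  obtain ⟨x8, h8⟩ := dv_dvd h8
  refine ⟨((x1 * x + x2 * y, x3 * x + x4 * y), (x5 * x + x6 * y, x7 * x + x8 * y)), ?_⟩
  simp only [ap42, sft]
  refine Prod.ext (Prod.ext ?_ ?_) (Prod.ext ?_ ?_)
  · simp only; linear_combination x * h1 + y * h2
  · simp only; linear_combination x * h3 + y * h4
  · simp only; linear_combination x * h5 + y * h6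
  · simp only; linear_combination x * h7 + y * h8

/-- check of a line: `l` the form, `h` the other form, `h ∘ e = c · g_k`, `psi = f ∘ e` -/
def LD.ok (L : LD) (k1 k2 : Bool) (f : Tb) (l h : Fm) : Bool :=
  decide (L.d ≠ 0) && decide ((rws l).mul42 L.e = M2.scal 0) && decide (L.e'.mul42 L.e = M2.scal 1)
    && decide (((M4.scal L.d).mul (L.e.mul24 L.e')).add (L.F.mul24 (rws l)) = M4.scal L.d)
    && per42 (pr L.k) (pr k1, pr k2) L.e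
    && ((List.range 12).all fun i =>
        decide (L.psi.getD i 0 = f.vl k1 k2 (ap42 L.e (rp L.k i))))
    && decide (L.c.d ≠ 0) && decide ((cp42 h L.e).1 * L.c.d = b1 L.k * L.c.n)
    && decide ((cp42 h L.e).2 * L.c.d = b2 L.k * L.c.n)

theorem LD.sound {L : LD} {k1 k2 : Bool} {f : Tb} {l h : Fm} (H : L.ok k1 k2 f l h = true) :
    ∑' v : V4, (if l.at' v = 0 then ev (f.vl k1 k2 v) * fJ (h.at' v) else 0)
      = fJ L.c.v * JJ L.k L.psi := by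
  simp only [LD.ok, Bool.and_eq_true, decide_eq_true_eq, List.all_eq_true, List.mem_range] at H
  obtain ⟨⟨⟨⟨⟨⟨⟨⟨hd, h1⟩, h2⟩, h3⟩, h4⟩, h5⟩, h6⟩, h7⟩, h8⟩ := H
  rw [tsum_line_mat (L := rws l) (e := L.e) (e' := L.e') (f := L.F) (d := L.d) hd (rws_spec l)
    h1 h2 h3 (fun v => ev (f.vl k1 k2 v) * fJ (h.at' v)), JJ, ← tsum_mul_left]
  refine tsum_congr fun w => ?_
  have e1 : f.vl k1 k2 (L.e.app w) = L.psi.getD (cl L.k w) 0 := by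
    obtain ⟨x, y, hw⟩ := rp_cl L.k w
    obtain ⟨w', hw'⟩ := per42_spec h4 (rp L.k (cl L.k w)) x y
    rw [← hw] at hw'
    rw [← ap42_eq, hw', Tb.vl_sft, h5 _ (cl_lt _ _)]
  have hc := ev_ne_zero h6
  have e2 : h.at' (L.e.app w) = L.c.v * gk L.k w := by
    rw [cp42_spec, gk, Fr.v, div_mul_eq_mul_div, eq_div_iff hc]
    have h7' := congrArg ev h7
    have h8' := congrArg ev h8
    rw [ev_mul, ev_mul] at h7' h8'
    linear_combination (w.1 : ℂ) * h7' + (w.2 : ℂ) * h8'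
  rw [e1, e2, fJ_mul]
  ring

/-! ### the T item -/

/-- data of a T item -/
structure TB where
  k1 : Bool
  k2 : Bool
  f : Tb
  X : Fm
  Y : Fm
  al : Kw
  ga : Kw
  P1 : PD
  P2 : PD
  P3 : PD
  P4 : PD
  L1 : LD
  L2 : LD
  L3 : LD
  L4 : LD
  q1 : Kw
  q2 : Kw
  q3 : Kw
  q4 : Kw
  q5 : Kw
  q6 : Kw
  q7 : Kw
  r1 : Kw
  r2 : Kw
  r3 : Kw
  r4 : Kw

namespace TB

/-- `Z = X + Y` -/
def Z (t : TB) : Fm := t.X.ad t.Y

/-- `b = γ X - α Z` -/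
def b (t : TB) : Fm := (t.X.sm t.ga).sb (t.Z.sm t.al)

/-- `1 / ᾱ` -/
def ia (t : TB) : Fr := ⟨1, cj t.al⟩

/-- `1 / γ̄` -/
def ig (t : TB) : Fr := ⟨1, cj t.ga⟩

/-- two-loop terms -/
def tms (t : TB) : List Tm :=
  [⟨t.q1, false, t.P1.k, t.P1.g⟩, ⟨t.q2, false, t.P2.k, t.P2.g⟩, ⟨t.q3, true, t.P2.k, t.P2.g⟩,
   ⟨t.q4, false, t.P3.k, t.P3.g⟩, ⟨t.q5, true, t.P3.k, t.P3.g⟩,
   ⟨t.q6, false, t.P4.k, t.P4.g⟩, ⟨t.q7, true, t.P4.k, t.P4.g⟩]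

/-- one-loop terms -/
def jms (t : TB) : List Jm :=
  [⟨t.r1, t.L1.k, t.L1.psi⟩, ⟨t.r2, t.L2.k, t.L2.psi⟩, ⟨t.r3, t.L3.k, t.L3.psi⟩,
   ⟨t.r4, t.L4.k, t.L4.psi⟩]

/-- check of the passages -/
def okP (t : TB) : Bool :=
  t.P1.ok t.k1 t.k2 t.f t.X t.Z t.b && t.P2.ok t.k1 t.k2 t.f t.Y t.Z t.b
    && t.P3.ok t.k1 t.k2 t.f t.Y t.X t.Z && t.P4.ok t.k1 t.k2 t.f t.Y t.X t.b

/-- check of the lines -/
def okL (t : TB) : Bool :=
  t.L1.ok t.k1 t.k2 t.f t.X t.Y && t.L2.ok t.k1 t.k2 t.f t.Y t.X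
    && t.L3.ok t.k1 t.k2 t.f t.Z t.X && t.L4.ok t.k1 t.k2 t.f t.b t.X

/-- check of the coefficients -/
def okC (t : TB) (N : ℤ) : Bool :=
  decide (t.al ≠ 0) && decide (t.ga ≠ 0) && decide (t.ga - t.al ≠ 0)
    && (t.ia.ml (frA t.P1.c1 t.P1.c2 t.P1.c3)).isz N t.q1
    && ((t.ia.ml (frA t.P2.c1 t.P2.c2 t.P2.c3)).zz (-1)).isz N t.q2
    && ((t.ia.ml (frB t.P2.c1 t.P2.c2 t.P2.c3)).zz (-2)).isz N t.q3
    && (((t.ia.ml t.ig).ml (frA t.P3.c1 t.P3.c2 t.P3.c3)).zz (-1)).isz N t.q4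
    && (((t.ia.ml t.ig).ml (frB t.P3.c1 t.P3.c2 t.P3.c3)).zz 2).isz N t.q5
    && ((t.ig.ml (frA t.P4.c1 t.P4.c2 t.P4.c3)).zz (-1)).isz N t.q6
    && ((t.ig.ml (frB t.P4.c1 t.P4.c2 t.P4.c3)).zz 2).isz N t.q7
    && (((t.ia.ml t.ia).ml (frJ t.L1.c)).zz 3).isz N t.r1
    && ((t.ia.ml ⟨1, cj (t.ga - t.al)⟩).ml (frJ t.L2.c)).isz N t.r2
    && (((t.ig.ml t.ig).ml (frJ t.L3.c)).zz (-3)).isz N t.r3
    && (((⟨t.al * (t.al * (zm 3 t.al - t.ga)),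
          (t.ga - t.al) * ((t.ga - t.al) * (t.ga - t.al))⟩ : Fr).ml (t.ig.ml t.ig)).ml
          (frJ t.L4.c)).isz N t.r4

/-- the complete check -/
def ok (t : TB) (N : ℤ) : Bool := t.okP && t.okL && t.okC N

/-- **soundness of the T item** -/
theorem sound {t : TB} {N : ℤ} (h : t.ok N = true) :
    (t.tms.map Tm.val).sum = (t.jms.map Jm.val).sum := by
  simp only [ok, okP, okL, okC, Bool.and_eq_true, decide_eq_true_eq] at h
  obtain ⟨⟨⟨⟨⟨p1, p2⟩, p3⟩, p4⟩, ⟨⟨⟨l1, l2⟩, l3⟩, l4⟩⟩,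
    ⟨⟨⟨⟨⟨⟨⟨⟨⟨⟨⟨⟨⟨ha, hg⟩, hga⟩, k1⟩, k2⟩, k3⟩, k4⟩, k5⟩, k6⟩, k7⟩, k8⟩, k9⟩, k10⟩, k11⟩⟩ := h
  have ha' := ev_ne_zero ha
  have hg' := ev_ne_zero hg
  have hga' := ev_ne_zero hga
  obtain ⟨M, hM⟩ := bdd_Tb t.f t.k1 t.k2
  obtain ⟨-, a1, a2⟩ := push_spec (PD.push p1)
  obtain ⟨-, a3, a4⟩ := push_spec (PD.push p2)
  obtain ⟨-, a5, a6⟩ := push_spec (PD.push p3)
  obtain ⟨-, a7, a8⟩ := push_spec (PD.push p4)
  have H := tblock_push (φ := fun v => ev (t.f.vl t.k1 t.k2 v)) (α := ev t.al) (γ := ev t.ga)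
    (M := M) hM ha' hg' (X := t.X.at') (Y := t.Y.at') (Z := t.Z.at') (b := t.b.at')
    (fun v => by rw [Z, Fm.at_ad]) (fun v => by rw [b, Fm.at_sb, Fm.at_sm, Fm.at_sm])
    (PD.pass p1) (PD.pass p2) (PD.pass p3) (PD.pass p4) a1 a2 a3 a4 a5 a6 a7 a8
    (LD.sound l1) (LD.sound l2) (LD.sound l3) (LD.sound l4)
  have s1 : ∀ (k : Bool) (g : Tb), ∑' u : V4, ev (g.vl k k u) * stA (gk k) u = SS false k g :=
    fun k g => rfl
  have s2 : ∀ (k : Bool) (g : Tb), ∑' u : V4, ev (g.vl k k u) * stB (gk k) u = SS true k g :=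
    fun k g => rfl
  simp only [s1, s2] at H
  have e1 := Fr.isz_spec k1
  have e2 := Fr.isz_spec k2
  have e3 := Fr.isz_spec k3
  have e4 := Fr.isz_spec k4
  have e5 := Fr.isz_spec k5
  have e6 := Fr.isz_spec k6
  have e7 := Fr.isz_spec k7
  have e8 := Fr.isz_spec k8
  have e9 := Fr.isz_spec k9
  have e10 := Fr.isz_spec k10
  have e11 := Fr.isz_spec k11
  have v1 : t.ia.v = (conj (ev t.al))⁻¹ := by rw [Fr.v, ia, ev_one, ev_cj, one_div]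
  have v2 : t.ig.v = (conj (ev t.ga))⁻¹ := by rw [Fr.v, ig, ev_one, ev_cj, one_div]
  have v3 : (⟨1, cj (t.ga - t.al)⟩ : Fr).v = (conj (ev t.ga) - conj (ev t.al))⁻¹ := by
    rw [Fr.v, ev_one, ev_cj, one_div, ev_sub, map_sub]
  have v4 : (⟨t.al * (t.al * (zm 3 t.al - t.ga)),
          (t.ga - t.al) * ((t.ga - t.al) * (t.ga - t.al))⟩ : Fr).v
      = 2 * (ev t.al ^ 3 * (ev t.ga - ev t.al)⁻¹ ^ 3)
        - ev t.al ^ 2 * (ev t.ga - ev t.al)⁻¹ ^ 2 := by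
    rw [Fr.v]
    simp only [ev_mul, ev_sub, ev_zm]
    rw [ev_sub] at hga'
    field_simp
    push_cast
    ring
  simp only [Fr.v_ml, Fr.v_zz, frA_v, frB_v, frJ_v, v1, v2, v3, v4] at e1 e2 e3 e4 e5 e6 e7 e8 e9 e10 e11
  have hac : conj (ev t.al) ≠ 0 := (map_ne_zero _).mpr ha'
  have c1 : conj (ev t.al) * (conj (ev t.al))⁻¹ = 1 := mul_inv_cancel₀ hac
  simp only [tms, jms, List.map_cons, List.map_nil, List.sum_cons, List.sum_nil, Tm.val, Jm.val,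
    e1, e2, e3, e4, e5, e6, e7, e8, e9, e10, e11]
  push_cast
  generalize conj (ev t.al) = A at *
  generalize A⁻¹ = A' at *
  have c2 : A' ^ 2 * A = A' := by
    calc A' ^ 2 * A = A' * (A * A') := by ring
      _ = A' := by rw [c1, mul_one]
  have c3 : A' ^ 2 * A ^ 2 = 1 := by
    calc A' ^ 2 * A ^ 2 = (A * A') ^ 2 := by ring
      _ = 1 := by rw [c1, one_pow]
  generalize (conj (ev t.ga))⁻¹ = G at *
  generalize (conj (ev t.ga) - A)⁻¹ = H' at *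
  generalize (ev t.ga - ev t.al)⁻¹ = H3 at *
  generalize ev t.al = a at *
  generalize fA t.P1.c1.v t.P1.c2.v t.P1.c3.v = u1 at *
  generalize fA t.P2.c1.v t.P2.c2.v t.P2.c3.v = u2 at *
  generalize fB t.P2.c1.v t.P2.c2.v t.P2.c3.v = u3 at *
  generalize fA t.P3.c1.v t.P3.c2.v t.P3.c3.v = u4 at *
  generalize fB t.P3.c1.v t.P3.c2.v t.P3.c3.v = u5 at *
  generalize fA t.P4.c1.v t.P4.c2.v t.P4.c3.v = u6 at *
  generalize fB t.P4.c1.v t.P4.c2.v t.P4.c3.v = u7 at *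
  generalize fJ t.L1.c.v = w1 at *
  generalize fJ t.L2.c.v = w2 at *
  generalize fJ t.L3.c.v = w3 at *
  generalize fJ t.L4.c.v = w4 at *
  generalize SS false t.P1.k t.P1.g = S1 at *
  generalize SS false t.P2.k t.P2.g = S2 at *
  generalize SS true t.P2.k t.P2.g = S3 at *
  generalize SS false t.P3.k t.P3.g = S4 at *
  generalize SS true t.P3.k t.P3.g = S5 at *
  generalize SS false t.P4.k t.P4.g = S6 at *
  generalize SS true t.P4.k t.P4.g = S7 at *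
  generalize JJ t.L1.k t.L1.psi = J1 at *
  generalize JJ t.L2.k t.L2.psi = J2 at *
  generalize JJ t.L3.k t.L3.psi = J3 at *
  generalize JJ t.L4.k t.L4.psi = J4 at *
  linear_combination (N : ℂ) * A' ^ 2 * H
    - (N : ℂ) * (u1 * S1 - u2 * S2 - 2 * (u3 * S3) - G * (u4 * S4 - 2 * (u5 * S5))
        - H' * (w2 * J2)) * c2
    + (N : ℂ) * (G * (u6 * S6 - 2 * (u7 * S7)) - 3 * (G ^ 2 * (w3 * J3))
        + (2 * (a ^ 3 * H3 ^ 3) - a ^ 2 * H3 ^ 2) * (G ^ 2 * (w4 * J4))) * c3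

end TB

end Pool.RV.C
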